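import Pool.Agent.Q189.IB.Main
import Pool.Agent.Q13.IB.ODE
import Pool.Agent.Q31.IB.SD
import Pool.Agent.Q176.IB.Rat
import Pool.Agent.Q241.IB.Log
import Pool.Agent.Q224.IB.AI
import Pool.Agent.Q224.IB.GCH
import Pool.Agent.Q224.IB.GCX
import Pool.Agent.Q224.IB.QU
import Pool.Agent.Q129.IB.Int
import Pool.Agent.Q238.IB.Gam
import Pool.Agent.Q94.IB.Enum
import Pool.Agent.Q150.IB.RED
import Pool.Agent.Q223.IB.Prod

/-!
# Products of values of the Gamma function: the final theorems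
-/

set_option autoImplicit false

open PowerSeries Module

namespace Pool.Agent.Q189.IB

variable {k s : ℕ}

lemma AI : S_AI := Pool.Agent.Q224.IB.ai Pool.Agent.Q13.IB.ode Pool.Agent.Q176.IB.t_RAT Pool.Agent.Q241.IB.log

lemma QU : S_QU := Pool.Agent.Q224.IB.qu Pool.Agent.Q13.IB.ode Pool.Agent.Q31.IB.sd

lemma PROD : S_PROD := Pool.Agent.Q223.IB.t_PROD Pool.Agent.Q238.IB.gam Pool.Agent.Q150.IB.t_RED

theorem ENUM : S_ENUM := Pool.Agent.Q94.IB.enum_exists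

/-- the shift by an integer -/
lemma shift_pos (b : ℚ) (hb : 0 < b) (n : ℕ) : ∃ q : ℚ, q ≠ 0 ∧ Real.Gamma ((b + n : ℚ) : ℝ) = q * Real.Gamma (b : ℝ) := by
  induction n with
  | zero => exact ⟨1, one_ne_zero, by simp⟩
  | succ n ih =>
    obtain ⟨q, hq, h⟩ := ih
    have hbn : (0 : ℚ) < b + n := by positivity
    refine ⟨(b + n) * q, mul_ne_zero hbn.ne' hq, ?_⟩
    have h1 : (((b + (n + 1 : ℕ) : ℚ)) : ℝ) = ((b + n : ℚ) : ℝ) + 1 := by push_cast; ring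
    rw [h1, Real.Gamma_add_one (by exact_mod_cast hbn.ne'), h]
    push_cast
    ring

lemma shift_neg (b : ℚ) (n : ℕ) (hb : ∀ m : ℕ, b - n ≠ -(m : ℚ)) :
    ∃ q : ℚ, q ≠ 0 ∧ Real.Gamma ((b - n : ℚ) : ℝ) = q * Real.Gamma (b : ℝ) := by
  induction n with
  | zero => exact ⟨1, one_ne_zero, by simp⟩
  | succ n ih =>
    obtain ⟨q, hq, h⟩ := ih fun m hm => hb (m + 1) (by push_cast; linarith)
    have h0 : b - (n + 1 : ℕ) ≠ 0 := fun h => hb 0 (by simpa using h)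
    refine ⟨(b - (n + 1 : ℕ))⁻¹ * q, mul_ne_zero (inv_ne_zero h0) hq, ?_⟩
    have h1 : ((b - n : ℚ) : ℝ) = ((b - (n + 1 : ℕ) : ℚ) : ℝ) + 1 := by push_cast; ring
    have h2 : (((b - (n + 1 : ℕ) : ℚ)) : ℝ) ≠ 0 := by exact_mod_cast h0
    rw [h1, Real.Gamma_add_one h2] at h
    rw [Rat.cast_mul, Rat.cast_inv, mul_assoc, ← h, ← mul_assoc, inv_mul_cancel₀ h2, one_mul]

theorem SHIFT : S_SHIFT := by
  intro a ha
  set b := a - ⌈a⌉ + 1 with hb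
  have hb0 : 0 < b := rp_pos a
  obtain ⟨n, hn | hn⟩ := Int.eq_nat_or_neg (⌈a⌉ - 1)
  · have h1 : a = b + n := by
      have : ((⌈a⌉ - 1 : ℤ) : ℚ) = n := by rw [hn]; simp
      push_cast at this
      rw [hb]
      linarith
    obtain ⟨q, hq, h⟩ := shift_pos b hb0 n
    exact ⟨q, hq, by rw [← h, ← h1]⟩
  · have h1 : a = b - n := by
      have : ((⌈a⌉ - 1 : ℤ) : ℚ) = -n := by rw [hn]; simp
      push_cast at this
      rw [hb]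
      linarith
    obtain ⟨q, hq, h⟩ := shift_neg b n (by rw [← h1]; exact ha)
    exact ⟨q, hq, by rw [← h, ← h1]⟩

theorem ROHR {a : Fin (k + 1) → ℚ} (ha : ∀ j (n : ℕ), a j ≠ -(n : ℚ)) {u v : Fin s → ℚ} {m : Fin s → ℕ}
    (hE : Enum (fun j => rp (a j)) u v m) :
    (¬ AM a ↔ ∀ δ, ∃ n, 2 ≤ n ∧ Ind u v m (ww a : ℝ) δ n) ∧
    (¬ AM a ↔ ∀ δ, ∃ C c : ℝ, 0 < c ∧ ∀ T : ℕ, 1 ≤ T →
      (({n : ℕ | 2 ≤ n ∧ n ≤ T ∧ ¬ Ind u v m (ww a : ℝ) δ n}.ncard : ℕ) : ℝ) ≤ C * (T : ℝ) ^ (1 - c)) :=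
  rohr Pool.Agent.Q13.IB.ode Pool.Agent.Q31.IB.sd AI Pool.Agent.Q224.IB.gch Pool.Agent.Q224.IB.gcx QU
    Pool.Agent.Q129.IBInt.int Pool.Agent.Q238.IB.gam PROD SHIFT ha hE

theorem FEW {u v : Fin k → ℚ}
    (hpos : ∀ j, 0 < u j ∧ 0 < v j) (hz : ∀ j (z : ℤ), u j ≠ z ∧ v j ≠ z)
    (hd : ∀ i j, i ≠ j → ¬ ((∃ z : ℤ, u i - u j = z) ∧ ∃ z : ℤ, v i - v j = z)) (m : Fin k → ℕ) (δ : ℕ) :
    ∃ C c : ℝ, 0 < c ∧ ∀ w : ℂ, w ≠ 0 → Transcendental ℚ (w⁻¹ * ∏ j, ((inc (u j) (v j) 1 : ℝ) : ℂ) ^ m j) →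
      ∀ T : ℕ, 1 ≤ T → (({n : ℕ | 2 ≤ n ∧ n ≤ T ∧ ¬ Ind u v m w δ n}.ncard : ℕ) : ℝ) ≤ C * (T : ℝ) ^ (1 - c) :=
  few Pool.Agent.Q13.IB.ode Pool.Agent.Q31.IB.sd AI Pool.Agent.Q224.IB.gch Pool.Agent.Q224.IB.gcx QU
    Pool.Agent.Q129.IBInt.int Pool.Agent.Q238.IB.gam hpos hz hd m δ

theorem SUM {u v : Fin k → ℚ} (hpos : ∀ j, 0 < u j ∧ 0 < v j) (m : Fin k → ℕ) {n : ℕ} (hn : 2 ≤ n) :
    ∑ i : ∀ j, Fin (m j + 1), ((∏ j, (m j).choose (i j) : ℕ) : ℝ) * prd u v m n i = ∏ j, inc (u j) (v j) 1 ^ m j := by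
  classical
  have hn0 : (0 : ℝ) < n := by positivity
  have hn2 : (2 : ℝ) ≤ n := by exact_mod_cast hn
  have h2 : ∀ j, inc (u j) (v j) 1 = inc (u j) (v j) (1 / n) + inc (v j) (u j) (1 - 1 / n) := fun j =>
    Pool.Agent.Q238.IB.gam.2.1 (u j) (v j) (1 / n) (by exact_mod_cast (hpos j).1) (by exact_mod_cast (hpos j).2)
      (by positivity) (by
        rw [div_lt_one hn0]
        linarith)
  symm
  have h4 : ∀ j, inc (u j) (v j) 1 ^ m j = ∑ i : Fin (m j + 1), ((m j).choose i : ℝ) *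
      (inc (u j) (v j) (1 / n) ^ (i : ℕ) * inc (v j) (u j) (1 - 1 / n) ^ (m j - i)) := by
    intro j
    rw [h2 j, add_pow, ← Fin.sum_univ_eq_sum_range (fun i => inc (u j) (v j) (1 / n) ^ i *
      inc (v j) (u j) (1 - 1 / n) ^ (m j - i) * ((m j).choose i : ℝ))]
    exact Finset.sum_congr rfl fun i _ => by ring
  simp only [h4]
  rw [Finset.prod_univ_sum]
  simp only [Fintype.piFinset_univ]
  refine Finset.sum_congr rfl fun i _ => ?_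
  unfold prd
  rw [Finset.prod_mul_distrib]
  push_cast
  rfl

end Pool.Agent.Q189.IB
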