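import Pool.Agent.Q189.IB.Stm

/-!
# Incomplete beta integrals: statements of two more lemma jobs (analysis)
-/

set_option autoImplicit false

namespace Pool.Agent.Q189.IB

/-- the integral `∫_0^x t^(u-1) (1-t)^(v-1) dt` -/
noncomputable def inc (u v x : ℝ) : ℝ := ∫ t in (0 : ℝ)..x, t ^ (u - 1) * (1 - t) ^ (v - 1)

/-- JOB INT (hypothesis `S_ODE` allowed). For `u > 0` and `0 < x < 1`:
`∫_0^x t^(u-1) (1-t)^(v-1) dt = x^u (1-x)^v ∑ c_m x^m`, `c_m = cf u v m`.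
Proof. The series converges for `|x| < 1` (the ratio `c_(m+1)/c_m = (m + u + v)/(m + 1 + u)` tends to `1`). Let `S(x)` be
the sum, `F(x) = x^u (1-x)^v S(x)`. By `S_ODE` (or directly from `(m + 1 + u) c_(m+1) = (m + u + v) c_m`, `u c_0 = 1`)
`x (1-x) S' = 1 + (-u + (u+v) x) S` on `(0, 1)`, so `F' = x^(u-1) (1-x)^(v-1)` on `(0, 1)`; `F` is continuous on `[0, 1)` with
`F(0) = 0` since `u > 0`. Fundamental theorem of calculus on `[0, x]`
(`intervalIntegral.integral_eq_sub_of_hasDerivAt_of_le` or `integral_eq_sub_of_hasDeriv_right_of_le`, the integrand is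
integrable as the product of `t^(u-1)` (`intervalIntegral.intervalIntegrable_rpow'`, `u - 1 > -1`) and a continuous function). -/
def S_INT : Prop := ∀ (u v : ℚ) (x : ℝ), 0 < u → 0 < x → x < 1 →
  Summable (fun m => ((cf u v m : ℚ) : ℝ) * x ^ m) ∧
  inc u v x = x ^ (u : ℝ) * (1 - x) ^ (v : ℝ) * ∑' m, ((cf u v m : ℚ) : ℝ) * x ^ m

/-- JOB GAM. For positive `a_0, ..., a_k`, `A_j = a_(j+1) + ... + a_k`:
`∏ Γ(a_j) = (∏_(j < k) B(a_j, A_j)) Γ(a_0 + ... + a_k)` with `B(r, s) = inc r s 1 = ∫_0^1 t^(r-1) (1-t)^(s-1) dt`; and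
`B(r, s) = inc r s x + ∫_0^(1-x) t^(s-1) (1-t)^(r-1) dt` for `0 < x < 1`, and `B(r, s) > 0`.
Proof: `B(r, s) = Γ(r) Γ(s) / Γ(r + s)` (`Complex.betaIntegral`, or `TH818.AP.betaInt` used in
`Pool/Agent/Results/MP_c2409d_nt/FermatRelative.lean`) and induction on `k`; the second part is `∫_0^1 = ∫_0^x + ∫_x^1` and the
substitution `t ↦ 1 - t`. -/
def S_GAM : Prop :=
  (∀ (k : ℕ) (a : Fin (k + 1) → ℝ), (∀ j, 0 < a j) →
    ∏ j, Real.Gamma (a j) = (∏ j : Fin k, inc (a j.castSucc) (∑ i : Fin (k + 1), if j.castSucc < i then a i else 0) 1) *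
      Real.Gamma (∑ j, a j)) ∧
  (∀ r s x : ℝ, 0 < r → 0 < s → 0 < x → x < 1 → inc r s 1 = inc r s x + inc s r (1 - x)) ∧
  ∀ r s : ℝ, 0 < r → 0 < s → 0 < inc r s 1

end Pool.Agent.Q189.IB
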