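import Pool.Agent.Q189.IB.Cnn
import Pool.Agent.Q189.IB.Stm2

/-!
# Products of incomplete beta integrals: linear relations over number fields
-/

set_option autoImplicit false

open PowerSeries Module

namespace Pool.Agent.Q189.IB

open Pool.Agent.Y113 (ps SDc GSys)
open Pool.Agent.Y916.Al (evc)

variable {k : ℕ}

/-- the products of powers of `b_j = ∫_0^(1/n)` and `b'_j = ∫_(1/n)^1` of total degree `m_j` in `b_j`, `b'_j` -/
noncomputable def prd (u v : Fin k → ℚ) (m : Fin k → ℕ) (n : ℕ) (i : ∀ j, Fin (m j + 1)) : ℝ :=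
  ∏ j, inc (u j) (v j) (1 / n) ^ (i j : ℕ) * inc (v j) (u j) (1 - 1 / n) ^ (m j - i j)

/-- the number `w` and the products -/
noncomputable def nums (u v : Fin k → ℚ) (m : Fin k → ℕ) (w : ℂ) (n : ℕ) (o : Option (∀ j, Fin (m j + 1))) : ℂ :=
  o.elim w fun i => ((prd u v m n i : ℝ) : ℂ)

/-- linear independence over all number fields of degree at most `δ` -/
def Ind (u v : Fin k → ℚ) (m : Fin k → ℕ) (w : ℂ) (δ n : ℕ) : Prop :=
  ∀ K : IntermediateField ℚ ℂ, FiniteDimensional ℚ K → finrank ℚ K ≤ δ → LinearIndependent K (nums u v m w n)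

lemma exists_den (u v : Fin k → ℚ) : ∃ (D : ℕ) (p q : Fin k → ℤ), 0 < D ∧ ∀ j, u j = (p j : ℚ) / D ∧ v j = (q j : ℚ) / D := by
  classical
  set D : ℕ := ∏ j, (u j).den * (v j).den with hD
  have hD0 : 0 < D := Finset.prod_pos fun j _ => Nat.mul_pos (u j).pos (v j).pos
  refine ⟨D, fun j => (u j).num * (v j).den * (∏ i ∈ Finset.univ.erase j, (u i).den * (v i).den : ℕ),
    fun j => (v j).num * (u j).den * (∏ i ∈ Finset.univ.erase j, (u i).den * (v i).den : ℕ), hD0, fun j => ?_⟩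
  have h1 : D = ((u j).den * (v j).den) * ∏ i ∈ Finset.univ.erase j, (u i).den * (v i).den := by
    rw [hD, ← Finset.mul_prod_erase _ _ (Finset.mem_univ j)]
  set M : ℕ := ∏ i ∈ Finset.univ.erase j, (u i).den * (v i).den with hM
  have hM0 : (M : ℚ) ≠ 0 := by
    have : 0 < M := Finset.prod_pos fun j _ => Nat.mul_pos (u j).pos (v j).pos
    positivity
  have hu : ((u j).den : ℚ) ≠ 0 := by exact_mod_cast (u j).pos.ne'
  have hv : ((v j).den : ℚ) ≠ 0 := by exact_mod_cast (v j).pos.ne'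
  have e1 : (u j) = (u j).num / (u j).den := (Rat.num_div_den (u j)).symm
  have e2 : (v j) = (v j).num / (v j).den := (Rat.num_div_den (v j)).symm
  have hDq : (D : ℚ) = (u j).den * (v j).den * M := by
    rw [h1]
    push_cast
    rfl
  rw [hDq]
  constructor
  · have h3 : (((u j).num * (v j).den * (M : ℕ) : ℤ) : ℚ) / ((u j).den * (v j).den * M) = (u j).num / (u j).den := by
      push_cast
      field_simp
    exact e1.trans h3.symm
  · have h3 : (((v j).num * (u j).den * (M : ℕ) : ℤ) : ℚ) / ((u j).den * (v j).den * M) = (v j).num / (v j).den := by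
      push_cast
      field_simp
    exact e2.trans h3.symm

/-- the real root -/
noncomputable def rt (D n : ℕ) : ℂ := (((n : ℝ) ^ (1 / (D : ℝ)) : ℝ) : ℂ)

lemma rt_pow {D : ℕ} (hD : 0 < D) (n : ℕ) : rt D n ^ D = n := by
  unfold rt
  rw [← Complex.ofReal_pow, ← Real.rpow_natCast, ← Real.rpow_mul (by positivity), one_div_mul_cancel (by positivity),
    Real.rpow_one]
  simp

lemma rt_ne {D n : ℕ} (hn : 0 < n) : rt D n ≠ 0 := by
  unfold rt
  rw [Complex.ofReal_ne_zero]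
  positivity

lemma finrank_rt {D : ℕ} (hD : 0 < D) (n : ℕ) : FiniteDimensional ℚ (IntermediateField.adjoin ℚ {rt D n}) ∧
    finrank ℚ (IntermediateField.adjoin ℚ {rt D n}) ≤ D := by
  set P : Polynomial ℚ := Polynomial.X ^ D - Polynomial.C (n : ℚ) with hP
  have hPm : P.Monic := Polynomial.monic_X_pow_sub_C _ (by omega)
  have hroot : Polynomial.aeval (rt D n) P = 0 := by
    rw [hP, map_sub, map_pow, Polynomial.aeval_X, Polynomial.aeval_C, rt_pow hD]
    simp
  have hint : IsIntegral ℚ (rt D n) := ⟨P, hPm, hroot⟩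
  refine ⟨IntermediateField.adjoin.finiteDimensional hint, ?_⟩
  rw [IntermediateField.adjoin.finrank hint]
  have h1 := Polynomial.natDegree_le_natDegree (minpoly.min ℚ (rt D n) hPm hroot)
  refine h1.trans ?_
  rw [hP, Polynomial.natDegree_X_pow_sub_C]

/-- the algebraic factor -/
noncomputable def th (D : ℕ) (p q : ℤ) (n : ℕ) : ℂ := rt D n ^ (-(p + q)) * rt D (n - 1) ^ q

lemma rt_zpow {D : ℕ} (hD : 0 < D) {n : ℕ} (hn : 0 < n) (p : ℤ) : rt D n ^ p = (((n : ℝ) ^ ((p : ℝ) / D) : ℝ) : ℂ) := by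
  unfold rt
  rw [← Complex.ofReal_zpow, ← Real.rpow_intCast, ← Real.rpow_mul (by positivity)]
  congr 2
  field_simp

lemma th_eq {D : ℕ} (hD : 0 < D) (p q : ℤ) {n : ℕ} (hn : 2 ≤ n) :
    th D p q n = (((1 / (n : ℝ)) ^ ((p : ℝ) / D) * (1 - 1 / (n : ℝ)) ^ ((q : ℝ) / D) : ℝ) : ℂ) := by
  have hn0 : (0 : ℝ) < n := by positivity
  have hn1 : (0 : ℝ) < ((n - 1 : ℕ) : ℝ) := by
    have : 0 < n - 1 := by omega
    exact_mod_cast this
  unfold th
  rw [rt_zpow hD (by omega), rt_zpow hD (by omega), ← Complex.ofReal_mul]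
  congr 1
  have h1 : (1 : ℝ) - 1 / n = ((n - 1 : ℕ) : ℝ) / n := by
    rw [Nat.cast_sub (by omega)]
    field_simp
    simp
  rw [h1, Real.div_rpow hn1.le hn0.le, Real.div_rpow zero_le_one hn0.le, Real.one_rpow]
  have h2 : ((-(p + q) : ℤ) : ℝ) / D = -((p : ℝ) / D) - (q : ℝ) / D := by
    push_cast
    ring
  rw [h2, Real.rpow_sub hn0, Real.rpow_neg hn0.le]
  ring

lemma b_eq (hINT : S_INT) {D : ℕ} (hD : 0 < D) {u v : ℚ} {p q : ℤ} (hu : u = (p : ℚ) / D) (hv : v = (q : ℚ) / D) (hu0 : 0 < u)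
    {n : ℕ} (hn : 2 ≤ n) : ((inc u v (1 / n) : ℝ) : ℂ) = th D p q n * evc (1 / (n : ℂ)) (hs u v) := by
  have hn0 : (0 : ℝ) < n := by positivity
  have hn2 : (2 : ℝ) ≤ n := by exact_mod_cast hn
  obtain ⟨-, h1⟩ := hINT u v (1 / n) hu0 (by positivity) (by
    rw [div_lt_one hn0]
    linarith)
  rw [h1, th_eq hD p q hn]
  have e1 : ((u : ℚ) : ℝ) = (p : ℝ) / D := by rw [hu]; push_cast; rfl
  have e2 : ((v : ℚ) : ℝ) = (q : ℝ) / D := by rw [hv]; push_cast; rfl
  rw [← e1, ← e2, Complex.ofReal_mul]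
  congr 1
  unfold Pool.Agent.Y916.Al.evc hs
  rw [Complex.ofReal_tsum]
  refine tsum_congr fun m => ?_
  rw [coeff_mk]
  push_cast
  rfl

end Pool.Agent.Q189.IB
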