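import Pool.Agent.Q189.Z3.Crit
import Pool.Agent.Q246.LN.Tor2

/-!
# Exact relations between the values at `1/n`, relative to arbitrary constants
-/

set_option autoImplicit false

open PowerSeries

namespace Pool.Agent.Q189.IB

open Pool.Agent.Y916.Sl Pool.Agent.Y916.Af Pool.Agent.Q246.NR Pool.Agent.Q246.NR2 Pool.Agent.Q246.LN
open Pool.Agent.Y916.Al (evc)
open Pool.Agent.Q189.Z3 (sint_card sint_nat exists_height)

variable {r : ℕ}

/-- the values at `1/n` -/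
noncomputable def vl (h : Fin r → ℚ⟦X⟧) (n : ℕ) (i : Fin r) : ℂ := evc (1 / (n : ℂ)) (h i)

/-- `n` is exceptional: some relation of degree at most `d` between the values and the constants does not hold on the fibre -/
def ExN {g : ℕ} (h : Fin r → ℚ⟦X⟧) (d : ℕ) (ζ : Fin g → ℂ) (n : ℕ) : Prop :=
  ∃ P : MvPolynomial (Fin r ⊕ Fin g) ℤ, P.totalDegree ≤ d ∧ MvPolynomial.aeval (Sum.elim (vl h n) ζ) P = 0 ∧
    ∃ y ∈ Vc h (1 / (n : ℂ)), MvPolynomial.aeval (Sum.elim y ζ) P ≠ 0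

/-- the embedding of the variables -/
def emb (r g : ℕ) : Fin r ⊕ Fin g → (Fin 1 × Option (Fin r)) ⊕ (Fin g ⊕ Fin 1) :=
  Sum.elim (fun i => Sum.inl (0, some i)) fun i => Sum.inr (Sum.inl i)

theorem ex_int {h : Fin r → ℚ⟦X⟧} (hfam : Pool.Agent.Q246.AF.FAMN h)
    (hsize : ∃ C : ℝ, ∀ i m, |((coeff m (h i) : ℚ) : ℝ)| ≤ C ^ (m + 1)) (hc : Pool.Agent.Y118.UL.Conn h)
    {I : Finset (Fin r)} (hFree : Free h I) (g d : ℕ) :
    ∃ C c : ℝ, 0 ≤ C ∧ 0 < c ∧ ∀ ζ : Fin g → ℂ, ∀ T : ℕ, 1 ≤ T →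
      (({n : ℕ | 2 ≤ n ∧ n ≤ T ∧ ExN h d ζ n}.ncard : ℕ) : ℝ) ≤ C * (T : ℝ) ^ (1 - c) := by
  classical
  obtain ⟨B, C, c, hc0, hmain⟩ := torL hfam hsize hc hFree g 1 1 d le_rfl
  refine ⟨3 * max C 0, c, by positivity, hc0, fun ζ T hT => ?_⟩
  have hT0 : (0 : ℝ) < T := by exact_mod_cast hT
  rcases Nat.lt_or_ge T 2 with hT2 | hT2
  · have h1 : {n : ℕ | 2 ≤ n ∧ n ≤ T ∧ ExN h d ζ n} = ∅ := by
      ext n
      simp only [Set.mem_ofPred_eq, Set.mem_empty_iff_false, iff_false]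
      rintro ⟨ha, hb, -⟩
      omega
    rw [h1, Set.ncard_empty, Nat.cast_zero]
    positivity
  set δ : ℝ := (T : ℝ) ^ (-c) with hδ
  have hδ1 : δ < 1 := Real.rpow_lt_one_of_one_lt_of_neg (by exact_mod_cast hT2) (by linarith)
  have hδ0 : 0 < δ := Real.rpow_pos_of_pos hT0 _
  have h1 := (hmain T hT).2 ζ
  rw [pow_one] at h1
  have h2 : (({ξ : ℂ | SInt 1 T ξ}.ncard : ℕ) : ℝ) ≤ 3 * T := by
    have h3 := sint_card T
    calc (({ξ : ℂ | SInt 1 T ξ}.ncard : ℕ) : ℝ) ≤ ((2 * T + 1 : ℕ) : ℝ) := by exact_mod_cast h3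
      _ ≤ 3 * T := by
        push_cast
        have : (1 : ℝ) ≤ T := by exact_mod_cast hT
        linarith
  refine (Nat.cast_le.2 ?_).trans (h1.trans ?_)
  · refine Set.ncard_le_ncard_of_injOn (fun n : ℕ => fun _ : Fin 1 => (n : ℂ)) (fun n hn => ?_)
      (fun a _ b _ hab => Nat.cast_injective (R := ℂ) (congrFun hab 0))
      ((Set.Finite.pi' fun _ : Fin 1 => sint_fin 1 T).subset fun x hx => hx.1)
    obtain ⟨hn2, hnT, P, hPd, hP, y, hy, hy0⟩ := hn
    refine ⟨fun _ => sint_nat hnT, fun hcon => hy0 ?_⟩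
    set Q : MvPolynomial ((Fin 1 × Option (Fin r)) ⊕ (Fin g ⊕ Fin 1)) ℤ := MvPolynomial.rename (emb r g) P with hQ
    obtain ⟨j₀', hj₀'⟩ := exists_height Q
    set j₀ : ℕ := max j₀' (n + 2) with hj₀d
    have hδ' : 0 < 1 - δ := by linarith
    obtain ⟨N, hN, hbad⟩ := hcon (⌈(j₀ : ℝ) / (1 - δ)⌉₊ + 1)
    have hN1 : (j₀ : ℝ) < N * (1 - δ) := by
      rw [← div_lt_iff₀ hδ']
      exact lt_of_le_of_lt (Nat.le_ceil _) (by exact_mod_cast hN)
    have hex : ∃ j, j₀ ≤ j ∧ ∀ H : ℝ, 2 ^ (2 ^ j) ≤ H → H ≤ 2 ^ (2 ^ (j + 1)) →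
        GdL h d B ζ (fun _ : Fin 1 => (n : ℂ)) H := by
      by_contra hne
      push Not at hne
      have h5 : ((Finset.Ico j₀ N : Finset ℕ) : Set ℕ) ⊆ {j : ℕ | j < N ∧ ¬ ∀ H : ℝ, 2 ^ (2 ^ j) ≤ H → H ≤ 2 ^ (2 ^ (j + 1)) →
          GdL h d B ζ (fun _ : Fin 1 => (n : ℂ)) H} := by
        intro j hj
        rw [Finset.mem_coe, Finset.mem_Ico] at hj
        refine ⟨hj.2, fun hall => ?_⟩
        obtain ⟨H, ha, hb, hcc⟩ := hne j hj.1
        exact hcc (hall H ha hb)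
      have h6 := Set.ncard_le_ncard h5 ((Set.finite_lt_nat N).subset fun j hj => hj.1)
      rw [Set.ncard_coe_finset, Nat.card_Ico] at h6
      have h7 : ((N - j₀ : ℕ) : ℝ) ≤ δ * N := (Nat.cast_le.2 h6).trans hbad
      have h8 : (N : ℝ) - j₀ ≤ ((N - j₀ : ℕ) : ℝ) := by
        rw [sub_le_iff_le_add]
        exact_mod_cast Nat.sub_le_iff_le_add.1 le_rfl
      nlinarith
    obtain ⟨j, hj, hgood⟩ := hex
    have hjp : ∀ i : ℕ, i ≤ 2 ^ (2 ^ i) := fun i =>
      (Nat.lt_two_pow_self (n := i)).le.trans (Nat.pow_le_pow_right (by norm_num) (Nat.lt_two_pow_self (n := i)).le)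
    have hn0 : (n : ℂ) ≠ 0 := by
      have : n ≠ 0 := by omega
      exact_mod_cast this
    have hHn : ((n : ℝ) + 2) ≤ 2 ^ (2 ^ j) := by
      have h6 : n + 2 ≤ j := (le_max_right _ _).trans hj
      have h7 : n + 2 ≤ 2 ^ (2 ^ j) := h6.trans (hjp j)
      exact_mod_cast h7
    obtain ⟨-, g2⟩ := hgood (2 ^ (2 ^ j)) le_rfl
      (pow_le_pow_right₀ (by norm_num) (Nat.pow_le_pow_right (by norm_num) (Nat.le_succ j)))
      (fun _ => ((Real.log n : ℝ) : ℂ)) (fun _ => by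
        rw [← Complex.ofReal_exp, Real.exp_log (by positivity)]
        simp) (fun _ => by
        have h1 : 0 ≤ Real.log n := Real.log_nonneg (by
          have : 1 ≤ n := by omega
          exact_mod_cast this)
        rw [Complex.norm_real, Real.norm_eq_abs, abs_of_nonneg h1]
        have h2 := Real.log_le_sub_one_of_pos (x := (n : ℝ)) (by positivity)
        linarith)
    set Y : Fin 1 × Option (Fin r) → ℂ := fun a => a.2.elim 0 y with hY
    have h5 := g2 Q ((MvPolynomial.totalDegree_rename_le _ _).trans hPd)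
      (fun e => (hj₀' e).trans (pow_le_pow_right₀ (by norm_num) (Nat.pow_le_pow_right (by norm_num) ((le_max_left _ _).trans hj))))
      Y (fun _ => hy)
    have e1 : MvPolynomial.aeval (Sum.elim Y (Sum.elim ζ fun _ : Fin 1 => (n : ℂ))) Q = MvPolynomial.aeval (Sum.elim y ζ) P := by
      rw [hQ, MvPolynomial.aeval_rename]
      congr 2
      funext v
      rcases v with v | v <;> rfl
    have e2 : MvPolynomial.aeval (Sum.elim (ptc h (fun _ : Fin 1 => (n : ℂ)) fun _ => ((Real.log n : ℝ) : ℂ))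
        (Sum.elim ζ fun _ : Fin 1 => (n : ℂ))) Q = MvPolynomial.aeval (Sum.elim (vl h n) ζ) P := by
      rw [hQ, MvPolynomial.aeval_rename]
      congr 2
      funext v
      rcases v with v | v <;> rfl
    rw [e1, e2, hP, norm_zero, mul_zero] at h5
    exact norm_le_zero_iff.1 h5
  · calc C * δ * (({ξ : ℂ | SInt 1 T ξ}.ncard : ℕ) : ℝ) ≤ max C 0 * δ * (3 * T) :=
        mul_le_mul (mul_le_mul_of_nonneg_right (le_max_left _ _) hδ0.le) h2 (by positivity) (by positivity)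
      _ = 3 * max C 0 * (δ * T) := by ring
      _ = 3 * max C 0 * (T : ℝ) ^ (1 - c) := by
        congr 1
        rw [hδ, ← Real.rpow_add_one hT0.ne']
        congr 1
        ring

end Pool.Agent.Q189.IB
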