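import Mathlib

/-!
# The norm of a polynomial with coefficients in a number field
-/

set_option autoImplicit false

open Module

namespace Pool.Agent.Q189.IB

variable {V : Type}

/-- clearing denominators -/
lemma clear (p : MvPolynomial V ℚ) : ∃ (b : ℤ) (q : MvPolynomial V ℤ), b ≠ 0 ∧ q.totalDegree ≤ p.totalDegree ∧
    MvPolynomial.map (algebraMap ℤ ℚ) q = MvPolynomial.C (b : ℚ) * p := by
  classical
  obtain ⟨b, hb⟩ := IsLocalization.exist_integer_multiples_of_finset (nonZeroDivisors ℤ) (p.support.image fun e => p.coeff e)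
  have hb0 : (b : ℤ) ≠ 0 := nonZeroDivisors.coe_ne_zero b
  have h1 : ∀ e, ∃ a : ℤ, (a : ℚ) = (b : ℤ) * p.coeff e := by
    intro e
    by_cases he : e ∈ p.support
    · obtain ⟨a, ha⟩ := hb (p.coeff e) (Finset.mem_image_of_mem _ he)
      refine ⟨a, ?_⟩
      have h2 : (a : ℚ) = (b : nonZeroDivisors ℤ) • p.coeff e := ha
      rw [h2, Submonoid.smul_def, zsmul_eq_mul]
    · exact ⟨0, by rw [MvPolynomial.notMem_support_iff.1 he]; simp⟩
  choose a ha using h1
  refine ⟨b, ∑ e ∈ p.support, MvPolynomial.monomial e (a e), hb0, ?_, ?_⟩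
  · refine MvPolynomial.totalDegree_finsetSum_le fun e he => ?_
    exact (MvPolynomial.totalDegree_monomial_le _ _).trans (MvPolynomial.le_totalDegree he)
  · rw [map_sum]
    conv_rhs => rw [p.as_sum, Finset.mul_sum]
    refine Finset.sum_congr rfl fun e _ => ?_
    rw [MvPolynomial.map_monomial, MvPolynomial.C_mul_monomial]
    congr 1
    exact ha e

theorem norm_poly (K : IntermediateField ℚ ℂ) [FiniteDimensional ℚ K] (R : MvPolynomial V K) {d : ℕ} (hd : R.totalDegree ≤ d) :
    ∃ (N : MvPolynomial V ℤ) (c : ℂ), c ≠ 0 ∧ N.totalDegree ≤ finrank ℚ K * d ∧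
      ∀ v : V → ℂ, MvPolynomial.aeval v N = c * ∏ σ : K →ₐ[ℚ] ℂ, MvPolynomial.eval₂ (σ : K →+* ℂ) v R := by
  classical
  set s := finrank ℚ K with hs
  set b : Basis (Fin s) ℚ K := Module.finBasis ℚ K with hb
  set M : Matrix (Fin s) (Fin s) (MvPolynomial V ℚ) := Matrix.of fun i j =>
    ∑ e ∈ R.support, MvPolynomial.monomial e (Algebra.leftMulMatrix b (R.coeff e) i j) with hM
  have hMd : ∀ i j, (M i j).totalDegree ≤ d := by
    intro i j
    rw [hM, Matrix.of_apply]
    refine MvPolynomial.totalDegree_finsetSum_le fun e he => ?_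
    exact (MvPolynomial.totalDegree_monomial_le _ _).trans ((MvPolynomial.le_totalDegree he).trans hd)
  have hdet : M.det.totalDegree ≤ s * d := by
    rw [Matrix.det_apply]
    refine MvPolynomial.totalDegree_finsetSum_le fun τ _ => ?_
    have h1 : (∏ i, M (τ i) i).totalDegree ≤ s * d := by
      refine (MvPolynomial.totalDegree_finsetProd _ _).trans ?_
      calc _ ≤ ∑ _i : Fin s, d := Finset.sum_le_sum fun i _ => hMd _ _
        _ = s * d := by rw [Finset.sum_const, Finset.card_univ, Fintype.card_fin, smul_eq_mul]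
    rcases Int.units_eq_one_or (Equiv.Perm.sign τ) with h2 | h2
    · rw [h2, one_smul]
      exact h1
    · rw [h2]
      have h3 : ((-1 : ℤˣ) • ∏ i, M (τ i) i) = -∏ i, M (τ i) i := by
        rw [Units.smul_def]
        simp
      rw [h3, MvPolynomial.totalDegree_neg]
      exact h1
  obtain ⟨a, N, ha, hNd, hN⟩ := clear M.det
  refine ⟨N, (a : ℂ), by exact_mod_cast ha, hNd.trans hdet, fun v => ?_⟩
  have hcard : Fintype.card (Fin s) = Fintype.card (K →ₐ[ℚ] ℂ) := by
    rw [Fintype.card_fin, AlgHom.card]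
  set ε : Fin s ≃ (K →ₐ[ℚ] ℂ) := Fintype.equivOfCardEq hcard with hε
  -- the evaluation
  set Mv : Matrix (Fin s) (Fin s) ℂ := (MvPolynomial.aeval v : MvPolynomial V ℚ →ₐ[ℚ] ℂ).toRingHom.mapMatrix M with hMv
  set E := Algebra.embeddingsMatrixReindex ℚ ℂ b ε with hE
  have hE0 : E.det ≠ 0 := by
    intro h0
    have h1 := Algebra.discr_eq_det_embeddingsMatrixReindex_pow_two ℚ ℂ b ε
    rw [← hE, h0, zero_pow (by norm_num), map_eq_zero] at h1
    exact Algebra.discr_not_zero_of_basis ℚ b h1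
  have hEa : ∀ i j, E i j = ε j (b i) := fun i j => rfl
  have key : Mv.transpose * E = E * Matrix.diagonal fun i => MvPolynomial.eval₂ (ε i : K →+* ℂ) v R := by
    ext j i
    rw [Matrix.mul_apply, Matrix.mul_diagonal, hEa]
    have h1 : ∀ l, Mv.transpose j l = ∑ e ∈ R.support, ((Algebra.leftMulMatrix b (R.coeff e) l j : ℚ) : ℂ) *
        e.prod fun x n => v x ^ n := by
      intro l
      rw [Matrix.transpose_apply, hMv, RingHom.mapMatrix_apply, Matrix.map_apply, hM, Matrix.of_apply]
      show MvPolynomial.aeval v _ = _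
      rw [map_sum]
      refine Finset.sum_congr rfl fun e _ => ?_
      rw [MvPolynomial.aeval_monomial]
      rfl
    simp only [h1, hEa]
    rw [MvPolynomial.eval₂_eq, Finset.mul_sum]
    simp only [Finset.sum_mul]
    rw [Finset.sum_comm]
    refine Finset.sum_congr rfl fun e _ => ?_
    have h5 : (ε i) (R.coeff e) * (ε i) (b j) = ∑ l, ((Algebra.leftMulMatrix b (R.coeff e) l j : ℚ) : ℂ) * (ε i) (b l) := by
      rw [← map_mul]
      conv_lhs => rw [← b.sum_repr (R.coeff e * b j)]
      rw [map_sum]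
      refine Finset.sum_congr rfl fun l _ => ?_
      rw [Algebra.leftMulMatrix_eq_repr_mul, Algebra.smul_def, map_mul]
      congr 1
      exact (ε i).commutes _
    show ∑ l, ((Algebra.leftMulMatrix b (R.coeff e) l j : ℚ) : ℂ) * (e.prod fun x n => v x ^ n) * (ε i) (b l) =
      (ε i) (b j) * ((ε i) (R.coeff e) * (e.prod fun x n => v x ^ n))
    calc _ = (∑ l, ((Algebra.leftMulMatrix b (R.coeff e) l j : ℚ) : ℂ) * (ε i) (b l)) * (e.prod fun x n => v x ^ n) := by
          rw [Finset.sum_mul]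
          exact Finset.sum_congr rfl fun l _ => by ring
      _ = _ := by rw [← h5]; ring
  have h2 : Mv.det = ∏ σ : K →ₐ[ℚ] ℂ, MvPolynomial.eval₂ (σ : K →+* ℂ) v R := by
    have h3 := congrArg Matrix.det key
    rw [Matrix.det_mul, Matrix.det_mul, Matrix.det_transpose, Matrix.det_diagonal, mul_comm] at h3
    rw [mul_left_cancel₀ hE0 h3]
    exact Equiv.prod_comp ε fun σ => MvPolynomial.eval₂ (σ : K →+* ℂ) v R
  have h3 : MvPolynomial.aeval v M.det = Mv.det := by
    rw [hMv]
    exact RingHom.map_det _ M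
  have h4 : MvPolynomial.aeval v N = MvPolynomial.aeval v (MvPolynomial.map (algebraMap ℤ ℚ) N) :=
    (MvPolynomial.aeval_map_algebraMap ℚ v N).symm
  rw [h4, hN, map_mul, MvPolynomial.aeval_C, h3, h2]
  simp

end Pool.Agent.Q189.IB
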