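import Pool.Agent.Q189.IB.Fam
import Pool.Agent.Q189.IB.Ex
import Pool.Agent.Q189.IB.Norm
import Pool.Agent.Q189.HC.Cng

/-!
# The family of incomplete beta integrals: fibres, connectedness, exact relations over number fields
-/

set_option autoImplicit false

open PowerSeries

namespace Pool.Agent.Q189.IB

open Pool.Agent.Y113 (ps SDc GSys)
open Pool.Agent.Y916.Af (Vc Free)
open Pool.Agent.Y916.Al (evc)

variable {k : ℕ}

/-- the fibres are everything with first coordinate `1` -/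
lemma vc_fam {u v : Fin k → ℚ} (hAI : AlgebraicIndependent (Polynomial ℚ) (fun j => hs (u j) (v j)))
    {y : Fin (k + 1) → ℂ} (hy : y 0 = 1) (x : ℂ) : y ∈ Vc (fam u v) x := by
  intro R hR
  set U : Fin (k + 1) → MvPolynomial (Fin k) (Polynomial ℚ) := Fin.cons 1 MvPolynomial.X with hU
  set R' := MvPolynomial.aeval U R with hR'
  have h1 : MvPolynomial.aeval (fun j => hs (u j) (v j)) R' = 0 := by
    rw [hR', MvPolynomial.comp_aeval_apply U (MvPolynomial.aeval (R := Polynomial ℚ) fun j => hs (u j) (v j)) R, ← hR]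
    congr 2
    funext i
    refine Fin.cases ?_ (fun j => ?_) i
    · show MvPolynomial.aeval _ (1 : MvPolynomial (Fin k) (Polynomial ℚ)) = 1
      exact map_one _
    · show MvPolynomial.aeval _ (MvPolynomial.X j) = _
      rw [MvPolynomial.aeval_X]
      rfl
  have h2 : R' = 0 := (algebraicIndependent_iff.1 hAI) R' h1
  set φ : Polynomial ℚ →+* ℂ := (Polynomial.aeval x : Polynomial ℚ →ₐ[ℚ] ℂ).toRingHom with hφ
  have h3 : MvPolynomial.eval₂ φ (fun j : Fin k => y j.succ) R' = MvPolynomial.eval₂ φ y R := by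
    have h4 : (MvPolynomial.eval₂Hom φ fun j : Fin k => y j.succ).comp (MvPolynomial.aeval U :
        MvPolynomial (Fin (k + 1)) (Polynomial ℚ) →ₐ[Polynomial ℚ] _).toRingHom = MvPolynomial.eval₂Hom φ y := by
      refine MvPolynomial.ringHom_ext (fun a => ?_) fun i => ?_
      · show MvPolynomial.eval₂ φ _ (MvPolynomial.aeval U (MvPolynomial.C a)) = MvPolynomial.eval₂ φ y (MvPolynomial.C a)
        rw [MvPolynomial.aeval_C, MvPolynomial.eval₂_C]
        exact MvPolynomial.eval₂_C _ _ _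
      · show MvPolynomial.eval₂ φ _ (MvPolynomial.aeval U (MvPolynomial.X i)) = MvPolynomial.eval₂ φ y (MvPolynomial.X i)
        rw [MvPolynomial.aeval_X, MvPolynomial.eval₂_X]
        refine Fin.cases ?_ (fun j => ?_) i
        · rw [hy]
          exact MvPolynomial.eval₂_one _ _
        · exact MvPolynomial.eval₂_X _ _ _
    exact RingHom.congr_fun h4 R
  rw [← h3, h2, MvPolynomial.eval₂_zero]

theorem conn_fam {u v : Fin k → ℚ} (hAI : AlgebraicIndependent (Polynomial ℚ) (fun j => hs (u j) (v j)))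
    (hS : ∀ i, SDc (fam u v i)) : Pool.Agent.Y118.UL.Conn (fam u v) := by
  obtain ⟨K, hK, hs, -⟩ := Pool.Agent.Y119.HY.SDc.unif hS
  refine Pool.Agent.Q189.HC.conn_gen hK hs {y | y 0 = 1} (fun t _ => ?_) (fun X hX x => vc_fam hAI hX x) ?_
  · show Pool.Agent.Y120.GH.ou (Pool.Agent.Y120.GH.cx (fam u v 0)) t = 1
    have h1 : fam u v 0 = 1 := rfl
    rw [h1, map_one]
    exact Pool.Agent.Y120.GH.ou_one t
  · intro X hX Y hY
    refine ⟨fun a => Polynomial.C (X a) + Polynomial.X * Polynomial.C (Y a - X a), ?_, ?_, fun s => ?_⟩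
    · funext a
      simp
    · funext a
      simp
    · show Polynomial.eval s (Polynomial.C (X 0) + Polynomial.X * Polynomial.C (Y 0 - X 0)) = 1
      have hX' : X 0 = 1 := hX
      have hY' : Y 0 = 1 := hY
      simp [hX', hY']

/-- the values `h_j(1/n)` -/
noncomputable def vh (u v : Fin k → ℚ) (n : ℕ) (j : Fin k) : ℂ := evc (1 / (n : ℂ)) (hs (u j) (v j))

/-- `n` is exceptional for number fields of degree at most `δ` -/
def ExK {g : ℕ} (u v : Fin k → ℚ) (d δ : ℕ) (ζ : Fin g → ℂ) (n : ℕ) : Prop :=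
  ∃ K : IntermediateField ℚ ℂ, FiniteDimensional ℚ K ∧ Module.finrank ℚ K ≤ δ ∧
    ∃ R : MvPolynomial (Fin k ⊕ Fin g) K, R.totalDegree ≤ d ∧
      MvPolynomial.eval₂ (algebraMap K ℂ) (Sum.elim (vh u v n) ζ) R = 0 ∧
      ∀ σ : K →ₐ[ℚ] ℂ, ∃ y : Fin k → ℂ, MvPolynomial.eval₂ (σ : K →+* ℂ) (Sum.elim y ζ) R ≠ 0

lemma evc_one (x : ℂ) : evc x 1 = 1 := by
  unfold Pool.Agent.Y916.Al.evc
  rw [tsum_eq_single 0]
  · simp
  · intro m hm
    rw [coeff_one, if_neg hm]
    simp

/-- polynomials in the first variables after substituting constants for the other ones -/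
lemma exists_common_ne {g : ℕ} {L : Type} (s : Finset L) (R : L → MvPolynomial (Fin k ⊕ Fin g) ℂ) (ζ : Fin g → ℂ)
    (h : ∀ σ ∈ s, ∃ y : Fin k → ℂ, MvPolynomial.eval (Sum.elim y ζ) (R σ) ≠ 0) :
    ∃ y : Fin k → ℂ, ∏ σ ∈ s, MvPolynomial.eval (Sum.elim y ζ) (R σ) ≠ 0 := by
  classical
  set S : L → MvPolynomial (Fin k) ℂ := fun σ => MvPolynomial.aeval (Sum.elim MvPolynomial.X fun i => MvPolynomial.C (ζ i)) (R σ)
    with hS
  have hev : ∀ (y : Fin k → ℂ) σ, MvPolynomial.eval y (S σ) = MvPolynomial.eval (Sum.elim y ζ) (R σ) := by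
    intro y σ
    have h4 : (MvPolynomial.eval y).comp (MvPolynomial.aeval (Sum.elim MvPolynomial.X fun i => MvPolynomial.C (ζ i)) :
        MvPolynomial (Fin k ⊕ Fin g) ℂ →ₐ[ℂ] MvPolynomial (Fin k) ℂ).toRingHom = MvPolynomial.eval (Sum.elim y ζ) := by
      refine MvPolynomial.ringHom_ext (fun a => ?_) fun i => ?_
      · show MvPolynomial.eval y (MvPolynomial.aeval _ (MvPolynomial.C a)) = MvPolynomial.eval _ (MvPolynomial.C a)
        rw [MvPolynomial.aeval_C, MvPolynomial.eval_C]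
        exact MvPolynomial.eval_C _
      · show MvPolynomial.eval y (MvPolynomial.aeval _ (MvPolynomial.X i)) = MvPolynomial.eval _ (MvPolynomial.X i)
        rw [MvPolynomial.aeval_X, MvPolynomial.eval_X]
        rcases i with i | i
        · exact MvPolynomial.eval_X i
        · exact MvPolynomial.eval_C _
    exact RingHom.congr_fun h4 (R σ)
  have hne : ∏ σ ∈ s, S σ ≠ 0 := by
    refine Finset.prod_ne_zero_iff.2 fun σ hσ h0 => ?_
    obtain ⟨y, hy⟩ := h σ hσ
    apply hy
    rw [← hev, h0, map_zero]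
  by_contra hcon
  push Not at hcon
  apply hne
  refine MvPolynomial.funext fun y => ?_
  rw [map_prod, map_zero, ← hcon y]
  exact Finset.prod_congr rfl fun σ _ => hev y σ

theorem exK_sub {u v : Fin k → ℚ} (hAI : AlgebraicIndependent (Polynomial ℚ) (fun j => hs (u j) (v j))) {g d δ : ℕ}
    {ζ : Fin g → ℂ} {n : ℕ} (h : ExK u v d δ ζ n) : ExN (fam u v) (δ * d) ζ n := by
  classical
  obtain ⟨K, hK, hδ, R, hRd, hR0, hne⟩ := h
  obtain ⟨N, c, hc, hNd, hN⟩ := norm_poly K R hRd
  set P : MvPolynomial (Fin (k + 1) ⊕ Fin g) ℤ := MvPolynomial.rename (Sum.map Fin.succ id) N with hP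
  have hPe : ∀ (y : Fin (k + 1) → ℂ), MvPolynomial.aeval (Sum.elim y ζ) P =
      MvPolynomial.aeval (Sum.elim (fun j : Fin k => y j.succ) ζ) N := by
    intro y
    rw [hP, MvPolynomial.aeval_rename]
    congr 2
    funext i
    rcases i with i | i <;> rfl
  refine ⟨P, (MvPolynomial.totalDegree_rename_le _ _).trans (hNd.trans (Nat.mul_le_mul_right _ hδ)), ?_, ?_⟩
  · rw [hPe, hN]
    refine mul_eq_zero_of_right _ (Finset.prod_eq_zero (Finset.mem_univ K.val) ?_)
    exact hR0
  · obtain ⟨y, hy⟩ := exists_common_ne (Finset.univ : Finset (K →ₐ[ℚ] ℂ)) (fun σ => MvPolynomial.map (σ : K →+* ℂ) R) ζ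
      (fun σ _ => by
        obtain ⟨y, hy⟩ := hne σ
        refine ⟨y, ?_⟩
        rw [MvPolynomial.eval_map]
        exact hy)
    refine ⟨Fin.cons 1 y, vc_fam hAI rfl _, ?_⟩
    rw [hPe, hN]
    refine mul_ne_zero hc ?_
    simp only [MvPolynomial.eval_map] at hy
    exact hy

end Pool.Agent.Q189.IB
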