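import Pool.Agent.Q189.IB.Gsy
import Pool.Agent.Y916.Af.Gs

/-!
# The family of incomplete beta integrals
-/

set_option autoImplicit false

open PowerSeries

namespace Pool.Agent.Q189.IB

open Pool.Agent.Y113 (ps SDc GSys)
open Pool.Agent.Y124.GE (GC)
open Pool.Agent.Y120.GH (QU0)

variable {k : ℕ}

/-- the family `1, h_1, ..., h_k` -/
noncomputable def fam (u v : Fin k → ℚ) : Fin (k + 1) → ℚ⟦X⟧ := Fin.cons 1 fun j => hs (u j) (v j)

lemma SDc_fam (h : S_SD) (u v : Fin k → ℚ) (hu : ∀ j, 0 < u j) (i : Fin (k + 1)) : SDc (fam u v i) := by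
  refine Fin.cases ?_ (fun j => ?_) i
  · exact SDc.one
  · exact h _ _ (hu j)

lemma ode_fam (h : S_ODE) {D : ℕ} (hD : 0 < D) (p q : Fin k → ℤ) (hp : ∀ j, 0 < p j) (i : Fin (k + 1)) :
    ps (TT D) * d⁄dX ℚ (fam (fun j => (p j : ℚ) / D) (fun j => (q j : ℚ) / D) i) =
      ∑ j, ps (AA D p q i j) * fam (fun j => (p j : ℚ) / D) (fun j => (q j : ℚ) / D) j := by
  have hD0 : (D : ℚ) ≠ 0 := by positivity
  have hT : ps (TT D) = C (D : ℚ) * (X * (1 - X)) := by
    unfold TT Pool.Agent.Y113.ps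
    simp only [Polynomial.map_mul, Polynomial.map_C, Polynomial.map_sub, Polynomial.map_one, Polynomial.map_X,
      Polynomial.coe_mul, Polynomial.coe_C, Polynomial.coe_sub, Polynomial.coe_one, Polynomial.coe_X]
    simp
  refine Fin.cases ?_ (fun j => ?_) i
  · simp [fam, AA, Pool.Agent.Y113.ps]
  · rw [Fin.sum_univ_succ]
    simp only [fam, AA, Fin.cons_succ, Fin.cons_zero]
    have h1 := h ((p j : ℚ) / D) ((q j : ℚ) / D) (div_pos (by exact_mod_cast hp j) (by positivity))
    rw [hT, mul_assoc, h1, Finset.sum_eq_single j]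
    · rw [if_pos rfl]
      have e1 : ps (Polynomial.C (D : ℤ)) = C (D : ℚ) := by
        unfold Pool.Agent.Y113.ps
        simp only [Polynomial.map_C, Polynomial.coe_C]
        simp
      have e2 : ps (Polynomial.C (-p j) + Polynomial.C (p j + q j) * Polynomial.X) =
          C (-(p j : ℚ)) + C ((p j : ℚ) + q j) * X := by
        unfold Pool.Agent.Y113.ps
        simp only [Polynomial.map_add, Polynomial.map_mul, Polynomial.map_C, Polynomial.map_X,
          Polynomial.coe_add, Polynomial.coe_mul, Polynomial.coe_C, Polynomial.coe_X]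
        simp
      have e3 : C (D : ℚ) * C (-((p j : ℚ) / D)) = C (-(p j : ℚ)) := by
        rw [← map_mul]
        congr 1
        field_simp
      have e4 : C (D : ℚ) * C ((p j : ℚ) / D + (q j : ℚ) / D) = C ((p j : ℚ) + q j) := by
        rw [← map_mul]
        congr 1
        field_simp
      rw [e1, e2, ← e3, ← e4]
      ring
    · intro l _ hl
      rw [if_neg (Ne.symm hl)]
      simp [Pool.Agent.Y113.ps]
    · intro h
      exact absurd (Finset.mem_univ _) h

theorem gfs_fam (hODE : S_ODE) (hSD : S_SD) (hGCH : S_GCH) (hGCX : S_GCX) (hQU : S_QU) {D : ℕ} (hD : 0 < D) (p q : Fin k → ℤ)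
    (hp : ∀ j, 0 < p j) :
    Pool.Agent.Y916.Af.GFs (TT D) (AA D p q) (fam (fun j => (p j : ℚ) / D) (fun j => (q j : ℚ) / D)) := by
  have hu : ∀ j, (0 : ℚ) < (p j : ℚ) / D := fun j => div_pos (by exact_mod_cast hp j) (by positivity)
  obtain ⟨N, hN⟩ := hGCH k D p q hD
  obtain ⟨N', hN'⟩ := hGCX k D p q hD N hN
  have hS := SDc_fam hSD (fun j => (p j : ℚ) / D) (fun j => (q j : ℚ) / D) hu
  refine ⟨?_, ode_fam hODE hD p q hp, ?_, gsys_gc hN' (ode_fam hODE hD p q hp) hS, hQU k D p q hD hp⟩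
  · unfold TT
    refine mul_ne_zero (by simp; omega) (mul_ne_zero Polynomial.X_ne_zero ?_)
    intro h0
    have := congrArg (Polynomial.eval 0) h0
    simp at this
  · obtain ⟨C, -, hs, -⟩ := Pool.Agent.Y119.HY.SDc.unif hS
    exact ⟨C, hs⟩

end Pool.Agent.Q189.IB
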