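import Pool.Agent.Q189.IB.Stm2

/-!
# Incomplete beta integrals: statements of three more lemma jobs (reduction of a product of Gamma values)
-/

set_option autoImplicit false

namespace Pool.Agent.Q189.IB

/-- `A_j = a_(j+1) + ... + a_k` -/
def tail {k : ℕ} (a : Fin (k + 1) → ℚ) (j : Fin k) : ℚ := ∑ i : Fin (k + 1), if j.castSucc < i then a i else 0

/-- `(u_c, v_c)`, `c < s`, are the different pairs `({a_j}, {A_j})`, `j < k`, of fractional parts with both entries nonzero, and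
`m_c` is the number of the `j < k` with the pair `(u_c, v_c)` -/
structure Enum {k : ℕ} (a : Fin (k + 1) → ℚ) {s : ℕ} (u v : Fin s → ℚ) (m : Fin s → ℕ) : Prop where
  inj : ∀ c c', u c = u c' → v c = v c' → c = c'
  ne : ∀ c, u c ≠ 0 ∧ v c ≠ 0
  mem : ∀ c, ∃ j : Fin k, Int.fract (a j.castSucc) = u c ∧ Int.fract (tail a j) = v c
  all : ∀ j : Fin k, Int.fract (a j.castSucc) ≠ 0 → Int.fract (tail a j) ≠ 0 →
    ∃ c, Int.fract (a j.castSucc) = u c ∧ Int.fract (tail a j) = v c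
  card : ∀ c, m c = (Finset.univ.filter fun j : Fin k => Int.fract (a j.castSucc) = u c ∧ Int.fract (tail a j) = v c).card

/-- JOB RED. Reduction of a beta value `B(u, v) = inc u v 1 = ∫_0^1 t^(u-1) (1-t)^(v-1) dt` modulo integers:
it is rational if `u` or `v` is an integer, and a positive rational multiple of `B({u}, {v})` otherwise.
Proof: `B(u, v) = Γ(u) Γ(v) / Γ(u + v)` (`Complex.betaIntegral`, `Real.Gamma`), `Γ(x + 1) = x Γ(x)`, so
`B(u + 1, v) = u/(u + v) B(u, v)`, `B(u, v + 1) = v/(u + v) B(u, v)`, `B(1, v) = 1/v`, `B(u, 1) = 1/u`; induction on the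
integral parts. -/
def S_RED : Prop :=
  (∀ u v : ℚ, 0 < u → 0 < v → ((∃ z : ℤ, u = z) ∨ ∃ z : ℤ, v = z) → ∃ q : ℚ, 0 < q ∧ inc u v 1 = q) ∧
  ∀ u v : ℚ, 0 < u → 0 < v → (∀ z : ℤ, u ≠ z) → (∀ z : ℤ, v ≠ z) →
    ∃ q : ℚ, 0 < q ∧ inc u v 1 = q * inc (Int.fract u : ℚ) (Int.fract v : ℚ) 1

/-- JOB PROD (hypotheses `S_GAM`, `S_RED` allowed). A product of Gamma values at positive rational numbers is
`q ∏_c B(u_c, v_c)^(m_c) Γ(a_0 + ... + a_k)` with a positive rational number `q`.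
Proof: by `S_GAM` the product is `∏_(j<k) B(a_j, A_j) Γ(∑ a)`. By `S_RED` the factors with `{a_j} = 0` or `{A_j} = 0` are
rational and each other factor is a rational multiple of `B({a_j}, {A_j}) = B(u_c, v_c)` for exactly one `c`; group the
factors by `c` (`Finset.prod_fiberwise`). -/
def S_PROD : Prop := ∀ (k : ℕ) (a : Fin (k + 1) → ℚ), (∀ j, 0 < a j) → ∀ (s : ℕ) (u v : Fin s → ℚ) (m : Fin s → ℕ),
  Enum a u v m → ∃ q : ℚ, 0 < q ∧
    ∏ j, Real.Gamma (a j : ℝ) = q * (∏ c, inc (u c : ℝ) (v c : ℝ) 1 ^ m c) * Real.Gamma ((∑ j, a j : ℚ) : ℝ)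

/-- JOB ENUM. Such an enumeration exists. (The finite set of the pairs, `Finset.equivFin`.) -/
def S_ENUM : Prop := ∀ (k : ℕ) (a : Fin (k + 1) → ℚ), ∃ (s : ℕ) (u v : Fin s → ℚ) (m : Fin s → ℕ), Enum a u v m

end Pool.Agent.Q189.IB
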