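import Pool.Agent.Q189.IB.Trn
import Pool.Agent.Q189.IB.Stm3

/-!
# The criterion
-/

set_option autoImplicit false

open PowerSeries Module

namespace Pool.Agent.Q189.IB

variable {k : ℕ} {m : Fin k → ℕ}

theorem exN_few (hODE : S_ODE) (hSD : S_SD) (hAI : S_AI) (hGCH : S_GCH) (hGCX : S_GCX) (hQU : S_QU) {u v : Fin k → ℚ}
    (hpos : ∀ j, 0 < u j ∧ 0 < v j) (hz : ∀ j (z : ℤ), u j ≠ z ∧ v j ≠ z)
    (hd : ∀ i j, i ≠ j → ¬ ((∃ z : ℤ, u i - u j = z) ∧ ∃ z : ℤ, v i - v j = z)) (g d : ℕ) :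
    ∃ C c : ℝ, 0 ≤ C ∧ 0 < c ∧ ∀ ζ : Fin g → ℂ, ∀ T : ℕ, 1 ≤ T →
      (({n : ℕ | 2 ≤ n ∧ n ≤ T ∧ ExN (fam u v) d ζ n}.ncard : ℕ) : ℝ) ≤ C * (T : ℝ) ^ (1 - c) := by
  obtain ⟨D, p, q, hD, huv⟩ := exists_den u v
  have hp : ∀ j, 0 < p j := by
    intro j
    have h1 := (hpos j).1
    rw [(huv j).1] at h1
    have h2 : (0 : ℚ) < D := by exact_mod_cast hD
    have h3 : (0 : ℚ) < p j := by
      rcases lt_or_ge (0 : ℚ) (p j) with h | h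
      · exact h
      · exact absurd h1 (not_lt.2 (div_nonpos_of_nonpos_of_nonneg h h2.le))
    exact_mod_cast h3
  have hu : u = fun j => (p j : ℚ) / D := funext fun j => (huv j).1
  have hv : v = fun j => (q j : ℚ) / D := funext fun j => (huv j).2
  have hai := hAI k u v hpos hz hd
  have hG := gfs_fam hODE hSD hGCH hGCX hQU hD p q hp
  rw [← hu, ← hv] at hG
  have hS := SDc_fam hSD u v fun j => (hpos j).1
  obtain ⟨I, hI1, hI2⟩ := Pool.Agent.Y118.UL.exists_free (fam u v)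
  exact ex_int (Pool.Agent.Q246.AF.t_famN hG) hG.hsize (conn_fam hai hS) (I := I) ⟨hI1, hI2⟩ g d

theorem few (hODE : S_ODE) (hSD : S_SD) (hAI : S_AI) (hGCH : S_GCH) (hGCX : S_GCX) (hQU : S_QU) (hINT : S_INT)
    (hGAM : S_GAM) {u v : Fin k → ℚ}
    (hpos : ∀ j, 0 < u j ∧ 0 < v j) (hz : ∀ j (z : ℤ), u j ≠ z ∧ v j ≠ z)
    (hd : ∀ i j, i ≠ j → ¬ ((∃ z : ℤ, u i - u j = z) ∧ ∃ z : ℤ, v i - v j = z)) (m : Fin k → ℕ) (δ : ℕ) :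
    ∃ C c : ℝ, 0 < c ∧ ∀ w : ℂ, w ≠ 0 → Transcendental ℚ (w⁻¹ * ∏ j, ((inc (u j) (v j) 1 : ℝ) : ℂ) ^ m j) →
      ∀ T : ℕ, 1 ≤ T → (({n : ℕ | 2 ≤ n ∧ n ≤ T ∧ ¬ Ind u v m w δ n}.ncard : ℕ) : ℝ) ≤ C * (T : ℝ) ^ (1 - c) := by
  obtain ⟨D, p, q, hD, huv⟩ := exists_den u v
  obtain ⟨C, c, -, hc, h⟩ := exN_few hODE hSD hAI hGCH hGCX hQU hpos hz hd (k + 1) (δ * (D * D) * (∑ j, m j + 1))
  refine ⟨C, c, hc, fun w hw htr T hT => (Nat.cast_le.2 ?_).trans (h (cst u v w) T hT)⟩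
  refine Set.ncard_le_ncard (fun n hn => ⟨hn.1, hn.2.1, ?_⟩) ((Set.finite_Iic T).subset fun n hn => hn.2.1)
  exact exK_sub (hAI k u v hpos hz hd) (exK_of hINT hGAM hpos hD huv hw htr hn.1 hn.2.2)

/-- a linear relation exists at every integer if the product is algebraic -/
theorem dep (hGAM : S_GAM) {u v : Fin k → ℚ} (hpos : ∀ j, 0 < u j ∧ 0 < v j) (m : Fin k → ℕ) {w : ℂ} (hw : w ≠ 0)
    (halg : IsAlgebraic ℚ (w⁻¹ * ∏ j, ((inc (u j) (v j) 1 : ℝ) : ℂ) ^ m j)) :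
    ∃ δ, ∀ n, 2 ≤ n → ¬ Ind u v m w δ n := by
  classical
  set α := w⁻¹ * ∏ j, ((inc (u j) (v j) 1 : ℝ) : ℂ) ^ m j with hα
  have hint := halg.isIntegral
  refine ⟨(minpoly ℚ α).natDegree, fun n hn hInd => ?_⟩
  have h1 := hInd (IntermediateField.adjoin ℚ {α}) (IntermediateField.adjoin.finiteDimensional hint)
    (le_of_eq (IntermediateField.adjoin.finrank hint))
  revert h1
  rw [imp_false, Fintype.not_linearIndependent_iff]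
  refine ⟨fun o => o.elim (-⟨α, IntermediateField.mem_adjoin_simple_self ℚ α⟩) fun i =>
    ((∏ j, ((m j).choose (i j) : ℕ) : ℕ) : IntermediateField.adjoin ℚ {α}), ?_, some fun _ => 0, ?_⟩
  · rw [Fintype.sum_option]
    show (-α) * w + ∑ i : ∀ j, Fin (m j + 1), (((∏ j, ((m j).choose (i j) : ℕ) : ℕ) : IntermediateField.adjoin ℚ {α}) : ℂ) *
      ((prd u v m n i : ℝ) : ℂ) = 0
    have hn0 : (0 : ℝ) < n := by positivity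
    have hn2 : (2 : ℝ) ≤ n := by exact_mod_cast hn
    have h2 : ∀ j, inc (u j) (v j) 1 = inc (u j) (v j) (1 / n) + inc (v j) (u j) (1 - 1 / n) := fun j =>
      hGAM.2.1 (u j) (v j) (1 / n) (by exact_mod_cast (hpos j).1) (by exact_mod_cast (hpos j).2) (by positivity) (by
        rw [div_lt_one hn0]
        linarith)
    have h3 : ∏ j, inc (u j) (v j) 1 ^ m j = ∑ i : ∀ j, Fin (m j + 1), ((∏ j, ((m j).choose (i j) : ℕ) : ℕ) : ℝ) * prd u v m n i := by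
      have h4 : ∀ j, inc (u j) (v j) 1 ^ m j = ∑ i : Fin (m j + 1), ((m j).choose i : ℝ) *
          (inc (u j) (v j) (1 / n) ^ (i : ℕ) * inc (v j) (u j) (1 - 1 / n) ^ (m j - i)) := by
        intro j
        rw [h2 j, add_pow, ← Fin.sum_univ_eq_sum_range (fun i => inc (u j) (v j) (1 / n) ^ i *
          inc (v j) (u j) (1 - 1 / n) ^ (m j - i) * ((m j).choose i : ℝ))]
        exact Finset.sum_congr rfl fun i _ => by ring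
      simp only [h4]
      rw [Finset.prod_univ_sum]
      simp only [Fintype.piFinset_univ]
      refine Finset.sum_congr rfl fun i _ => ?_
      unfold prd
      rw [Finset.prod_mul_distrib]
      push_cast
      rfl
    have h5 : (∏ j, ((inc (u j) (v j) 1 : ℝ) : ℂ) ^ m j) = ∑ i : ∀ j, Fin (m j + 1),
        (((∏ j, ((m j).choose (i j) : ℕ) : ℕ) : IntermediateField.adjoin ℚ {α}) : ℂ) * ((prd u v m n i : ℝ) : ℂ) := by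
      have h6 := congrArg (fun x : ℝ => (x : ℂ)) h3
      simp only [Complex.ofReal_prod, Complex.ofReal_pow, Complex.ofReal_sum, Complex.ofReal_mul] at h6
      rw [h6]
      refine Finset.sum_congr rfl fun i _ => ?_
      congr 1
    rw [← h5, hα]
    field_simp
    ring
  · show ((∏ j, ((m j).choose ((fun _ => 0 : ∀ j, Fin (m j + 1)) j) : ℕ) : ℕ) : IntermediateField.adjoin ℚ {α}) ≠ 0
    have : ∏ j, ((m j).choose ((fun _ => 0 : ∀ j, Fin (m j + 1)) j) : ℕ) ≠ 0 :=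
      Finset.prod_ne_zero_iff.2 fun j _ => by simp
    exact_mod_cast this

/-- few exceptions leave an integer -/
lemma exists_of_few {A : ℕ → Prop} {C c : ℝ} (hc : 0 < c) (h : ∀ T : ℕ, 1 ≤ T →
    (({n : ℕ | 2 ≤ n ∧ n ≤ T ∧ A n}.ncard : ℕ) : ℝ) ≤ C * (T : ℝ) ^ (1 - c)) : ∃ n, 2 ≤ n ∧ ¬ A n := by
  by_contra hne
  push Not at hne
  obtain ⟨n, hn, hA⟩ := Pool.Agent.Q189.Z3.exists_of_few (A := fun _ => True) hc (C := C) (c := c) fun T hT => by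
    refine (Nat.cast_le.2 ?_).trans (h T hT)
    exact Set.ncard_le_ncard (fun n hn => ⟨by have := hn.1; omega, hn.2.1, hne n (by have := hn.1; omega)⟩)
      ((Set.finite_Iic T).subset fun n hn => hn.2.1)
  exact hA trivial

theorem crit (hODE : S_ODE) (hSD : S_SD) (hAI : S_AI) (hGCH : S_GCH) (hGCX : S_GCX) (hQU : S_QU) (hINT : S_INT)
    (hGAM : S_GAM) {u v : Fin k → ℚ}
    (hpos : ∀ j, 0 < u j ∧ 0 < v j) (hz : ∀ j (z : ℤ), u j ≠ z ∧ v j ≠ z)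
    (hd : ∀ i j, i ≠ j → ¬ ((∃ z : ℤ, u i - u j = z) ∧ ∃ z : ℤ, v i - v j = z)) (m : Fin k → ℕ) {w : ℂ} (hw : w ≠ 0) :
    (Transcendental ℚ (w⁻¹ * ∏ j, ((inc (u j) (v j) 1 : ℝ) : ℂ) ^ m j) ↔ ∀ δ, ∃ n, 2 ≤ n ∧ Ind u v m w δ n) ∧
    (Transcendental ℚ (w⁻¹ * ∏ j, ((inc (u j) (v j) 1 : ℝ) : ℂ) ^ m j) ↔ ∀ δ, ∃ C c : ℝ, 0 < c ∧ ∀ T : ℕ, 1 ≤ T →
      (({n : ℕ | 2 ≤ n ∧ n ≤ T ∧ ¬ Ind u v m w δ n}.ncard : ℕ) : ℝ) ≤ C * (T : ℝ) ^ (1 - c)) := by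
  have h1 : Transcendental ℚ (w⁻¹ * ∏ j, ((inc (u j) (v j) 1 : ℝ) : ℂ) ^ m j) → ∀ δ, ∃ C c : ℝ, 0 < c ∧ ∀ T : ℕ, 1 ≤ T →
      (({n : ℕ | 2 ≤ n ∧ n ≤ T ∧ ¬ Ind u v m w δ n}.ncard : ℕ) : ℝ) ≤ C * (T : ℝ) ^ (1 - c) := by
    intro htr δ
    obtain ⟨C, c, hc, h⟩ := few hODE hSD hAI hGCH hGCX hQU hINT hGAM hpos hz hd m δ
    exact ⟨C, c, hc, h w hw htr⟩
  have h2 : (∀ δ, ∃ C c : ℝ, 0 < c ∧ ∀ T : ℕ, 1 ≤ T →
      (({n : ℕ | 2 ≤ n ∧ n ≤ T ∧ ¬ Ind u v m w δ n}.ncard : ℕ) : ℝ) ≤ C * (T : ℝ) ^ (1 - c)) → ∀ δ, ∃ n, 2 ≤ n ∧ Ind u v m w δ n := by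
    intro h δ
    obtain ⟨C, c, hc, h⟩ := h δ
    obtain ⟨n, hn, hA⟩ := exists_of_few hc h
    exact ⟨n, hn, not_not.1 hA⟩
  have h3 : (∀ δ, ∃ n, 2 ≤ n ∧ Ind u v m w δ n) → Transcendental ℚ (w⁻¹ * ∏ j, ((inc (u j) (v j) 1 : ℝ) : ℂ) ^ m j) := by
    intro h halg
    obtain ⟨δ, hδ⟩ := dep hGAM hpos m hw halg
    obtain ⟨n, hn, hI⟩ := h δ
    exact hδ n hn hI
  exact ⟨⟨fun h => h2 (h1 h), h3⟩, ⟨h1, fun h => h3 (h2 h)⟩⟩

end Pool.Agent.Q189.IB
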