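import Pool.Agent.Q189.IB.Cnn
import Pool.Agent.Q189.MF.TorD

/-!
# Near relations of the normalised incomplete beta integrals
-/

set_option autoImplicit false

open PowerSeries

namespace Pool.Agent.Q189.IB

open Pool.Agent.Y916.Af (Vc Free)
open Pool.Agent.Y916.Al (evc)
open Pool.Agent.Q189.MF

variable {k s g : ℕ}

/-- the values -/
noncomputable def hx (u v : Fin s → ℚ) (x : Fin k → ℂ) (a : Fin k × Fin s) : ℂ := evc (1 / x a.1) (hs (u a.2) (v a.2))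

/-- the variables -/
def em2 (k s : ℕ) (κ : Type) : (Fin k × Fin s) ⊕ κ → (Σ _ : Fin k, Option (Fin (s + 1))) ⊕ κ :=
  Sum.elim (fun a => Sum.inl ⟨a.1, some a.2.succ⟩) Sum.inr

lemma em2_inj {κ : Type} : Function.Injective (em2 k s κ) := by
  rintro (a | a) (b | b) h
  · have h1 : (⟨a.1, some a.2.succ⟩ : Σ _ : Fin k, Option (Fin (s + 1))) = ⟨b.1, some b.2.succ⟩ := Sum.inl_injective h
    rw [Sigma.mk.injEq] at h1
    obtain ⟨h2, h3⟩ := h1
    have h4 : some a.2.succ = some b.2.succ := eq_of_heq h3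
    have h5 : a.2 = b.2 := Fin.succ_injective _ (Option.some_injective _ h4)
    exact congrArg Sum.inl (Prod.ext h2 h5)
  · exact absurd h (by simp [em2])
  · exact absurd h (by simp [em2])
  · exact congrArg Sum.inr (Sum.inr_injective h)

lemma coeff_ren {V W : Type} {f : V → W} (hf : Function.Injective f) (P : MvPolynomial V ℤ) {H : ℝ} (hH0 : 0 ≤ H)
    (hH : ∀ m, |((P.coeff m : ℤ) : ℝ)| ≤ H) (e : W →₀ ℕ) : |(((MvPolynomial.rename f P).coeff e : ℤ) : ℝ)| ≤ H := by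
  by_cases h : ∃ m, Finsupp.mapDomain f m = e
  · obtain ⟨m, rfl⟩ := h
    rw [MvPolynomial.coeff_rename_mapDomain f hf]
    exact hH m
  · rw [MvPolynomial.coeff_rename_eq_zero f P e fun m hm => absurd ⟨m, hm⟩ h]
    simpa using hH0

/-- the point of the fibre -/
noncomputable def yy (y : Fin k × Fin s → ℂ) (a : Σ _ : Fin k, Option (Fin (s + 1))) : ℂ :=
  a.2.elim 0 fun i => (Fin.cons 1 (fun c => y (a.1, c)) : Fin (s + 1) → ℂ) i

lemma yy_norm (y : Fin k × Fin s → ℂ) : max 1 ‖yy y‖ ≤ max 1 ‖y‖ := by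
  refine max_le (le_max_left _ _) ((pi_norm_le_iff_of_nonneg (by positivity)).2 ?_)
  rintro ⟨j, o⟩
  rcases o with _ | i
  · show ‖(0 : ℂ)‖ ≤ _
    rw [norm_zero]
    positivity
  · refine Fin.cases ?_ (fun c => ?_) i
    · show ‖(1 : ℂ)‖ ≤ _
      rw [norm_one]
      exact le_max_left _ _
    · show ‖y (j, c)‖ ≤ _
      exact (norm_le_pi_norm y (j, c)).trans (le_max_right _ _)

lemma yy_em {κ : Type} (y : Fin k × Fin s → ℂ) (z : κ → ℂ) : Sum.elim (yy y) z ∘ em2 k s κ = Sum.elim y z := by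
  funext v
  rcases v with a | a
  · rfl
  · rfl

lemma pt_em {κ : Type} (u v : Fin s → ℚ) (x ℓ : Fin k → ℂ) (z : κ → ℂ) :
    Sum.elim (ptD (fun _ => fam u v) x ℓ) z ∘ em2 k s κ = Sum.elim (hx u v x) z := by
  funext w
  rcases w with a | a
  · rfl
  · rfl

theorem gd1 {u v : Fin s → ℚ} (hAI : AlgebraicIndependent (Polynomial ℚ) (fun j => hs (u j) (v j))) {d B : ℕ}
    {ζ : Fin g → ℂ} {x : Fin k → ℂ} {H : ℝ} (hH : 0 ≤ H) (hx0 : ∀ j, x j ≠ 0) (hlog : ∀ j, ‖Complex.log (x j)‖ ≤ H)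
    (hg : GdD (fun _ => fam u v) d B ζ x H) :
    (∀ N : MvPolynomial ((Fin k × Fin s) ⊕ Fin k) ℤ, N.totalDegree ≤ d → (∀ e, |((N.coeff e : ℤ) : ℝ)| ≤ H) →
      (∃ y : Fin k × Fin s → ℂ, MvPolynomial.aeval (Sum.elim y x) N ≠ 0) →
      1 ≤ H ^ B * ‖MvPolynomial.aeval (Sum.elim (hx u v x) x) N‖) ∧
    ∀ N : MvPolynomial ((Fin k × Fin s) ⊕ (Fin g ⊕ Fin k)) ℤ, N.totalDegree ≤ d → (∀ e, |((N.coeff e : ℤ) : ℝ)| ≤ H) →
      ∀ y : Fin k × Fin s → ℂ, ‖MvPolynomial.aeval (Sum.elim y (Sum.elim ζ x)) N‖ ≤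
        (H * max 1 ‖y‖) ^ B * ‖MvPolynomial.aeval (Sum.elim (hx u v x) (Sum.elim ζ x)) N‖ := by
  obtain ⟨g1, g2⟩ := hg (fun j => Complex.log (x j)) (fun j => Complex.exp_log (hx0 j)) hlog
  have hfib : ∀ y : Fin k × Fin s → ℂ, yy y ∈ FibD (fun _ : Fin k => fam u v) fun j => 1 / x j := by
    intro y j
    exact vc_fam hAI rfl _
  refine ⟨fun N hd hN hy => ?_, fun N hd hN y => ?_⟩
  · obtain ⟨y, hy⟩ := hy
    have h1 := g1 (MvPolynomial.rename (em2 k s (Fin k)) N) ((MvPolynomial.totalDegree_rename_le _ _).trans hd)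
      (coeff_ren em2_inj N hH hN) ⟨yy y, hfib y, by rw [MvPolynomial.aeval_rename, yy_em]; exact hy⟩
    rw [MvPolynomial.aeval_rename, pt_em] at h1
    exact h1
  · have h1 := g2 (MvPolynomial.rename (em2 k s (Fin g ⊕ Fin k)) N) ((MvPolynomial.totalDegree_rename_le _ _).trans hd)
      (coeff_ren em2_inj N hH hN) (yy y) (hfib y)
    rw [MvPolynomial.aeval_rename, MvPolynomial.aeval_rename, yy_em, pt_em] at h1
    refine h1.trans (mul_le_mul_of_nonneg_right ?_ (norm_nonneg _))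
    exact pow_le_pow_left₀ (by positivity) (mul_le_mul_of_nonneg_left (yy_norm y) hH) _

end Pool.Agent.Q189.IB
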