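import Pool.Agent.Q189.IB.Stm
import Pool.Agent.Y119.HY.GP

/-!
# G-systems from Galochkin's condition
-/

set_option autoImplicit false

open PowerSeries

namespace Pool.Agent.Q189.IB

open Pool.Agent.Y113 Pool.Agent.Y113.HGG
open Pool.Agent.Y124.GE (GC exists_bd)

theorem gsys_gc {n q : ℕ} {T : Polynomial ℤ} {A : Fin n → Fin n → Polynomial ℤ} (hG : GC q T (fun a b => A b a))
    {f : Fin n → ℚ⟦X⟧} (hode : ∀ i, ps T * d⁄dX ℚ (f i) = ∑ j, ps (A i j) * f j) (hS : ∀ i, SDc (f i)) :
    ∃ (N : ℕ) (C : ℝ), GSys N C T f := by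
  obtain ⟨M, hM, hG⟩ := hG
  obtain ⟨C₁, hC₁, hs, hdn⟩ := Pool.Agent.Y119.HY.SDc.unif hS
  obtain ⟨m, hm⟩ := exists_bd T
  set C : ℝ := max (max M C₁) (2 ^ m) with hC
  have hMC : M * M ≤ C * C := mul_le_mul ((le_max_left _ _).trans (le_max_left _ _)) ((le_max_left _ _).trans (le_max_left _ _))
    (by linarith) (by rw [hC]; positivity)
  have h1C : 1 ≤ C := hM.trans ((le_max_left _ _).trans (le_max_left _ _))
  have hCC : C ≤ C * C := le_mul_of_one_le_left (by linarith) h1C
  have hC₁C : C₁ ≤ C * C := ((le_max_right _ _).trans (le_max_left _ _)).trans hCC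
  have hMCC : M ≤ C * C := ((le_max_left _ _).trans (le_max_left _ _)).trans hCC
  refine ⟨max q T.natDegree, C * C, one_le_mul_of_one_le_of_one_le h1C h1C, le_max_right _ _, fun l => (hm l).trans
    ((le_max_right _ _).trans hCC), fun i k => (hs i k).trans (pow_le_pow_left₀ (by linarith) hC₁C _), fun k => ?_,
    fun k => ?_⟩
  · obtain ⟨d, hd0, hdC, hd'⟩ := hdn k
    exact ⟨d, hd0, hdC.trans (pow_le_pow_left₀ (by linarith) hC₁C _), hd'⟩
  · obtain ⟨g, hg0, hg, hgs⟩ := hG k
    refine ⟨g, hg0, hg.trans (pow_le_pow_left₀ (by linarith) hMCC _), fun s hsk => ?_⟩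
    have hIP : ∀ a b, IP g (ah T (fun a b => A b a) s a b) := fun a b => (hgs s hsk a b).1
    choose G hG1 hG2 hG3 using fun i j => (hIP i j).lift (hgs s hsk i j).2
    refine ⟨G, fun i j => (hG2 i j).trans (Nat.mul_le_mul_right _ (le_max_left _ _)), fun i j l => ?_, fun i => ?_⟩
    · refine (hG3 i j l).trans ?_
      rw [mul_pow]
      refine mul_le_mul (hg.trans (pow_le_pow_left₀ (by linarith) ((le_max_left _ _).trans (le_max_left _ _)) _))
        (pow_le_pow_left₀ (by linarith) ((le_max_left _ _).trans (le_max_left _ _)) _) (by positivity) (by positivity)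
    · have h1 := hd_row (T := T) (A := fun a b => A b a) (y := fun _ j => f j) (fun _ j => by
        rw [hode j]
        exact Finset.sum_congr rfl fun k _ => mul_comm _ _) s i i
      have h1' : ps T ^ s * hd s (f i) = ∑ k, ((ah T (fun a b => A b a) s i k : Polynomial ℚ) : ℚ⟦X⟧) * f k := h1
      rw [h1', Finset.mul_sum]
      refine Finset.sum_congr rfl fun k _ => ?_
      have h2 := hG1 i k
      rw [← mul_assoc]
      congr 1
      show _ = (((G i k).map (Int.castRingHom ℚ) : Polynomial ℚ) : ℚ⟦X⟧)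
      rw [h2, Polynomial.coe_mul, Polynomial.coe_C, map_natCast]

end Pool.Agent.Q189.IB
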