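import Pool.Agent.Q189.IB.Stm5
import Pool.Agent.Q189.JM.Clr

/-!
# Products of conjugate polynomials and one factor
-/

set_option autoImplicit false

namespace Pool.Agent.Q189.IB

variable {ι Λ : Type} [Fintype ι] [DecidableEq ι] [Fintype Λ] [DecidableEq Λ]

/-- the polynomial with the coefficients `p` -/
noncomputable def pl {d : ℕ} (p : (ι → Fin (d + 1)) → ℂ) (z : ι → ℂ) : ℂ := ∑ e : ι → Fin (d + 1), p e * ∏ i, z i ^ (e i : ℕ)

lemma pl_norm {d : ℕ} (p : (ι → Fin (d + 1)) → ℂ) (z : ι → ℂ) {X : ℝ} (hX : 1 ≤ X) (hz : ‖z‖ ≤ X) :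
    ‖pl p z‖ ≤ ((d : ℝ) + 1) ^ Fintype.card ι * (‖p‖ * X ^ (d * Fintype.card ι)) := by
  unfold pl
  refine (norm_sum_le _ _).trans ?_
  calc _ ≤ ∑ _e : ι → Fin (d + 1), ‖p‖ * X ^ (d * Fintype.card ι) := by
        refine Finset.sum_le_sum fun e _ => ?_
        rw [norm_mul, norm_prod]
        refine mul_le_mul (norm_le_pi_norm p e) ?_ (Finset.prod_nonneg fun _ _ => norm_nonneg _) (norm_nonneg _)
        rw [pow_mul, ← Finset.card_univ, ← Finset.prod_const]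
        refine Finset.prod_le_prod (fun _ _ => norm_nonneg _) fun i _ => ?_
        rw [norm_pow]
        have h1 : ‖z i‖ ≤ X := (norm_le_pi_norm z i).trans hz
        have h2 : (e i : ℕ) ≤ d := by have := (e i).2; omega
        exact (pow_le_pow_left₀ (norm_nonneg _) h1 _).trans (pow_le_pow_right₀ hX h2)
    _ = _ := by
        rw [Finset.sum_const, Finset.card_univ, nsmul_eq_mul, Fintype.card_pi, Finset.prod_const, Fintype.card_fin,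
          Finset.card_univ]
        push_cast
        ring

lemma pl_scale {d : ℕ} (p : (ι → Fin (d + 1)) → ℂ) (χ z : ι → ℂ) :
    pl p (fun i => χ i * z i) = pl (fun e => p e * ∏ i, χ i ^ (e i : ℕ)) z := by
  unfold pl
  refine Finset.sum_congr rfl fun e _ => ?_
  rw [mul_assoc, ← Finset.prod_mul_distrib]
  congr 1
  exact Finset.prod_congr rfl fun i _ => mul_pow _ _ _

section
variable {d : ℕ} (p : (ι → Fin (d + 1)) → ℂ) (χ : Λ → ι → ℂ) (θ : ι → ℂ)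

/-- the coefficients of the conjugate polynomials -/
noncomputable def cf' (l : Λ) (e : ι → Fin (d + 1)) : ℂ := p e * ∏ i, (χ l i * θ i) ^ (e i : ℕ)

lemma pl_cf' (l : Λ) (z : ι → ℂ) : pl (cf' p χ θ l) z = pl p (fun i => χ l i * (θ i * z i)) := by
  have h1 : (fun i => χ l i * (θ i * z i)) = fun i => (fun i => χ l i * θ i) i * z i := by
    funext i
    exact (mul_assoc _ _ _).symm
  rw [h1, pl_scale]
  rfl

lemma norm_cf' (hχ : ∀ l i, ‖χ l i‖ = 1) (l : Λ) (e : ι → Fin (d + 1)) : ‖cf' p χ θ l e‖ = ‖p e‖ * ∏ i, ‖θ i‖ ^ (e i : ℕ) := by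
  unfold cf'
  rw [norm_mul, norm_prod]
  congr 1
  refine Finset.prod_congr rfl fun i _ => ?_
  rw [norm_pow, norm_mul, hχ, one_mul]

lemma norm_cf'_eq (hχ : ∀ l i, ‖χ l i‖ = 1) (l l' : Λ) : ‖cf' p χ θ l‖ = ‖cf' p χ θ l'‖ := by
  have h : ∀ l l', ‖cf' p χ θ l‖ ≤ ‖cf' p χ θ l'‖ := by
    intro l l'
    refine (pi_norm_le_iff_of_nonneg (norm_nonneg _)).2 fun e => ?_
    rw [norm_cf' p χ θ hχ, ← norm_cf' p χ θ hχ l' e]
    exact norm_le_pi_norm (cf' p χ θ l') e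
  exact le_antisymm (h _ _) (h _ _)

lemma norm_p_le (hχ : ∀ l i, ‖χ l i‖ = 1) (hθ : ∀ i, θ i ≠ 0) (l : Λ) {M : ℝ} (hM : ∀ e : ι → Fin (d + 1), ∏ i, ‖θ i‖⁻¹ ^ (e i : ℕ) ≤ M)
    (hM0 : 0 ≤ M) : ‖p‖ ≤ ‖cf' p χ θ l‖ * M := by
  refine (pi_norm_le_iff_of_nonneg (mul_nonneg (norm_nonneg _) hM0)).2 fun e => ?_
  have h1 : ‖p e‖ = ‖cf' p χ θ l e‖ * ∏ i, ‖θ i‖⁻¹ ^ (e i : ℕ) := by
    rw [norm_cf' p χ θ hχ, mul_assoc, ← Finset.prod_mul_distrib, Finset.prod_eq_one, mul_one]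
    intro i _
    rw [← mul_pow, mul_inv_cancel₀ (norm_ne_zero_iff.2 (hθ i)), one_pow]
  rw [h1]
  exact mul_le_mul (norm_le_pi_norm _ e) (hM e) (Finset.prod_nonneg fun i _ => by positivity) (norm_nonneg _)

lemma prod_le (hχ : ∀ l i, ‖χ l i‖ = 1) {l₀ : Λ} (h₀ : χ l₀ = 1) (h : ι → ℂ) {M : ℝ} (hM : 1 ≤ M) (hh : ‖h‖ ≤ M) :
    ∏ l, ‖pl p (fun i => χ l i * (θ i * h i))‖ ≤ ‖pl p (fun i => θ i * h i)‖ *
      (((d : ℝ) + 1) ^ Fintype.card ι * (‖cf' p χ θ l₀‖ * M ^ (d * Fintype.card ι))) ^ (Fintype.card Λ - 1) := by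
  rw [← Finset.mul_prod_erase _ _ (Finset.mem_univ l₀)]
  have h1 : (fun i => χ l₀ i * (θ i * h i)) = fun i => θ i * h i := by
    funext i
    rw [h₀, Pi.one_apply, one_mul]
  rw [h1]
  refine mul_le_mul_of_nonneg_left ?_ (norm_nonneg _)
  have h2 : Fintype.card Λ - 1 = (Finset.univ.erase l₀).card := by
    rw [Finset.card_erase_of_mem (Finset.mem_univ _), Finset.card_univ]
  rw [h2, ← Finset.prod_const]
  refine Finset.prod_le_prod (fun _ _ => norm_nonneg _) fun l _ => ?_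
  rw [← pl_cf', norm_cf'_eq p χ θ hχ l₀ l]
  exact pl_norm _ _ hM hh

end

theorem ineq (hMIN : S_MIN) (ι Λ : Type) [Fintype ι] [DecidableEq ι] [Fintype Λ] [DecidableEq Λ] (d : ℕ) : ∃ A : ℝ, 1 ≤ A ∧
    ∀ (p : (ι → Fin (d + 1)) → ℂ) (χ : Λ → ι → ℂ) (l₀ : Λ) (θ h : ι → ℂ) (Q M : ℝ), (∀ l i, ‖χ l i‖ = 1) → χ l₀ = 1 →
      (∀ i, θ i ≠ 0) → 0 ≤ Q → 1 ≤ M → (∀ e : ι → Fin (d + 1), ∏ i, ‖θ i‖⁻¹ ^ (e i : ℕ) ≤ M) → ‖h‖ ≤ M →
      (∀ y : ι → Fin (Fintype.card Λ * d + 1), ∏ l, ‖pl p (fun i => χ l i * (θ i * ((y i : ℕ) : ℂ)))‖ ≤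
        Q * ∏ l, ‖pl p (fun i => χ l i * (θ i * h i))‖) →
      ∀ w : ι → ℂ, ‖pl p w‖ ≤ A * Q * M ^ (1 + d * Fintype.card ι * (Fintype.card Λ - 1)) *
        max 1 ‖w‖ ^ (d * Fintype.card ι) * ‖pl p (fun i => θ i * h i)‖ := by
  obtain ⟨c, hc, hmin⟩ := hMIN ι Λ d
  set K : ℝ := ((d : ℝ) + 1) ^ Fintype.card ι with hK
  have hK0 : 0 < K := by positivity
  refine ⟨max 1 (c⁻¹ * K ^ (Fintype.card Λ)), le_max_left _ _, fun p χ l₀ θ h Q M hχ h₀ hθ hQ hM hMθ hh hy w => ?_⟩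
  haveI : Nonempty Λ := ⟨l₀⟩
  have hM0 : (0 : ℝ) < M := by linarith
  set f : ℝ := ‖cf' p χ θ l₀‖ with hf
  set n := Fintype.card ι with hn
  set L := Fintype.card Λ with hL
  have hL1 : 1 ≤ L := Fintype.card_pos
  set F₀ := ‖pl p (fun i => θ i * h i)‖ with hF₀
  have hF₀0 : 0 ≤ F₀ := norm_nonneg _
  have hW : 1 ≤ max 1 ‖w‖ := le_max_left _ _
  have hp := norm_p_le p χ θ hχ hθ l₀ hMθ hM0.le
  rw [← hf] at hp
  have hpw := pl_norm p w hW (le_max_right 1 ‖w‖)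
  rw [← hK, ← hn] at hpw
  rcases eq_or_lt_of_le (norm_nonneg (cf' p χ θ l₀)) with hf0 | hf0
  · have h1 : ‖p‖ ≤ 0 := by
      rw [← hf] at hf0
      rw [← hf0, zero_mul] at hp
      exact hp
    have h2 : ‖p‖ = 0 := le_antisymm h1 (norm_nonneg _)
    rw [h2, zero_mul, mul_zero] at hpw
    exact hpw.trans (by positivity)
  · rw [← hf] at hf0
    obtain ⟨y, hy1⟩ := hmin (cf' p χ θ)
    have h1 : ∏ l, ‖cf' p χ θ l‖ = f ^ L := by
      rw [Finset.prod_congr rfl fun l _ => norm_cf'_eq p χ θ hχ l l₀, Finset.prod_const, Finset.card_univ]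
    have h2 : ∀ l, ∑ e : ι → Fin (d + 1), cf' p χ θ l e * ∏ i, ((y i : ℕ) : ℂ) ^ (e i : ℕ) =
        pl p (fun i => χ l i * (θ i * ((y i : ℕ) : ℂ))) := fun l => pl_cf' p χ θ l fun i => ((y i : ℕ) : ℂ)
    simp only [h2] at hy1
    rw [h1] at hy1
    have h3 := hy1.trans ((hy y).trans (mul_le_mul_of_nonneg_left (prod_le p χ θ hχ h₀ h hM hh) hQ))
    rw [← hF₀, ← hK, ← hf, ← hn, ← hL] at h3
    -- c f ≤ Q F₀ (K M^(dn))^(L-1)
    have h4 : c * f ≤ Q * F₀ * (K * M ^ (d * n)) ^ (L - 1) := by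
      have h5 : f ^ L = f * f ^ (L - 1) := by
        rw [← pow_succ', Nat.sub_add_cancel hL1]
      have h6 : (K * (f * M ^ (d * n))) ^ (L - 1) = (K * M ^ (d * n)) ^ (L - 1) * f ^ (L - 1) := by
        rw [← mul_pow]
        congr 1
        ring
      rw [h5, h6] at h3
      have h7 : 0 < f ^ (L - 1) := by positivity
      have h8 : c * f * f ^ (L - 1) ≤ Q * F₀ * (K * M ^ (d * n)) ^ (L - 1) * f ^ (L - 1) := by
        calc c * f * f ^ (L - 1) = c * (f * f ^ (L - 1)) := by ring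
          _ ≤ _ := h3
          _ = _ := by ring
      exact le_of_mul_le_mul_right h8 h7
    have h5 : f ≤ c⁻¹ * (Q * F₀ * (K * M ^ (d * n)) ^ (L - 1)) := by
      rw [← div_eq_inv_mul, le_div_iff₀ hc, mul_comm]
      exact h4
    calc ‖pl p w‖ ≤ K * (‖p‖ * max 1 ‖w‖ ^ (d * n)) := hpw
      _ ≤ K * ((c⁻¹ * (Q * F₀ * (K * M ^ (d * n)) ^ (L - 1)) * M) * max 1 ‖w‖ ^ (d * n)) := by
          refine mul_le_mul_of_nonneg_left ?_ hK0.le
          refine mul_le_mul_of_nonneg_right (hp.trans ?_) (by positivity)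
          exact mul_le_mul_of_nonneg_right h5 hM0.le
      _ = (c⁻¹ * K ^ L) * Q * M ^ (1 + d * n * (L - 1)) * max 1 ‖w‖ ^ (d * n) * F₀ := by
          have e1 : K ^ L = K * K ^ (L - 1) := by rw [← pow_succ', Nat.sub_add_cancel hL1]
          rw [e1, mul_pow, ← pow_mul, pow_add, pow_one]
          ring
      _ ≤ _ := by
          refine mul_le_mul_of_nonneg_right ?_ hF₀0
          refine mul_le_mul_of_nonneg_right ?_ (by positivity)
          refine mul_le_mul_of_nonneg_right ?_ (by positivity)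
          exact mul_le_mul_of_nonneg_right (le_max_right _ _) hQ

theorem ineq2 (hMIN : S_MIN) (ι Λ : Type) [Fintype ι] [DecidableEq ι] [Fintype Λ] [DecidableEq Λ] (d : ℕ)
    (p : (ι → Fin (d + 1)) → ℂ) (χ : Λ → ι → ℂ) (l₀ : Λ) (θ h : ι → ℂ) (Q M F : ℝ) (hχ : ∀ l i, ‖χ l i‖ = 1) (h₀ : χ l₀ = 1)
    (hθ : ∀ i, θ i ≠ 0) (hθ1 : ∀ i, ‖θ i‖ ≤ 1) (hQ : 0 ≤ Q) (hM : 1 ≤ M) (hh : ‖h‖ ≤ M) (hp0 : ∃ w, pl p w ≠ 0) (hF : ‖p‖ ≤ F)
    (hy : ∀ y : ι → Fin (Fintype.card Λ * d + 1), ∏ l, ‖pl p (fun i => χ l i * (θ i * ((y i : ℕ) : ℂ)))‖ ≠ 0 →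
        1 ≤ Q * ∏ l, ‖pl p (fun i => χ l i * (θ i * h i))‖) :
    1 ≤ Q * (((d : ℝ) + 1) ^ Fintype.card ι * (F * M ^ (d * Fintype.card ι))) ^ (Fintype.card Λ - 1) *
      ‖pl p (fun i => θ i * h i)‖ := by
  obtain ⟨c, hc, hmin⟩ := hMIN ι Λ d
  obtain ⟨y, hy1⟩ := hmin (cf' p χ θ)
  have hf : 0 < ‖cf' p χ θ l₀‖ := by
    rw [norm_pos_iff]
    intro h0
    obtain ⟨w, hw⟩ := hp0
    apply hw
    have h1 : p = 0 := by
      funext e
      have h2 := norm_cf' p χ θ hχ l₀ e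
      rw [h0] at h2
      have h3 : ∏ i, ‖θ i‖ ^ (e i : ℕ) ≠ 0 := Finset.prod_ne_zero_iff.2 fun i _ => pow_ne_zero _ (norm_ne_zero_iff.2 (hθ i))
      rw [Pi.zero_apply, norm_zero] at h2
      have h4 := (mul_eq_zero.1 h2.symm).resolve_right h3
      rw [norm_eq_zero] at h4
      exact h4
    rw [h1]
    unfold pl
    exact Finset.sum_eq_zero fun e _ => by simp
  have h1 : ∏ l, ‖cf' p χ θ l‖ = ‖cf' p χ θ l₀‖ ^ Fintype.card Λ := by
    rw [Finset.prod_congr rfl fun l _ => norm_cf'_eq p χ θ hχ l l₀, Finset.prod_const, Finset.card_univ]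
  have h2 : ∀ l, ∑ e : ι → Fin (d + 1), cf' p χ θ l e * ∏ i, ((y i : ℕ) : ℂ) ^ (e i : ℕ) =
      pl p (fun i => χ l i * (θ i * ((y i : ℕ) : ℂ))) := fun l => pl_cf' p χ θ l fun i => ((y i : ℕ) : ℂ)
  simp only [h2] at hy1
  rw [h1] at hy1
  have h3 : 0 < ∏ l, ‖pl p (fun i => χ l i * (θ i * ((y i : ℕ) : ℂ)))‖ := lt_of_lt_of_le (by positivity) hy1
  have h4 := hy y h3.ne'
  have hfF : ‖cf' p χ θ l₀‖ ≤ F := by
    refine (pi_norm_le_iff_of_nonneg ((norm_nonneg _).trans hF)).2 fun e => ?_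
    rw [norm_cf' p χ θ hχ]
    calc ‖p e‖ * ∏ i, ‖θ i‖ ^ (e i : ℕ) ≤ ‖p e‖ * 1 := by
          refine mul_le_mul_of_nonneg_left ?_ (norm_nonneg _)
          exact Finset.prod_le_one (fun i _ => by positivity) fun i _ => pow_le_one₀ (norm_nonneg _) (hθ1 i)
      _ = ‖p e‖ := mul_one _
      _ ≤ F := (norm_le_pi_norm p e).trans hF
  have hM0 : (0 : ℝ) < M := by linarith
  calc (1 : ℝ) ≤ Q * ∏ l, ‖pl p (fun i => χ l i * (θ i * h i))‖ := h4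
    _ ≤ Q * (‖pl p (fun i => θ i * h i)‖ *
        (((d : ℝ) + 1) ^ Fintype.card ι * (‖cf' p χ θ l₀‖ * M ^ (d * Fintype.card ι))) ^ (Fintype.card Λ - 1)) :=
        mul_le_mul_of_nonneg_left (prod_le p χ θ hχ h₀ h hM hh) hQ
    _ ≤ Q * (‖pl p (fun i => θ i * h i)‖ *
        (((d : ℝ) + 1) ^ Fintype.card ι * (F * M ^ (d * Fintype.card ι))) ^ (Fintype.card Λ - 1)) := by
        refine mul_le_mul_of_nonneg_left (mul_le_mul_of_nonneg_left ?_ (norm_nonneg _)) hQ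
        refine pow_le_pow_left₀ (by positivity) ?_ _
        refine mul_le_mul_of_nonneg_left ?_ (by positivity)
        exact mul_le_mul_of_nonneg_right hfF (by positivity)
    _ = _ := by ring

end Pool.Agent.Q189.IB
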