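import Pool.Agent.Q189.IB.Stm3

/-!
# Incomplete beta integrals: statement of a lemma job (shift of the Gamma function)
-/

set_option autoImplicit false

namespace Pool.Agent.Q189.IB

/-- JOB SHIFT. If `a` is a rational number, not in `{0, -1, -2, ...}`, then `Γ(a)` is a nonzero rational multiple of `Γ(a')`,
`a' = a - ⌈a⌉ + 1 ∈ (0, 1]`. Proof: `Γ(x + 1) = x Γ(x)` for `x ≠ 0`, induction on `|⌈a⌉ - 1|` (two directions). -/
def S_SHIFT : Prop := ∀ a : ℚ, (∀ n : ℕ, a ≠ -(n : ℚ)) → ∃ q : ℚ, q ≠ 0 ∧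
  Real.Gamma (a : ℝ) = q * Real.Gamma ((a - ⌈a⌉ + 1 : ℚ) : ℝ)

end Pool.Agent.Q189.IB
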