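import Pool.Agent.Q189.IB.Fin
import Pool.Agent.Q189.IB.Stm4

/-!
# The criterion for products of values of the Gamma function
-/

set_option autoImplicit false

open PowerSeries Module

namespace Pool.Agent.Q189.IB

variable {k s : ℕ}

lemma Enum.uI {a : Fin (k + 1) → ℚ} {u v : Fin s → ℚ} {m : Fin s → ℕ} (h : Enum a u v m) (c : Fin s) :
    (0 < u c ∧ u c < 1) ∧ (0 < v c ∧ v c < 1) := by
  obtain ⟨j, hj1, hj2⟩ := h.mem c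
  obtain ⟨h1, h2⟩ := h.ne c
  refine ⟨⟨lt_of_le_of_ne ?_ (Ne.symm h1), ?_⟩, ⟨lt_of_le_of_ne ?_ (Ne.symm h2), ?_⟩⟩
  · rw [← hj1]; exact Int.fract_nonneg _
  · rw [← hj1]; exact Int.fract_lt_one _
  · rw [← hj2]; exact Int.fract_nonneg _
  · rw [← hj2]; exact Int.fract_lt_one _

lemma not_int {x : ℚ} (h0 : 0 < x) (h1 : x < 1) (z : ℤ) : x ≠ z := by
  rintro rfl
  have h2 : 0 < z := by exact_mod_cast h0
  have h3 : z < 1 := by exact_mod_cast h1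
  omega

lemma sub_int {x y : ℚ} (hx : 0 < x ∧ x < 1) (hy : 0 < y ∧ y < 1) {z : ℤ} (h : x - y = z) : x = y := by
  have h2 : (z : ℚ) < 1 := by rw [← h]; linarith [hx.2, hy.1]
  have h3 : (-1 : ℚ) < z := by rw [← h]; linarith [hx.1, hy.2]
  have h4 : z < 1 := by exact_mod_cast h2
  have h5 : -1 < z := by exact_mod_cast h3
  have h6 : z = 0 := by omega
  rw [h6, Int.cast_zero] at h
  linarith

/-- the representative modulo `1` in `(0, 1]` -/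
def rp (a : ℚ) : ℚ := a - ⌈a⌉ + 1

lemma rp_pos (a : ℚ) : 0 < rp a := by
  unfold rp
  have := Int.ceil_lt_add_one a
  linarith

/-- the product is an algebraic multiple of `π^(r/2)`, `r = k + 1` -/
def AM (a : Fin (k + 1) → ℚ) : Prop :=
  ∃ α : ℝ, IsAlgebraic ℚ α ∧ ∏ j, Real.Gamma (a j : ℝ) = α * Real.pi ^ (((k + 1 : ℕ) : ℝ) / 2)

/-- `π^(r/2) / Γ(∑ a'_j)` -/
noncomputable def ww (a : Fin (k + 1) → ℚ) : ℝ :=
  Real.pi ^ (((k + 1 : ℕ) : ℝ) / 2) / Real.Gamma ((∑ j, rp (a j) : ℚ) : ℝ)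

lemma ww_pos (a : Fin (k + 1) → ℚ) : 0 < ww a := by
  unfold ww
  have h1 : (0 : ℚ) < ∑ j, rp (a j) := Finset.sum_pos (fun j _ => rp_pos _) ⟨0, Finset.mem_univ _⟩
  exact div_pos (Real.rpow_pos_of_pos Real.pi_pos _) (Real.Gamma_pos_of_pos (by exact_mod_cast h1))

lemma am_iff (hPROD : S_PROD) (hSHIFT : S_SHIFT) {a : Fin (k + 1) → ℚ} (ha : ∀ j (n : ℕ), a j ≠ -(n : ℚ)) {u v : Fin s → ℚ}
    {m : Fin s → ℕ} (hE : Enum (fun j => rp (a j)) u v m) :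
    AM a ↔ IsAlgebraic ℚ (((ww a : ℝ) : ℂ)⁻¹ * ∏ c, ((inc (u c) (v c) 1 : ℝ) : ℂ) ^ m c) := by
  choose q hq0 hq using fun j => hSHIFT (a j) (ha j)
  obtain ⟨Q, hQ0, hQ⟩ := hPROD k (fun j => rp (a j)) (fun j => rp_pos _) s u v m hE
  have hπ : Real.pi ^ (((k + 1 : ℕ) : ℝ) / 2) ≠ 0 := (Real.rpow_pos_of_pos Real.pi_pos _).ne'
  have hΓ : Real.Gamma ((∑ j, rp (a j) : ℚ) : ℝ) ≠ 0 := by
    intro h0
    have := ww_pos a
    unfold ww at this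
    rw [h0, div_zero] at this
    exact lt_irrefl _ this
  set W : ℝ := (ww a)⁻¹ * ∏ c, inc (u c) (v c) 1 ^ m c with hW
  set R : ℚ := (∏ j, q j) * Q with hR
  have hR0 : R ≠ 0 := mul_ne_zero (Finset.prod_ne_zero_iff.2 fun j _ => hq0 j) hQ0.ne'
  have hprod : ∏ j, Real.Gamma (a j : ℝ) = (R : ℝ) * W * Real.pi ^ (((k + 1 : ℕ) : ℝ) / 2) := by
    have h1 : ∏ j, Real.Gamma (a j : ℝ) = (∏ j, (q j : ℝ)) * ∏ j, Real.Gamma ((rp (a j) : ℚ) : ℝ) := by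
      rw [← Finset.prod_mul_distrib]
      exact Finset.prod_congr rfl fun j _ => hq j
    rw [h1, hQ, hR, hW]
    unfold ww
    push_cast
    push_cast at hΓ
    field_simp
  have hcast : (((ww a : ℝ) : ℂ)⁻¹ * ∏ c, ((inc (u c) (v c) 1 : ℝ) : ℂ) ^ m c) = ((W : ℝ) : ℂ) := by
    rw [hW]
    push_cast
    rfl
  rw [hcast]
  have h2 : IsAlgebraic ℚ ((W : ℝ) : ℂ) ↔ IsAlgebraic ℚ W :=
    isAlgebraic_algebraMap_iff (R := ℚ) (S := ℝ) (A := ℂ) (algebraMap ℝ ℂ).injective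
  rw [h2]
  have hRa : IsAlgebraic ℚ ((R : ℚ) : ℝ) := isAlgebraic_algebraMap R
  constructor
  · rintro ⟨α, hα, h⟩
    have h3 : W = ((R : ℚ) : ℝ)⁻¹ * α := by
      have h4 : (R : ℝ) * W = α := mul_right_cancel₀ hπ (hprod.symm.trans h)
      rw [← h4]
      have : (R : ℝ) ≠ 0 := by exact_mod_cast hR0
      field_simp
    rw [h3]
    exact hRa.inv.mul hα
  · intro h
    exact ⟨(R : ℝ) * W, hRa.mul h, hprod⟩

theorem rohr (hODE : S_ODE) (hSD : S_SD) (hAI : S_AI) (hGCH : S_GCH) (hGCX : S_GCX) (hQU : S_QU) (hINT : S_INT)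
    (hGAM : S_GAM) (hPROD : S_PROD) (hSHIFT : S_SHIFT) {a : Fin (k + 1) → ℚ} (ha : ∀ j (n : ℕ), a j ≠ -(n : ℚ))
    {u v : Fin s → ℚ} {m : Fin s → ℕ} (hE : Enum (fun j => rp (a j)) u v m) :
    (¬ AM a ↔ ∀ δ, ∃ n, 2 ≤ n ∧ Ind u v m (ww a : ℝ) δ n) ∧
    (¬ AM a ↔ ∀ δ, ∃ C c : ℝ, 0 < c ∧ ∀ T : ℕ, 1 ≤ T →
      (({n : ℕ | 2 ≤ n ∧ n ≤ T ∧ ¬ Ind u v m (ww a : ℝ) δ n}.ncard : ℕ) : ℝ) ≤ C * (T : ℝ) ^ (1 - c)) := by
  rw [am_iff hPROD hSHIFT ha hE]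
  exact crit hODE hSD hAI hGCH hGCX hQU hINT hGAM (fun c => ⟨(hE.uI c).1.1, (hE.uI c).2.1⟩)
    (fun c z => ⟨not_int (hE.uI c).1.1 (hE.uI c).1.2 z, not_int (hE.uI c).2.1 (hE.uI c).2.2 z⟩)
    (fun i j hij => fun ⟨⟨z, hz⟩, ⟨z', hz'⟩⟩ => hij (hE.inj i j (sub_int (hE.uI i).1 (hE.uI j).1 hz)
      (sub_int (hE.uI i).2 (hE.uI j).2 hz'))) m (by
        rw [Complex.ofReal_ne_zero]
        exact (ww_pos a).ne')

end Pool.Agent.Q189.IB
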