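import Pool.Agent.Q189.IB.Ineq
import Pool.Agent.Q246.NR2.Shift
import Pool.Agent.Q189.JM.Fin

/-!
# The integral polynomial which takes the value of the product of the conjugates
-/

set_option autoImplicit false

open Pool.Agent.Q246.NR Pool.Agent.Q246.NR2
open Pool.Agent.Q189.JM (clz clz_eval clz_deg clz_len)

namespace Pool.Agent.Q189.IB

lemma deg_aev {V W : Type} (S : V → MvPolynomial W ℤ) {E : ℕ} (hS : ∀ v, (S v).totalDegree ≤ E) (P : MvPolynomial V ℤ)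
    {d : ℕ} (hP : P.totalDegree ≤ d) : (MvPolynomial.aeval S P).totalDegree ≤ d * E := by
  rw [MvPolynomial.aeval_def, MvPolynomial.eval₂_eq]
  refine MvPolynomial.totalDegree_finsetSum_le fun m hm => ?_
  refine (MvPolynomial.totalDegree_mul _ _).trans ?_
  have h1 : ((algebraMap ℤ (MvPolynomial W ℤ)) (P.coeff m)).totalDegree = 0 := MvPolynomial.totalDegree_C _
  rw [h1, zero_add]
  refine (MvPolynomial.totalDegree_finsetProd _ _).trans ?_
  refine (Finset.sum_le_sum fun i _ => (MvPolynomial.totalDegree_pow _ _).trans (Nat.mul_le_mul_left _ (hS i))).trans ?_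
  rw [← Finset.sum_mul]
  exact Nat.mul_le_mul_right _ ((MvPolynomial.le_totalDegree hm).trans hP)

section
variable {k s : ℕ} {κ : Type} [Fintype κ] [DecidableEq κ] (p q : Fin s → ℕ)

/-- the substitution -/
noncomputable def UU : (Fin k × Fin s) ⊕ κ → MvPolynomial ((Fin k × Fin 2) ⊕ ((Fin k × Fin s) ⊕ κ)) ℤ :=
  Sum.elim (fun a => MvPolynomial.X (Sum.inl (a.1, 0)) ^ p a.2 * MvPolynomial.X (Sum.inl (a.1, 1)) ^ q a.2 *
    MvPolynomial.X (Sum.inr (Sum.inl a))) fun a => MvPolynomial.X (Sum.inr (Sum.inr a))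

lemma UU_deg (v : (Fin k × Fin s) ⊕ κ) : (UU (k := k) (κ := κ) p q v).totalDegree ≤ ∑ c, (p c + q c) + 1 := by
  rcases v with a | a
  · show (MvPolynomial.X (Sum.inl (a.1, 0)) ^ p a.2 * MvPolynomial.X (Sum.inl (a.1, 1)) ^ q a.2 *
      MvPolynomial.X (Sum.inr (Sum.inl a)) : MvPolynomial ((Fin k × Fin 2) ⊕ ((Fin k × Fin s) ⊕ κ)) ℤ).totalDegree ≤ _
    refine (MvPolynomial.totalDegree_mul _ _).trans (Nat.add_le_add ?_ (MvPolynomial.totalDegree_X _).le)
    refine (MvPolynomial.totalDegree_mul _ _).trans ?_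
    have h1 : p a.2 + q a.2 ≤ ∑ c, (p c + q c) := Finset.single_le_sum (f := fun c => p c + q c) (fun _ _ => Nat.zero_le _)
      (Finset.mem_univ a.2)
    refine le_trans (Nat.add_le_add ?_ ?_) h1
    · refine (MvPolynomial.totalDegree_pow _ _).trans ?_
      rw [MvPolynomial.totalDegree_X, mul_one]
    · refine (MvPolynomial.totalDegree_pow _ _).trans ?_
      rw [MvPolynomial.totalDegree_X, mul_one]
  · exact (MvPolynomial.totalDegree_X _).le.trans (Nat.le_add_left _ _)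

lemma UU_len (v : (Fin k × Fin s) ⊕ κ) : len (UU (k := k) (κ := κ) p q v) ≤ 1 := by
  rcases v with a | a
  · show len (MvPolynomial.X (Sum.inl (a.1, 0)) ^ p a.2 * MvPolynomial.X (Sum.inl (a.1, 1)) ^ q a.2 *
      MvPolynomial.X (Sum.inr (Sum.inl a)) : MvPolynomial ((Fin k × Fin 2) ⊕ ((Fin k × Fin s) ⊕ κ)) ℤ) ≤ _
    have h1 : ∀ (v : (Fin k × Fin 2) ⊕ ((Fin k × Fin s) ⊕ κ)) (n : ℕ),
        len ((MvPolynomial.X v : MvPolynomial ((Fin k × Fin 2) ⊕ ((Fin k × Fin s) ⊕ κ)) ℤ) ^ n) ≤ 1 := by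
      intro v n
      refine (len_pow _ _).trans ?_
      rw [len_X, one_pow]
    refine (len_mul _ _).trans ?_
    rw [len_X, mul_one]
    refine (len_mul _ _).trans ?_
    exact mul_le_one₀ (h1 _ _) (len_nonneg _) (h1 _ _)
  · show len (MvPolynomial.X (Sum.inr (Sum.inr a)) : MvPolynomial ((Fin k × Fin 2) ⊕ ((Fin k × Fin s) ⊕ κ)) ℤ) ≤ _
    rw [len_X]

lemma UU_eval (P : MvPolynomial ((Fin k × Fin s) ⊕ κ) ℤ) (r : Fin k × Fin 2 → ℂ) (y : Fin k × Fin s → ℂ) (z : κ → ℂ) :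
    MvPolynomial.aeval (Sum.elim r (Sum.elim y z)) (MvPolynomial.aeval (UU p q) P) =
      MvPolynomial.aeval (Sum.elim (fun a => r (a.1, 0) ^ p a.2 * r (a.1, 1) ^ q a.2 * y a) z) P := by
  have h1 : (fun v => MvPolynomial.aeval (Sum.elim r (Sum.elim y z)) (UU p q v)) =
      Sum.elim (fun a => r (a.1, 0) ^ p a.2 * r (a.1, 1) ^ q a.2 * y a) z := by
    funext v
    rcases v with a | a
    · show MvPolynomial.aeval (Sum.elim r (Sum.elim y z)) (MvPolynomial.X (Sum.inl (a.1, 0)) ^ p a.2 *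
        MvPolynomial.X (Sum.inl (a.1, 1)) ^ q a.2 * MvPolynomial.X (Sum.inr (Sum.inl a))) = _
      simp only [map_mul, map_pow, MvPolynomial.aeval_X, Sum.elim_inl, Sum.elim_inr]
    · show MvPolynomial.aeval (Sum.elim r (Sum.elim y z)) (MvPolynomial.X (Sum.inr (Sum.inr a))) = _
      rw [MvPolynomial.aeval_X]
      rfl
  rw [← h1]
  exact MvPolynomial.comp_aeval_apply (UU p q) (MvPolynomial.aeval (Sum.elim r (Sum.elim y z))) P

/-- numerators -/
noncomputable def Nf (ξ : Fin k → κ) (b : Fin k × Fin 2) : MvPolynomial (Fin 0 ⊕ ((Fin k × Fin s) ⊕ κ)) ℤ :=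
  if b.2 = 0 then 1 else MvPolynomial.X (Sum.inr (Sum.inr (ξ b.1))) - 1

/-- denominators -/
noncomputable def Mf (ξ : Fin k → κ) (b : Fin k × Fin 2) : MvPolynomial (Fin 0 ⊕ ((Fin k × Fin s) ⊕ κ)) ℤ :=
  MvPolynomial.X (Sum.inr (Sum.inr (ξ b.1)))

lemma Nf_deg (ξ : Fin k → κ) (b : Fin k × Fin 2) : (Nf (s := s) ξ b).totalDegree ≤ 1 := by
  unfold Nf
  split_ifs
  · rw [MvPolynomial.totalDegree_one]
    omega
  · refine (MvPolynomial.totalDegree_sub _ _).trans (max_le (MvPolynomial.totalDegree_X _).le ?_)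
    rw [MvPolynomial.totalDegree_one]
    omega

lemma Nf_len (ξ : Fin k → κ) (b : Fin k × Fin 2) : len (Nf (s := s) ξ b) ≤ 2 := by
  unfold Nf
  split_ifs
  · rw [len_one]
    norm_num
  · refine (len_sub _ _).trans ?_
    rw [len_X, len_one]
    norm_num

theorem npoly (hNRM : S_NRM) (k s : ℕ) (κ : Type) [Fintype κ] [DecidableEq κ] {D : ℕ} (hD : 0 < D) (p q : Fin s → ℕ) (d : ℕ) :
    ∃ (a₀ d' e : ℕ) (A : ℝ), 1 ≤ A ∧ ∀ (ω : ℂ), IsPrimitiveRoot ω D → ∀ (ξ : Fin k → κ)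
      (P : MvPolynomial ((Fin k × Fin s) ⊕ κ) ℤ) (H : ℝ), 1 ≤ H → P.totalDegree ≤ d → (∀ m, |((P.coeff m : ℤ) : ℝ)| ≤ H) →
      ∃ N' : MvPolynomial ((Fin k × Fin s) ⊕ κ) ℤ, N'.totalDegree ≤ d' ∧ (∀ m, |((N'.coeff m : ℤ) : ℝ)| ≤ A * H ^ e) ∧
        ∀ (r : Fin k × Fin 2 → ℂ) (z : κ → ℂ), (∀ b, r b ≠ 0) →
          (∀ j, z (ξ j) * r (j, 0) ^ D = 1 ∧ r (j, 1) ^ D = 1 - r (j, 0) ^ D) →
          (∀ j, z (ξ j) ≠ 0) ∧ ∀ y : Fin k × Fin s → ℂ, MvPolynomial.aeval (Sum.elim y z) N' =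
            (∏ b : Fin k × Fin 2, z (ξ b.1) ^ a₀) * ∏ l : Fin k × Fin 2 → Fin D, MvPolynomial.aeval (Sum.elim (fun a =>
              (ω ^ (l (a.1, 0) : ℕ)) ^ p a.2 * (ω ^ (l (a.1, 1) : ℕ)) ^ q a.2 *
                (r (a.1, 0) ^ p a.2 * r (a.1, 1) ^ q a.2 * y a)) z) P := by
  classical
  set E : ℕ := ∑ c, (p c + q c) + 1 with hE
  obtain ⟨d₁, e₁, A₁, h₁⟩ := hNRM (Fin k × Fin 2) ((Fin k × Fin s) ⊕ κ) D (d * E) hD
  set V : ℕ := Fintype.card ((Fin k × Fin s) ⊕ κ) with hV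
  set A₂ : ℝ := ((d : ℝ) + 1) ^ V with hA₂
  have hA₂1 : 1 ≤ A₂ := by
    rw [hA₂]
    exact one_le_pow₀ (by have : (0 : ℝ) ≤ d := by positivity
                          linarith)
  set A₃ : ℝ := ((d₁ : ℝ) + 1) ^ (Fintype.card (Fin k × Fin 2) + V) * 2 ^ (d₁ * Fintype.card (Fin k × Fin 2)) with hA₃
  have hA₃0 : 0 ≤ A₃ := by positivity
  refine ⟨d₁, Fintype.card (Fin k × Fin 2) * (d₁ * 1) + V * d₁, e₁, max 1 (A₃ * (|A₁| * A₂ ^ e₁)), le_max_left _ _,
    fun ω hω ξ P H hH hPd hPH => ?_⟩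
  have hG1 : (MvPolynomial.aeval (UU (k := k) (κ := κ) p q) P).totalDegree ≤ d * E := deg_aev _ (UU_deg p q) P hPd
  have hG2 : ∀ m, |(((MvPolynomial.aeval (UU (k := k) (κ := κ) p q) P).coeff m : ℤ) : ℝ)| ≤ A₂ * H := by
    intro m
    refine (abs_coeff_le_len _ _).trans ((Pool.Agent.Q189.JM.len_aeval (UU p q) 1 le_rfl (UU_len p q) P hPd H hPH).trans
      (le_of_eq ?_))
    rw [one_pow, one_pow, mul_one]
  have hAH : 1 ≤ A₂ * H := by nlinarith
  obtain ⟨N, hN1, hN2, hN3⟩ := h₁ ω hω (MvPolynomial.aeval (UU p q) P) (A₂ * H) hAH hG1 hG2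
  set N'' := clz d₁ (Nf (s := s) ξ) (Mf (s := s) ξ) N with hN''
  have hMl : ∀ b, len (Mf (s := s) ξ b) ≤ 2 := by
    intro b
    unfold Mf
    rw [len_X]
    norm_num
  refine ⟨MvPolynomial.rename (Sum.elim Fin.elim0 id) N'', ?_, fun m => ?_, fun r z hr hz => ?_⟩
  · exact (MvPolynomial.totalDegree_rename_le _ _).trans (clz_deg (Nf_deg ξ) fun b => (MvPolynomial.totalDegree_X _).le)
  · refine (abs_coeff_le_len _ _).trans ((len_rename _ _).trans ?_)
    have h2 : ∀ m, |((N.coeff m : ℤ) : ℝ)| ≤ |A₁| * (A₂ * H) ^ e₁ := fun m => (hN2 m).trans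
      (mul_le_mul_of_nonneg_right (le_abs_self _) (by positivity))
    refine (clz_len (by norm_num : (1 : ℝ) ≤ 2) (Nf_len ξ) hMl h2).trans ?_
    calc _ = A₃ * (|A₁| * A₂ ^ e₁) * H ^ e₁ := by
          rw [hA₃, mul_pow, ← hV]
          ring
      _ ≤ _ := mul_le_mul_of_nonneg_right (le_max_right _ _) (by positivity)
  · have hz0 : ∀ j, z (ξ j) ≠ 0 := fun j h0 => by
      have := (hz j).1
      rw [h0, zero_mul] at this
      exact zero_ne_one this
    refine ⟨hz0, fun y => ?_⟩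
    have h4 : MvPolynomial.aeval (Sum.elim y z) (MvPolynomial.rename (Sum.elim Fin.elim0 id) N'') =
        MvPolynomial.aeval (Sum.elim (Fin.elim0 : Fin 0 → ℂ) (Sum.elim y z)) N'' := by
      rw [MvPolynomial.aeval_rename]
      congr 2
      funext v
      rcases v with v | v
      · exact v.elim0
      · rfl
    have hMe : ∀ b, MvPolynomial.aeval (Sum.elim (Fin.elim0 : Fin 0 → ℂ) (Sum.elim y z)) (Mf (s := s) ξ b) = z (ξ b.1) := by
      intro b
      unfold Mf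
      rw [MvPolynomial.aeval_X]
      rfl
    have hNe : ∀ b, MvPolynomial.aeval (Sum.elim (Fin.elim0 : Fin 0 → ℂ) (Sum.elim y z)) (Mf (s := s) ξ b) * (r b ^ D) =
        MvPolynomial.aeval (Sum.elim (Fin.elim0 : Fin 0 → ℂ) (Sum.elim y z)) (Nf (s := s) ξ b) := by
      rintro ⟨j, i⟩
      rw [hMe]
      unfold Nf
      have h5 := hz j
      by_cases hi : i = 0
      · subst hi
        rw [if_pos rfl, map_one]
        exact h5.1
      · have hi1 : i = 1 := by omega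
        subst hi1
        rw [if_neg hi, map_sub, map_one, MvPolynomial.aeval_X]
        show z (ξ j) * r (j, 1) ^ D = z (ξ j) - 1
        rw [h5.2, mul_sub, mul_one, h5.1]
    rw [h4, hN'', clz_eval hN1 (Fin.elim0 : Fin 0 → ℂ) (Sum.elim y z) (fun b => r b ^ D) hNe]
    simp only [hMe]
    rw [hN3 r (Sum.elim y z) hr]
    congr 1
    refine Finset.prod_congr rfl fun l _ => ?_
    rw [UU_eval]
    congr 2
    funext v
    rcases v with a | a
    · show _ = _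
      simp only [Sum.elim_inl, mul_pow]
      ring
    · rfl

end

end Pool.Agent.Q189.IB
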