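import Pool.Agent.Y124.GE.Tr
import Pool.Agent.Y124.GE.Sd2
import Pool.Agent.Y120.H.GS1
import Pool.Agent.Y120.H.Fml

/-!
# Incomplete beta integrals: statements of the lemma jobs

`hs u v = x^(-u) (1-x)^(-v) ∫_0^x t^(u-1) (1-t)^(v-1) dt` as a power series in `x`.
-/

set_option autoImplicit false

open PowerSeries

namespace Pool.Agent.Q189.IB

open Pool.Agent.Y113 (ps SDc GSys)
open Pool.Agent.Y124.GE (GC)
open Pool.Agent.Y120.GH (QU0)

/-- the coefficients: `c_0 = 1/u`, `(m + 1 + u) c_(m+1) = (m + u + v) c_m` -/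
noncomputable def cf (u v : ℚ) (m : ℕ) : ℚ :=
  (∏ i ∈ Finset.range m, (u + v + i)) / ∏ i ∈ Finset.range (m + 1), (u + i)

/-- the series `x^(-u) (1-x)^(-v) ∫_0^x t^(u-1) (1-t)^(v-1) dt` -/
noncomputable def hs (u v : ℚ) : ℚ⟦X⟧ := PowerSeries.mk (cf u v)

/-- JOB ODE. For `u > 0`: `x (1 - x) h' = 1 + (-u + (u + v) x) h`.
Proof: compare coefficients, `(m + 1 + u) c_(m+1) = (m + u + v) c_m`, `u c_0 = 1`. -/
def S_ODE : Prop := ∀ u v : ℚ, 0 < u →
  X * (1 - X) * d⁄dX ℚ (hs u v) = 1 + (C (-u) + C (u + v) * X) * hs u v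

/-- JOB SD. For `u > 0` the series `hs u v` has coefficients and common denominators of geometric growth.
Proof: `h = (1-x)^(-v) g` with `g = ∑ (1-v)_m / m! x^m / (u + m)`. `SDc` is closed under products and Hadamard products
(`SDc.mul`, `Pool.Agent.Y124.GE.SDc_had`), `(1-x)^(-v)` and `∑ (1-v)_m / m! x^m` are binomial series
(`Pool.Agent.Y124.GE.R`, `NIc_R`, `NIc.SDc`), and `1/(u + m) = d/(p + d m)` for `u = p/d` has the common denominator
`lcm(1, ..., p + d M)` for `m ≤ M` (bound of `Nat.lcmUpto` as in `Pool.Agent.Y124.GE.SDc_lgs` or `SDc_Cb`). The identity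
`h = (1-x)^(-v) g` follows because both satisfy the equation of `S_ODE`, whose power series solution is unique. -/
def S_SD : Prop := ∀ u v : ℚ, 0 < u → SDc (hs u v)

/-- JOB RAT. The equation `x (1-x) y' = (-u + (u+v) x) y + c` with `c ≠ 0` has no solution `y = P/Q` in `ℚ(x)`, if
`u, v > 0` are not integers. (Here `T = x (1-x)`, `a = -u (1-x) + v x = -u + (u+v) x`.)
Proof. We may divide `P` and `Q` by their gcd. Then `T (P' Q - P Q') = a P Q + c Q²` shows `Q ∣ T P Q'`, so `Q ∣ T Q'`,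
so that `Q = const · x^i (1-x)^j` (compare root multiplicities over `ℂ` or write `Q = x^i (1-x)^j R` with
`R(0) ≠ 0 ≠ R(1)`, then `R ∣ T R'`, so `R ∣ R'` since `R` is prime to `T`, so `R` is constant). Then
`T P' = ((i-u)(1-x) + (v-j) x) P + c' x^i (1-x)^j`. If `i > 0`, then the value at `x = 0` gives `(i-u) P(0) = 0`, so
`P(0) = 0`, a contradiction to `gcd(P, Q) = 1`; so `i = 0`, in the same way `j = 0`. Now `P` is a polynomial with
`T P' = (-u + (u+v) x) P + c'`, and the leading coefficients at `x^(deg P + 1)` give `-n p_n = (u+v) p_n`, a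
contradiction to `u + v > 0`, unless `P = 0`, and then `c' = 0`. -/
def S_RAT : Prop := ∀ (u v c : ℚ), 0 < u → 0 < v → (∀ z : ℤ, u ≠ z) → (∀ z : ℤ, v ≠ z) → c ≠ 0 →
  ¬ ∃ P Q : Polynomial ℚ, Q ≠ 0 ∧
    Polynomial.X * (1 - Polynomial.X) * (Polynomial.derivative P * Q - P * Polynomial.derivative Q) =
      (Polynomial.C (-u) + Polynomial.C (u + v) * Polynomial.X) * P * Q + Polynomial.C c * Q ^ 2

/-- JOB LOG. If `T (P' Q - P Q') = (-s + (s+t) x) P Q` with `P, Q ≠ 0` in `ℚ[x]` (that is `y = P/Q` has the logarithmic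
derivative `-s/x + t/(1-x)`), then `s` and `t` are integers.
Proof: root multiplicities of `P` and `Q` at `0` and `1` (write `P = x^i (1-x)^j R`, `Q = x^k (1-x)^l S` and evaluate at
`0` and at `1` after division by the powers): `-s = i - k` and `t = -(j - l)`. -/
def S_LOG : Prop := ∀ (s t : ℚ) (P Q : Polynomial ℚ), P ≠ 0 → Q ≠ 0 →
  Polynomial.X * (1 - Polynomial.X) * (Polynomial.derivative P * Q - P * Polynomial.derivative Q) =
    (Polynomial.C (-s) + Polynomial.C (s + t) * Polynomial.X) * P * Q → (∃ z : ℤ, s = z) ∧ ∃ z : ℤ, t = z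

/-- JOB AI (hypotheses `S_ODE`, `S_RAT`, `S_LOG` allowed). The series `h_j = hs (u j) (v j)` are algebraically independent
over `ℚ[x]`, if `u_j, v_j > 0` are not integers and the pairs `(u_j, v_j)` are pairwise incongruent modulo `ℤ²`.
Proof. Let `T = x (1-x)`, `a_j = -u_j + (u_j + v_j) x`, so `T h_j' = 1 + a_j h_j`. Let `δ` be the additive map on
`ℚ[x][X_1, ..., X_k]` with `δ(p X^e) = T p' X^e + p ∑_j e_j (1 + a_j X_j) X^(e - 1_j)`; it is a derivation and
`(δ P)(h) = T (P(h))'`. Suppose that some `P ≠ 0` has `P(h) = 0`. Choose `P` with minimal total degree `d` and, for this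
`d`, with the least number of monomials of degree `d`. Write `P = ∑ p_f X^f` and fix `e` with `|e| = d`, `p_e ≠ 0`.
Put `e·a = ∑ e_j a_j` and `Q = p_e δP - (T p_e' + p_e (e·a)) P`. Then `Q(h) = 0`, the degree of `Q` is at most `d`, and for
`|f| = d` the coefficient of `X^f` in `Q` is `p_e (T p_f' + (f·a) p_f) - (T p_e' + p_e (e·a)) p_f`, which is `0` for `p_f = 0`
and for `f = e`. By the choice of `P` we have `Q = 0`. So for `|f| = d`:
`T (p_f' p_e - p_f p_e') = ((e - f)·a) p_e p_f`, and by `S_LOG` `p_f ≠ 0` implies that `∑ (e_j - f_j) u_j` and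
`∑ (e_j - f_j) v_j` are integers. Now `d ≥ 1` (for `d = 0` `P = p_0` and `P(h) = p_0 ≠ 0`), let `e_j ≥ 1` and take the
coefficient of `X^f`, `f = e - 1_j`, in `Q = 0`:
`p_e (T p_f' + (f·a) p_f + ∑_i (f_i + 1) p_(f + 1_i)) - (T p_e' + p_e (e·a)) p_f = 0`. For `i ≠ j` the coefficient
`p_(f + 1_i) = p_(e - 1_j + 1_i)` is `0`, since otherwise `u_j - u_i` and `v_j - v_i` would be integers. For `i = j` the term
is `e_j p_e`. So `T (p_f' p_e - p_f p_e') = a_j p_e p_f - e_j p_e²`, in contradiction to `S_RAT` with `c = -e_j`. -/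
def S_AI : Prop := ∀ (k : ℕ) (u v : Fin k → ℚ), (∀ j, 0 < u j ∧ 0 < v j) → (∀ j (z : ℤ), u j ≠ z ∧ v j ≠ z) →
  (∀ i j, i ≠ j → ¬ ((∃ z : ℤ, u i - u j = z) ∧ ∃ z : ℤ, v i - v j = z)) →
  AlgebraicIndependent (Polynomial ℚ) (fun j => hs (u j) (v j))

/-- `T = D x (1 - x)` -/
noncomputable def TT (D : ℕ) : Polynomial ℤ := Polynomial.C (D : ℤ) * (Polynomial.X * (1 - Polynomial.X))

/-- the matrix of the system of `(1, h_1, ..., h_k)` for `u_j = p_j/D`, `v_j = q_j/D`:
`T h_j' = D + (-p_j + (p_j + q_j) x) h_j` -/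
noncomputable def AA {k : ℕ} (D : ℕ) (p q : Fin k → ℤ) : Fin (k + 1) → Fin (k + 1) → Polynomial ℤ :=
  Fin.cons (fun _ => 0) fun j => Fin.cons (Polynomial.C (D : ℤ)) fun l =>
    if j = l then Polynomial.C (-p j) + Polynomial.C (p j + q j) * Polynomial.X else 0

/-- the system at the point `x = (1 + t)/2`: `T = D (1 - t²)` -/
noncomputable def TH (D : ℕ) : Polynomial ℤ := Polynomial.C (D : ℤ) * (1 - Polynomial.X ^ 2)

/-- the system at the point `x = (1 + t)/2`: `D (1 - t²) h_j' = 2 D + (-p_j (1 - t) + q_j (1 + t)) h_j` -/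
noncomputable def AH {k : ℕ} (D : ℕ) (p q : Fin k → ℤ) : Fin (k + 1) → Fin (k + 1) → Polynomial ℤ :=
  Fin.cons (fun _ => 0) fun j => Fin.cons (Polynomial.C (2 * (D : ℤ))) fun l =>
    if j = l then Polynomial.C (q j - p j) + Polynomial.C (p j + q j) * Polynomial.X else 0

/-- JOB GCH. Galochkin's condition for the system at the ordinary point `x = 1/2` (`t = 0`).
Proof: `Pool.Agent.Y124.GE.gc_of` with `y i j` (`i`: the solution, `j`: the component) as follows. Let `u_j = p_j/D`,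
`v_j = q_j/D`, `w_j = (1+t)^(-u_j) (1-t)^(-v_j)`, `J_j = ∫_0^t 2 (1+s)^(u_j - 1) (1-s)^(v_j - 1) ds`, `g_j = w_j J_j`.
`y 0 = (1, g_1, ..., g_k)`, `y j = (0, ..., w_j, ..., 0)`, the inverse matrix is `w 0 = (1, -g_j/w_j)`,
`w j = (0, ..., 1/w_j, ..., 0)` with `1/w_j = (1+t)^(u_j) (1-t)^(v_j)`, so `g_j / w_j = J_j`.
The series `(1-t)^(-v)` is `Pool.Agent.Y124.GE.R` (`NIc_R`, `NIc.SDc`), `(1+t)^(-u)` is its Hadamard product with
`∑ (-1)^m t^m` (`SDc_had`, `SDc_geo`), and the integral of `f` is the Hadamard product of `t f` and `lgs` (`SDc_lgs`). -/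
def S_GCH : Prop := ∀ (k D : ℕ) (p q : Fin k → ℤ), 0 < D → ∃ N : ℕ, GC N (TH D) (fun a b => AH D p q b a)

/-- JOB GCX. Galochkin's condition is invariant under the affine change of variable `x = (1+t)/2`.
Proof: induction on `s` with `Pool.Agent.Y113.HGG.ah_succ`: `ah (TT D) (AA D p q)ᵗ s (x) = 2^(-s) ah (TH D) (AH D p q)ᵗ s (2x-1)`,
since `TH = 4 TT((1+t)/2)`, `AH = 2 AA((1+t)/2)`; then the denominators are multiplied by at most `2^s` and the size of the
coefficients of `P(2x-1)`, `deg P ≤ N s`, is at most `(N s + 1) 3^(N s)` times the size for `P`. -/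
def S_GCX : Prop := ∀ (k D : ℕ) (p q : Fin k → ℤ), 0 < D → ∀ N : ℕ, GC N (TH D) (fun a b => AH D p q b a) →
  ∃ N' : ℕ, GC N' (TT D) (fun a b => AA D p q b a)

/-- JOB QU (hypotheses `S_ODE`, `S_SD` allowed). The system `T y' = A y` has at `x = 0` the fundamental matrix
`s^(-M) Φ(s)`, `s^D = x`, without logarithms: the columns are `s^M (1, h_1(s^D), ..., h_k(s^D))` and
`s^(M - p_j) (1 - s^D)^(-v_j)` at the place `j`, `M = ∑ p_j`; the matrix is lower triangular with nonzero diagonal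
entries. (`e = D`, `Φ i j` is the constant polynomial `Polynomial.C` of the power series.) -/
def S_QU : Prop := ∀ (k D : ℕ) (p q : Fin k → ℤ), 0 < D → (∀ j, 0 < p j) → QU0 (TT D) (AA D p q)

end Pool.Agent.Q189.IB
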