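import Mathlib

/-!
# Statements of two lemma jobs on products of polynomials (norms and a lower bound)
-/

set_option autoImplicit false

namespace Pool.Agent.Q189.IB

/-- JOB NRM. The norm of an integral polynomial with respect to `D`-th roots of the variables, with bounds.
Proof. Let `I = (K → Fin D)` be the exponents `a` and write `G = ∑_r S^r g_r(V)`, `r : K → ℕ`. Let `M` be the `I × I` matrix over
`ℤ[T, V]` (`T` = the new variables `Sum.inl`, `T_j = S_j^D`) of the multiplication by `G` on the basis `S^a`:
`M a b = ∑_(r : r + b ≡ a mod D) g_r(V) ∏_j T_j^((r_j + b_j - a_j) / D)`; take `N = det M`. For `s_j ≠ 0` let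
`E a l = ∏_j (ω^(l_j) s_j)^(a_j)`. Then `∑_a E a l M(s^D, v) a b = G(ω^l s, v) E b l`, i.e. `Eᵀ M = diag(G(ω^l s, v)) Eᵀ`, and
`E` is invertible (`∑_l ∏_j ω^(l_j (a_j - b_j)) = 0` for `a ≠ b`: product of geometric sums), so
`det M = ∏_l G(ω^l s, v)`. Each entry of `M` is a sum of monomials of `G` (the number of monomials of degree at most `d` is
bounded); the length `len` (sum of the absolute values of the coefficients) is submultiplicative: `len_mul`, `len_prod`, `len_sum`,
`abs_coeff_le_len`, `len_eq_int` in `Pool/Agent/Q246/NR/Len.lean` (namespace `Pool.Agent.Q246.NR`).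
(One may also treat one root after the other, with a `D × D` determinant or `Polynomial.resultant`.) -/
def S_NRM : Prop := ∀ (K V : Type) [Fintype K] [DecidableEq K] [Fintype V] (D d : ℕ), 0 < D → ∃ (d' e : ℕ) (A : ℝ),
  ∀ (ω : ℂ), IsPrimitiveRoot ω D → ∀ (G : MvPolynomial (K ⊕ V) ℤ) (H : ℝ), 1 ≤ H → G.totalDegree ≤ d →
    (∀ m, |((G.coeff m : ℤ) : ℝ)| ≤ H) → ∃ N : MvPolynomial (K ⊕ V) ℤ, N.totalDegree ≤ d' ∧
      (∀ m, |((N.coeff m : ℤ) : ℝ)| ≤ A * H ^ e) ∧
      ∀ (s : K → ℂ) (v : V → ℂ), (∀ j, s j ≠ 0) →
        MvPolynomial.aeval (Sum.elim (fun j => s j ^ D) v) N =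
          ∏ l : K → Fin D, MvPolynomial.aeval (Sum.elim (fun j => ω ^ (l j : ℕ) * s j) v) G

/-- JOB MIN. A lower bound for the product of finitely many polynomials (of degree at most `d` in each variable) at a point of
the grid, by the product of the maxima of their coefficients.
Proof. If all `a l` have norm `1` (the maximum norm of the pi type), the sum over the finitely many `y` of the product on the
right is positive: otherwise the product of the polynomials `∑_e a l e X^e` vanishes on the grid `{0, …, L d}^ι` and has degree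
at most `L d` in each variable (`L = card Λ`), so it is zero (`MvPolynomial.eq_zero_of_eval_zero_at_prod_finset`-type lemma of the
Combinatorial Nullstellensatz, `MvPolynomial.funext_set`, or induction on the variables) and one factor is zero. It is continuous
on the compact set of all such families, so it has a positive minimum. The general case follows by homogeneity (if some `a l = 0`
both sides are `0`). -/
def S_MIN : Prop := ∀ (ι Λ : Type) [Fintype ι] [DecidableEq ι] [Fintype Λ] (d : ℕ), ∃ c : ℝ, 0 < c ∧
  ∀ a : Λ → (ι → Fin (d + 1)) → ℂ, ∃ y : ι → Fin (Fintype.card Λ * d + 1),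
    c * ∏ l, ‖a l‖ ≤ ∏ l, ‖∑ e : ι → Fin (d + 1), a l e * ∏ i, ((y i : ℕ) : ℂ) ^ (e i : ℕ)‖

end Pool.Agent.Q189.IB
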