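import Pool.Agent.Q189.IB.App

/-!
# A linear relation over a number field gives an exceptional integer
-/

set_option autoImplicit false

open PowerSeries Module

namespace Pool.Agent.Q189.IB

open Pool.Agent.Y916.Al (evc)

variable {k : ℕ} {m : Fin k → ℕ}

/-- the constants: `w` and the beta values -/
noncomputable def cst (u v : Fin k → ℚ) (w : ℂ) : Fin (k + 1) → ℂ :=
  Fin.cons w fun j => ((inc (u j) (v j) 1 : ℝ) : ℂ)

section
variable {K : Type} [Field K]

/-- the polynomial of the relation -/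
noncomputable def RP (c : Option (∀ j, Fin (m j + 1)) → K) (θ : Fin k → K) : MvPolynomial (Fin k ⊕ Fin (k + 1)) K :=
  MvPolynomial.C (c none) * MvPolynomial.X (Sum.inr 0) + ∑ i : ∀ j, Fin (m j + 1), MvPolynomial.C (c (some i)) *
    ∏ j, (MvPolynomial.C (θ j) * MvPolynomial.X (Sum.inl j)) ^ (i j : ℕ) *
      (MvPolynomial.X (Sum.inr j.succ) - MvPolynomial.C (θ j) * MvPolynomial.X (Sum.inl j)) ^ (m j - i j)

lemma RP_deg (c : Option (∀ j, Fin (m j + 1)) → K) (θ : Fin k → K) : (RP c θ).totalDegree ≤ ∑ j, m j + 1 := by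
  classical
  unfold RP
  refine (MvPolynomial.totalDegree_add _ _).trans (max_le ?_ ?_)
  · refine (MvPolynomial.totalDegree_mul _ _).trans ?_
    rw [MvPolynomial.totalDegree_C, zero_add, MvPolynomial.totalDegree_X]
    omega
  · refine MvPolynomial.totalDegree_finsetSum_le fun i _ => (MvPolynomial.totalDegree_mul _ _).trans ?_
    rw [MvPolynomial.totalDegree_C, zero_add]
    refine (MvPolynomial.totalDegree_finsetProd _ _).trans ?_
    refine le_trans (Finset.sum_le_sum fun j _ => ?_) (Nat.le_succ _)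
    have h1 : (MvPolynomial.C (θ j) * MvPolynomial.X (Sum.inl j) : MvPolynomial (Fin k ⊕ Fin (k + 1)) K).totalDegree ≤ 1 := by
      refine (MvPolynomial.totalDegree_mul _ _).trans ?_
      rw [MvPolynomial.totalDegree_C, zero_add, MvPolynomial.totalDegree_X]
    have h2 : (MvPolynomial.X (Sum.inr j.succ) - MvPolynomial.C (θ j) * MvPolynomial.X (Sum.inl j) :
        MvPolynomial (Fin k ⊕ Fin (k + 1)) K).totalDegree ≤ 1 := by
      refine (MvPolynomial.totalDegree_sub _ _).trans (max_le ?_ h1)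
      rw [MvPolynomial.totalDegree_X]
    have hi : (i j : ℕ) ≤ m j := Nat.lt_succ_iff.1 (i j).2
    calc _ ≤ (i j : ℕ) * 1 + (m j - i j) * 1 :=
          (MvPolynomial.totalDegree_mul _ _).trans (add_le_add ((MvPolynomial.totalDegree_pow _ _).trans (Nat.mul_le_mul_left _ h1))
            ((MvPolynomial.totalDegree_pow _ _).trans (Nat.mul_le_mul_left _ h2)))
      _ = m j := by omega

lemma RP_eval (c : Option (∀ j, Fin (m j + 1)) → K) (θ : Fin k → K) (φ : K →+* ℂ) (y : Fin k → ℂ) (z : Fin (k + 1) → ℂ) :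
    MvPolynomial.eval₂ φ (Sum.elim y z) (RP c θ) = φ (c none) * z 0 + ∑ i : ∀ j, Fin (m j + 1), φ (c (some i)) *
      ∏ j, (φ (θ j) * y j) ^ (i j : ℕ) * (z j.succ - φ (θ j) * y j) ^ (m j - i j) := by
  classical
  have h1 : MvPolynomial.eval₂ φ (Sum.elim y z) (RP c θ) = MvPolynomial.eval₂Hom φ (Sum.elim y z) (RP c θ) := rfl
  rw [h1]
  unfold RP
  rw [map_add, map_mul, map_sum]
  simp only [MvPolynomial.eval₂Hom_C, MvPolynomial.eval₂Hom_X', Sum.elim_inr]
  congr 1
  refine Finset.sum_congr rfl fun i _ => ?_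
  rw [map_mul, MvPolynomial.eval₂Hom_C, map_prod]
  congr 1
  refine Finset.prod_congr rfl fun j _ => ?_
  rw [map_mul, map_pow, map_pow, map_sub, map_mul, MvPolynomial.eval₂Hom_C, MvPolynomial.eval₂Hom_X',
    MvPolynomial.eval₂Hom_X', Sum.elim_inl, Sum.elim_inr]

end

/-- the products of powers are linearly independent as polynomials -/
lemma bern (B : Fin k → ℂ) (hB : ∀ j, B j ≠ 0) (c : (∀ j, Fin (m j + 1)) → ℂ)
    (h : ∀ x : Fin k → ℂ, ∑ i : ∀ j, Fin (m j + 1), c i * ∏ j, x j ^ (i j : ℕ) * (B j - x j) ^ (m j - i j) = 0) : ∀ i, c i = 0 := by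
  classical
  set E : (∀ j, Fin (m j + 1)) → (Fin k →₀ ℕ) := fun i => Finsupp.equivFunOnFinite.symm fun j => (i j : ℕ) with hE
  have hEinj : Function.Injective E := by
    intro i i' hii
    funext j
    have := DFunLike.congr_fun hii j
    exact Fin.ext this
  set Q : MvPolynomial (Fin k) ℂ := ∑ i : ∀ j, Fin (m j + 1), MvPolynomial.monomial (E i) (c i) with hQ
  have hQ0 : Q = 0 := by
    refine MvPolynomial.funext_set (fun _ => Set.range fun a : ℕ => (a : ℂ)) (fun _ =>
      Set.infinite_range_of_injective Nat.cast_injective) fun t ht => ?_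
    have ht1 : ∀ j, 1 + t j ≠ 0 := by
      intro j
      obtain ⟨a, ha⟩ := ht j (Set.mem_univ j)
      have ha' : (a : ℂ) = t j := ha
      rw [← ha']
      have : ((1 + a : ℕ) : ℂ) ≠ 0 := by
        have : 1 + a ≠ 0 := by omega
        exact_mod_cast this
      push_cast at this
      exact this
    have h1 := h fun j => B j * t j / (1 + t j)
    have h2 : ∀ i : ∀ j, Fin (m j + 1), ∏ j, (B j * t j / (1 + t j)) ^ (i j : ℕ) * (B j - B j * t j / (1 + t j)) ^ (m j - i j) =
        (∏ j, (B j / (1 + t j)) ^ m j) * ∏ j, t j ^ (i j : ℕ) := by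
      intro i
      rw [← Finset.prod_mul_distrib]
      refine Finset.prod_congr rfl fun j _ => ?_
      have hi : (i j : ℕ) ≤ m j := Nat.lt_succ_iff.1 (i j).2
      have e1 : B j - B j * t j / (1 + t j) = B j / (1 + t j) := by
        have := ht1 j
        field_simp
        ring
      have e2 : B j * t j / (1 + t j) = B j / (1 + t j) * t j := by ring
      rw [e1, e2, mul_pow]
      calc (B j / (1 + t j)) ^ (i j : ℕ) * t j ^ (i j : ℕ) * (B j / (1 + t j)) ^ (m j - i j)
          = ((B j / (1 + t j)) ^ (i j : ℕ) * (B j / (1 + t j)) ^ (m j - i j)) * t j ^ (i j : ℕ) := by ring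
        _ = _ := by rw [← pow_add, Nat.add_sub_cancel' hi]
    simp only [h2] at h1
    have h3 : (∏ j, (B j / (1 + t j)) ^ m j) * ∑ i : ∀ j, Fin (m j + 1), c i * ∏ j, t j ^ (i j : ℕ) = 0 := by
      rw [← h1, Finset.mul_sum]
      exact Finset.sum_congr rfl fun i _ => by ring
    have h4 : (∏ j, (B j / (1 + t j)) ^ m j) ≠ 0 :=
      Finset.prod_ne_zero_iff.2 fun j _ => pow_ne_zero _ (div_ne_zero (hB j) (ht1 j))
    have h5 := (mul_eq_zero.1 h3).resolve_left h4
    rw [map_zero, ← h5, hQ, map_sum]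
    refine Finset.sum_congr rfl fun i _ => ?_
    rw [MvPolynomial.eval_monomial, Finsupp.prod_fintype _ _ fun j => pow_zero _]
    rfl
  intro i
  have h1 := congrArg (MvPolynomial.coeff (E i)) hQ0
  rw [hQ, MvPolynomial.coeff_sum, MvPolynomial.coeff_zero, Finset.sum_eq_single i] at h1
  · rwa [MvPolynomial.coeff_monomial, if_pos rfl] at h1
  · intro i' _ hne
    rw [MvPolynomial.coeff_monomial, if_neg fun h => hne (hEinj h)]
  · intro h
    exact absurd (Finset.mem_univ _) h

theorem exK_of (hINT : S_INT) (hGAM : S_GAM) {u v : Fin k → ℚ} (hpos : ∀ j, 0 < u j ∧ 0 < v j) {D : ℕ} {p q : Fin k → ℤ}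
    (hD : 0 < D) (huv : ∀ j, u j = (p j : ℚ) / D ∧ v j = (q j : ℚ) / D) {w : ℂ} (hw : w ≠ 0)
    (htr : Transcendental ℚ (w⁻¹ * ∏ j, ((inc (u j) (v j) 1 : ℝ) : ℂ) ^ m j)) {δ n : ℕ} (hn : 2 ≤ n) (hind : ¬ Ind u v m w δ n) :
    ExK u v (∑ j, m j + 1) (δ * (D * D)) (cst u v w) n := by
  classical
  unfold Ind at hind
  push Not at hind
  obtain ⟨K, hK, hδ, hli⟩ := hind
  rw [Fintype.not_linearIndependent_iff] at hli
  obtain ⟨c, hc0, o₀, ho₀⟩ := hli
  haveI := hK
  obtain ⟨f1, f2⟩ := finrank_rt hD n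
  obtain ⟨g1, g2⟩ := finrank_rt hD (n - 1)
  haveI := f1
  haveI := g1
  set K1 := IntermediateField.adjoin ℚ {rt D n} with hK1
  set K2 := IntermediateField.adjoin ℚ {rt D (n - 1)} with hK2
  set K' : IntermediateField ℚ ℂ := K ⊔ (K1 ⊔ K2) with hK'
  haveI hfin : FiniteDimensional ℚ K' := inferInstance
  have hrank : finrank ℚ K' ≤ δ * (D * D) :=
    (IntermediateField.finrank_sup_le K (K1 ⊔ K2)).trans (Nat.mul_le_mul hδ
      ((IntermediateField.finrank_sup_le K1 K2).trans (Nat.mul_le_mul f2 g2)))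
  have hr1 : rt D n ∈ K' := (le_sup_left.trans le_sup_right : K1 ≤ K') (IntermediateField.mem_adjoin_simple_self ℚ _)
  have hr2 : rt D (n - 1) ∈ K' := (le_sup_right.trans le_sup_right : K2 ≤ K') (IntermediateField.mem_adjoin_simple_self ℚ _)
  have hth : ∀ j, th D (p j) (q j) n ∈ K' := fun j => mul_mem (zpow_mem hr1 _) (zpow_mem hr2 _)
  have hth0 : ∀ j, th D (p j) (q j) n ≠ 0 := fun j =>
    mul_ne_zero (zpow_ne_zero _ (rt_ne (by omega))) (zpow_ne_zero _ (rt_ne (by omega)))
  have hle : K ≤ K' := le_sup_left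
  set c' : Option (∀ j, Fin (m j + 1)) → K' := fun o => ⟨(c o : ℂ), hle (c o).2⟩ with hc'
  set θ : Fin k → K' := fun j => ⟨th D (p j) (q j) n, hth j⟩ with hθ
  refine ⟨K', hfin, hrank, RP c' θ, RP_deg c' θ, ?_, fun σ => ?_⟩
  · -- the relation
    rw [RP_eval]
    rw [Fintype.sum_option] at hc0
    have hb : ∀ j, th D (p j) (q j) n * vh u v n j = ((inc (u j) (v j) (1 / n) : ℝ) : ℂ) := fun j =>
      (b_eq hINT hD (huv j).1 (huv j).2 (hpos j).1 hn).symm
    have hn0 : (0 : ℝ) < n := by positivity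
    have hn2 : (2 : ℝ) ≤ n := by exact_mod_cast hn
    have hb' : ∀ j, ((inc (u j) (v j) 1 : ℝ) : ℂ) - ((inc (u j) (v j) (1 / n) : ℝ) : ℂ) =
        ((inc (v j) (u j) (1 - 1 / n) : ℝ) : ℂ) := by
      intro j
      rw [hGAM.2.1 (u j) (v j) (1 / n) (by exact_mod_cast (hpos j).1) (by exact_mod_cast (hpos j).2) (by positivity) (by
        rw [div_lt_one hn0]
        linarith)]
      push_cast
      ring
    refine Eq.trans ?_ hc0
    congr 1
    refine Finset.sum_congr rfl fun S _ => ?_
    show ((c (some S) : K) : ℂ) * _ = ((c (some S) : K) : ℂ) * nums u v m w n (some S)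
    congr 1
    show _ = ((prd u v m n S : ℝ) : ℂ)
    unfold prd
    rw [Complex.ofReal_prod]
    refine Finset.prod_congr rfl fun j _ => ?_
    have e1 : (algebraMap K' ℂ) (θ j) * vh u v n j = ((inc (u j) (v j) (1 / n) : ℝ) : ℂ) := hb j
    have e2 : cst u v w j.succ = ((inc (u j) (v j) 1 : ℝ) : ℂ) := rfl
    rw [e1, e2, hb', Complex.ofReal_mul, Complex.ofReal_pow, Complex.ofReal_pow]
  · by_contra hcon
    push Not at hcon
    set B : Fin k → ℂ := fun j => ((inc (u j) (v j) 1 : ℝ) : ℂ) with hB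
    have hB0 : ∀ j, B j ≠ 0 := by
      intro j
      show ((inc (u j) (v j) 1 : ℝ) : ℂ) ≠ 0
      rw [Complex.ofReal_ne_zero]
      exact (hGAM.2.2 (u j) (v j) (by exact_mod_cast (hpos j).1) (by exact_mod_cast (hpos j).2)).ne'
    have hσθ : ∀ j, σ (θ j) ≠ 0 := fun j => by
      rw [map_ne_zero]
      intro h0
      exact hth0 j (congrArg Subtype.val h0)
    have hrel : ∀ x : Fin k → ℂ, σ (c' none) * w + ∑ i : ∀ j, Fin (m j + 1), σ (c' (some i)) *
        ∏ j, x j ^ (i j : ℕ) * (B j - x j) ^ (m j - i j) = 0 := by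
      intro x
      have h1 := hcon fun j => x j / σ (θ j)
      rw [RP_eval] at h1
      have h2 : ∀ j, (σ : K' →+* ℂ) (θ j) * (x j / σ (θ j)) = x j := fun j => mul_div_cancel₀ _ (hσθ j)
      simp only [h2] at h1
      exact h1
    have hcz : ∀ o, c' o = 0 → c o = 0 := fun o h => Subtype.ext (congrArg Subtype.val h : (c o : ℂ) = 0)
    by_cases hn0 : σ (c' none) = 0
    · apply ho₀
      apply hcz
      rcases o₀ with _ | S
      · exact (map_eq_zero σ).1 hn0
      · have h1 := bern B hB0 (fun i => σ (c' (some i))) (fun x => by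
          have := hrel x
          rwa [hn0, zero_mul, zero_add] at this) S
        exact (map_eq_zero σ).1 h1
    · have h1 := hrel fun _ => 0
      have hz : ∑ i : ∀ j, Fin (m j + 1), σ (c' (some i)) * ∏ j, (0 : ℂ) ^ (i j : ℕ) * (B j - 0) ^ (m j - i j) =
          σ (c' (some fun _ => 0)) * ∏ j, B j ^ m j := by
        rw [Finset.sum_eq_single (fun _ => 0)]
        · congr 1
          refine Finset.prod_congr rfl fun j _ => ?_
          simp
        · intro i _ hi
          have : ∃ j, i j ≠ 0 := by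
            by_contra hcon
            push Not at hcon
            exact hi (funext hcon)
          obtain ⟨j, hj⟩ := this
          refine mul_eq_zero_of_right _ (Finset.prod_eq_zero (Finset.mem_univ j) ?_)
          have h0 : (i j : ℕ) ≠ 0 := fun h => hj (Fin.ext h)
          rw [zero_pow h0, zero_mul]
        · intro h
          exact absurd (Finset.mem_univ _) h
      rw [hz] at h1
      have hs0 : σ (c' (some fun _ => 0)) ≠ 0 := by
        intro h0
        rw [h0, zero_mul, add_zero] at h1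
        exact mul_ne_zero hn0 hw h1
      apply htr
      have h2 : w⁻¹ * ∏ j, B j ^ m j = -σ (c' none) / σ (c' (some fun _ => 0)) := by
        rw [eq_div_iff hs0]
        field_simp
        linear_combination h1
      rw [h2]
      have halg : ∀ x : K', IsAlgebraic ℚ (σ x) := fun x =>
        (IsIntegral.map σ (Algebra.IsIntegral.isIntegral (R := ℚ) x)).isAlgebraic
      rw [div_eq_mul_inv]
      exact (halg _).neg.mul (halg _).inv

end Pool.Agent.Q189.IB
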