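import Pool.Agent.Q189.IB.Gd1
import Pool.Agent.Q189.IB.Npo
import Pool.Agent.Q189.IB.Fin

/-!
# Near relations of incomplete beta integrals at almost all tuples of algebraic integers
-/

set_option autoImplicit false

open PowerSeries

namespace Pool.Agent.Q189.IB

open Pool.Agent.Y916.Af (Vc Free)
open Pool.Agent.Y916.Al (evc)
open Pool.Agent.Y916.Sl Pool.Agent.Q189.MF Pool.Agent.Q246.NR Pool.Agent.Q246.NR2
open Pool.Agent.Q189.JM (aint_norm)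

variable {k s g : ℕ}

/-- the numbers `∫_0^(1/t_j) t^(u_c-1) (1-t)^(v_c-1) dt` -/
noncomputable def bn (u v : Fin s → ℚ) (t : Fin k → ℝ) (a : Fin k × Fin s) : ℂ :=
  ((inc (u a.2) (v a.2) (1 / t a.1) : ℝ) : ℂ)

/-- the property of a tuple -/
def GT (u v : Fin s → ℚ) (d B : ℕ) (ζ : Fin g → ℂ) (x : Fin k → ℂ) (H : ℝ) : Prop :=
  ∀ t : Fin k → ℝ, (∀ j, 1 < t j ∧ ((t j : ℝ) : ℂ) = x j) →
    (∀ P : MvPolynomial ((Fin k × Fin s) ⊕ Fin k) ℤ, P.totalDegree ≤ d → (∀ e, |((P.coeff e : ℤ) : ℝ)| ≤ H) →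
      (∃ w : Fin k × Fin s → ℂ, MvPolynomial.aeval (Sum.elim w x) P ≠ 0) →
      1 ≤ H ^ B * ‖MvPolynomial.aeval (Sum.elim (bn u v t) x) P‖) ∧
    ∀ P : MvPolynomial ((Fin k × Fin s) ⊕ (Fin g ⊕ Fin k)) ℤ, P.totalDegree ≤ d → (∀ e, |((P.coeff e : ℤ) : ℝ)| ≤ H) →
      ∀ w : Fin k × Fin s → ℂ, ‖MvPolynomial.aeval (Sum.elim w (Sum.elim ζ x)) P‖ ≤
        (H * max 1 ‖w‖) ^ B * ‖MvPolynomial.aeval (Sum.elim (bn u v t) (Sum.elim ζ x)) P‖

lemma GT.mono {u v : Fin s → ℚ} {d B : ℕ} {ζ : Fin g → ℂ} {x : Fin k → ℂ} {H H' : ℝ} (h1 : 1 ≤ H)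
    (h2 : H ≤ H') (h3 : H' ≤ H ^ 2) (hg : GT u v d B ζ x H') : GT u v d (2 * B) ζ x H := by
  intro t ht
  obtain ⟨g1, g2⟩ := hg t ht
  refine ⟨fun P hd hH hy => ?_, fun P hd hH w => ?_⟩
  · refine (g1 P hd (fun e => (hH e).trans h2) hy).trans ?_
    refine mul_le_mul_of_nonneg_right ?_ (norm_nonneg _)
    rw [pow_mul]
    exact pow_le_pow_left₀ (by linarith) h3 _
  · refine (g2 P hd (fun e => (hH e).trans h2) w).trans ?_
    refine mul_le_mul_of_nonneg_right ?_ (norm_nonneg _)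
    rw [pow_mul]
    have h4 : 1 ≤ max 1 ‖w‖ := le_max_left _ _
    refine pow_le_pow_left₀ (mul_nonneg (by linarith) (by positivity)) ?_ _
    calc H' * max 1 ‖w‖ ≤ H ^ 2 * max 1 ‖w‖ := mul_le_mul_of_nonneg_right h3 (by positivity)
      _ ≤ H ^ 2 * max 1 ‖w‖ ^ 2 := mul_le_mul_of_nonneg_left (le_self_pow₀ h4 (by norm_num)) (by positivity)
      _ = _ := by ring

/-- the roots of `1/t` and `1 - 1/t` -/
noncomputable def rr (D : ℕ) (x : Fin k → ℂ) (b : Fin k × Fin 2) : ℂ :=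
  ((if b.2 = 0 then (1 / (x b.1).re) ^ (1 / (D : ℝ)) else (1 - 1 / (x b.1).re) ^ (1 / (D : ℝ)) : ℝ) : ℂ)

section
variable {D : ℕ} (hD : 0 < D) {x : Fin k → ℂ} {t : Fin k → ℝ} (ht : ∀ j, 1 < t j ∧ ((t j : ℝ) : ℂ) = x j)
include hD ht

lemma re_x (j : Fin k) : (x j).re = t j := by rw [← (ht j).2, Complex.ofReal_re]

lemma rr_zero (j : Fin k) : rr D x (j, 0) = (((1 / t j) ^ (1 / (D : ℝ)) : ℝ) : ℂ) := by
  unfold rr
  rw [if_pos rfl, re_x hD ht]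

lemma rr_one (j : Fin k) : rr D x (j, 1) = (((1 - 1 / t j) ^ (1 / (D : ℝ)) : ℝ) : ℂ) := by
  unfold rr
  rw [if_neg (by simp), re_x hD ht]

lemma t_bd (j : Fin k) : 0 < 1 / t j ∧ 1 / t j < 1 := by
  have := (ht j).1
  exact ⟨by positivity, (div_lt_one (by linarith)).2 this⟩

lemma rr_norm (b : Fin k × Fin 2) : rr D x b ≠ 0 ∧ ‖rr D x b‖ ≤ 1 := by
  obtain ⟨j, i⟩ := b
  obtain ⟨h1, h2⟩ := t_bd hD ht j
  by_cases hi : i = 0
  · subst hi
    rw [rr_zero hD ht, Complex.ofReal_ne_zero, Complex.norm_real, Real.norm_eq_abs, abs_of_nonneg (by positivity)]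
    exact ⟨(Real.rpow_pos_of_pos h1 _).ne', Real.rpow_le_one h1.le h2.le (by positivity)⟩
  · have hi1 : i = 1 := by omega
    subst hi1
    have h3 : 0 < 1 - 1 / t j := by linarith
    rw [rr_one hD ht, Complex.ofReal_ne_zero, Complex.norm_real, Real.norm_eq_abs, abs_of_nonneg (by positivity)]
    exact ⟨(Real.rpow_pos_of_pos h3 _).ne', Real.rpow_le_one h3.le (by linarith) (by positivity)⟩

lemma rr_eq (j : Fin k) : x j * rr D x (j, 0) ^ D = 1 ∧ rr D x (j, 1) ^ D = 1 - rr D x (j, 0) ^ D := by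
  obtain ⟨h1, h2⟩ := t_bd hD ht j
  have h3 : 0 < 1 - 1 / t j := by linarith
  have e : ∀ y : ℝ, 0 ≤ y → (((y ^ (1 / (D : ℝ)) : ℝ) : ℂ)) ^ D = (y : ℂ) := by
    intro y hy
    rw [← Complex.ofReal_pow, ← Real.rpow_natCast, ← Real.rpow_mul hy, one_div_mul_cancel (by positivity), Real.rpow_one]
  rw [rr_zero hD ht, rr_one hD ht, e _ h1.le, e _ h3.le, ← (ht j).2]
  constructor
  · rw [← Complex.ofReal_mul, mul_one_div_cancel (by have := (ht j).1; linarith), Complex.ofReal_one]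
  · push_cast
    ring

lemma bn_eq (hINT : S_INT) {u v : Fin s → ℚ} {p q : Fin s → ℕ} (huv : ∀ c, u c = (p c : ℚ) / D ∧ v c = (q c : ℚ) / D)
    (hu0 : ∀ c, 0 < u c) (a : Fin k × Fin s) :
    bn u v t a = rr D x (a.1, 0) ^ p a.2 * rr D x (a.1, 1) ^ q a.2 * hx u v x a := by
  obtain ⟨h1, h2⟩ := t_bd hD ht a.1
  have h3 : 0 < 1 - 1 / t a.1 := by linarith
  obtain ⟨-, h4⟩ := hINT (u a.2) (v a.2) (1 / t a.1) (hu0 _) h1 h2
  have e : ∀ (y : ℝ) (n : ℕ), 0 ≤ y → (((y ^ (1 / (D : ℝ)) : ℝ) : ℂ)) ^ n = ((y ^ ((n : ℝ) / D) : ℝ) : ℂ) := by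
    intro y n hy
    rw [← Complex.ofReal_pow, ← Real.rpow_natCast, ← Real.rpow_mul hy]
    congr 2
    ring
  unfold bn
  rw [h4, rr_zero hD ht, rr_one hD ht, e _ _ h1.le, e _ _ h3.le]
  have e1 : ((u a.2 : ℚ) : ℝ) = (p a.2 : ℝ) / D := by rw [(huv a.2).1]; push_cast; rfl
  have e2 : ((v a.2 : ℚ) : ℝ) = (q a.2 : ℝ) / D := by rw [(huv a.2).2]; push_cast; rfl
  rw [← e1, ← e2, Complex.ofReal_mul, Complex.ofReal_mul]
  congr 1
  unfold hx Pool.Agent.Y916.Al.evc hs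
  rw [Complex.ofReal_tsum, ← (ht a.1).2]
  refine tsum_congr fun m => ?_
  rw [coeff_mk]
  push_cast
  rfl

end

/-- the coefficients of a polynomial as a polynomial in the first variables -/
noncomputable def pc {κ : Type} [Fintype κ] [DecidableEq κ] {d : ℕ} (P : MvPolynomial ((Fin k × Fin s) ⊕ κ) ℤ) (z : κ → ℂ)
    (e : Fin k × Fin s → Fin (d + 1)) : ℂ := ∑ w : κ → Fin (d + 1), ((P.coeff (tB (Sum.elim e w)) : ℤ) : ℂ) * ∏ j, z j ^ (w j : ℕ)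

lemma pc_eval {κ : Type} [Fintype κ] [DecidableEq κ] {d : ℕ} {P : MvPolynomial ((Fin k × Fin s) ⊕ κ) ℤ} (hP : P.totalDegree ≤ d)
    (z : κ → ℂ) (y : Fin k × Fin s → ℂ) : MvPolynomial.aeval (Sum.elim y z) P = pl (pc (d := d) P z) y := by
  rw [eval_two P hP y z]
  unfold pl pc
  refine Finset.sum_congr rfl fun e _ => ?_
  rw [Finset.sum_mul]
  exact Finset.sum_congr rfl fun w _ => by ring

lemma pc_norm {κ : Type} [Fintype κ] [DecidableEq κ] {d : ℕ} (P : MvPolynomial ((Fin k × Fin s) ⊕ κ) ℤ) {H X : ℝ}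
    (hH : ∀ e, |((P.coeff e : ℤ) : ℝ)| ≤ H) (z : κ → ℂ) (hX : 1 ≤ X) (hz : ∀ j, ‖z j‖ ≤ X) :
    ‖pc (d := d) P z‖ ≤ ((d : ℝ) + 1) ^ Fintype.card κ * (H * X ^ (d * Fintype.card κ)) := by
  have hH0 : 0 ≤ H := (abs_nonneg _).trans (hH 0)
  refine (pi_norm_le_iff_of_nonneg (by positivity)).2 fun e => ?_
  unfold pc
  refine (norm_sum_le _ _).trans ?_
  calc _ ≤ ∑ _w : κ → Fin (d + 1), H * X ^ (d * Fintype.card κ) := by
        refine Finset.sum_le_sum fun w _ => ?_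
        rw [norm_mul, norm_prod, Complex.norm_intCast]
        refine mul_le_mul (hH _) ?_ (Finset.prod_nonneg fun _ _ => norm_nonneg _) hH0
        rw [pow_mul, ← Finset.card_univ, ← Finset.prod_const]
        refine Finset.prod_le_prod (fun _ _ => norm_nonneg _) fun j _ => ?_
        rw [norm_pow]
        have h2 : (w j : ℕ) ≤ d := by have := (w j).2; omega
        exact (pow_le_pow_left₀ (norm_nonneg _) (hz j) _).trans (pow_le_pow_right₀ hX h2)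
    _ = _ := by
        rw [Finset.sum_const, Finset.card_univ, nsmul_eq_mul, Fintype.card_pi, Finset.prod_const, Fintype.card_fin,
          Finset.card_univ]
        push_cast
        ring

end Pool.Agent.Q189.IB
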