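import Pool.Agent.Q189.IB.Tup

/-!
# Near relations of incomplete beta integrals at almost all tuples of algebraic integers: the theorem
-/

set_option autoImplicit false

open PowerSeries

namespace Pool.Agent.Q189.IB

open Pool.Agent.Y916.Af (Vc Free)
open Pool.Agent.Y916.Al (evc)
open Pool.Agent.Y916.Sl Pool.Agent.Q189.MF Pool.Agent.Q246.NR Pool.Agent.Q246.NR2
open Pool.Agent.Q189.JM (aint_norm)

variable {k s g : ℕ}

/-- the algebraic factors -/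
noncomputable def tht (D : ℕ) (p q : Fin s → ℕ) (x : Fin k → ℂ) (a : Fin k × Fin s) : ℂ :=
  rr D x (a.1, 0) ^ p a.2 * rr D x (a.1, 1) ^ q a.2

/-- the roots of unity -/
noncomputable def chi {D : ℕ} (p q : Fin s → ℕ) (ω : ℂ) (l : Fin k × Fin 2 → Fin D) (a : Fin k × Fin s) : ℂ :=
  (ω ^ (l (a.1, 0) : ℕ)) ^ p a.2 * (ω ^ (l (a.1, 1) : ℕ)) ^ q a.2

lemma norm_prim {D : ℕ} (hD : 0 < D) {ω : ℂ} (hω : IsPrimitiveRoot ω D) : ‖ω‖ = 1 := by
  have h1 : ‖ω‖ ^ D = 1 := by rw [← norm_pow, hω.pow_eq_one, norm_one]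
  exact (pow_eq_one_iff_of_nonneg (norm_nonneg _) hD.ne').1 h1

lemma chi_norm {D : ℕ} (hD : 0 < D) (p q : Fin s → ℕ) {ω : ℂ} (hω : IsPrimitiveRoot ω D) (l : Fin k × Fin 2 → Fin D)
    (a : Fin k × Fin s) : ‖chi p q ω l a‖ = 1 := by
  unfold chi
  rw [norm_mul, norm_pow, norm_pow, norm_pow, norm_pow, norm_prim hD hω]
  simp

/-- the size of the data at `x` -/
noncomputable def mu (u v : Fin s → ℚ) (D : ℕ) (p q : Fin s → ℕ) (d a₀ : ℕ) (x : Fin k → ℂ) : ℝ :=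
  1 + ‖hx u v x‖ + (∑ e : Fin k × Fin s → Fin (d + 1), ∏ i, ‖tht D p q x i‖⁻¹ ^ (e i : ℕ)) +
    (∏ b : Fin k × Fin 2, ‖x b.1‖ ^ a₀) + ∑ j, ‖Complex.log (x j)‖

theorem hgd_fam (hINT : S_INT) (hNRM : S_NRM) (hMIN : S_MIN) {u v : Fin s → ℚ}
    (hAI : AlgebraicIndependent (Polynomial ℚ) (fun j => hs (u j) (v j))) {D : ℕ} (hD : 0 < D) {p q : Fin s → ℕ}
    (huv : ∀ c, u c = (p c : ℚ) / D ∧ v c = (q c : ℚ) / D) (hu0 : ∀ c, 0 < u c) (k g m d : ℕ) :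
    ∃ (dt e : ℕ), 1 ≤ e ∧ ∀ B₀ : ℕ, ∃ B : ℕ, ∀ T : ℕ, 1 ≤ T → ∃ H₀ : ℝ, ∀ (ζ : Fin g → ℂ) (x : Fin k → ℂ) (H : ℝ), H₀ ≤ H →
      (∀ j, AInt m T (x j)) → GdD (fun _ => fam u v) dt B₀ ζ x (H ^ e) → GT u v d B ζ x H := by
  classical
  obtain ⟨a1, d1, e1, A1, hA1, h1⟩ := npoly hNRM k s (Fin k) hD p q d
  obtain ⟨a2, d2, e2, A2, hA2, h2⟩ := npoly hNRM k s (Fin g ⊕ Fin k) hD p q d
  obtain ⟨A, hA, hI⟩ := ineq hMIN (Fin k × Fin s) (Fin k × Fin 2 → Fin D) d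
  set L := Fintype.card (Fin k × Fin 2 → Fin D) with hL
  set n := Fintype.card (Fin k × Fin s) with hn
  set e : ℕ := max e1 e2 + 1 with he
  set K : ℝ := ((d : ℝ) + 1) ^ n with hK
  set E : ℕ := 1 + d * n * (L - 1) with hE
  set l₀ : Fin k × Fin 2 → Fin D := fun _ => ⟨0, hD⟩ with hl₀
  have hω : IsPrimitiveRoot (Complex.exp (2 * Real.pi * Complex.I / D)) D := Complex.isPrimitiveRoot_exp D hD.ne'
  set ω := Complex.exp (2 * Real.pi * Complex.I / D) with hωd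
  have hχ0 : chi (k := k) p q ω l₀ = 1 := by
    funext a
    unfold chi
    simp [hl₀]
  refine ⟨max d1 d2, e, by omega, fun B₀ => ⟨(e * B₀ + 1 + (3 + d * n) * (L - 1)) + (1 + (e + 1) * B₀ + E + d * n),
    fun T hT => ?_⟩⟩
  have hTR : (1 : ℝ) ≤ T := by exact_mod_cast hT
  set F₀ : ℝ := ((d : ℝ) + 1) ^ k * (T : ℝ) ^ (d * k) with hF₀
  -- the finite set
  obtain ⟨μT, hμT⟩ : ∃ μT : ℝ, ∀ x : Fin k → ℂ, (∀ j, AInt m T (x j)) → mu u v D p q d a1 x ≤ μT := by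
    have hfin : {x : Fin k → ℂ | ∀ j, AInt m T (x j)}.Finite := by
      refine (Finset.finite_toSet (Fintype.piFinset fun _ : Fin k => NF m T)).subset fun x hm => ?_
      exact Finset.mem_coe.2 (Fintype.mem_piFinset.2 fun j => mem_NF.2 (hm j))
    obtain ⟨μT, hμ⟩ := (hfin.image (mu u v D p q d a1)).bddAbove
    exact ⟨μT, fun x hm => hμ ⟨x, hm, rfl⟩⟩
  refine ⟨max (max (max μT A1) (max A2 A)) (max (max ((L : ℝ) * d + 1) K) F₀), fun ζ x H hH hxa hg t ht => ?_⟩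
  have b1 : μT ≤ H := (le_max_left _ _).trans ((le_max_left _ _).trans ((le_max_left _ _).trans hH))
  have b2 : A1 ≤ H := (le_max_right _ _).trans ((le_max_left _ _).trans ((le_max_left _ _).trans hH))
  have b3 : A2 ≤ H := (le_max_left _ _).trans ((le_max_right _ _).trans ((le_max_left _ _).trans hH))
  have b4 : A ≤ H := (le_max_right _ _).trans ((le_max_right _ _).trans ((le_max_left _ _).trans hH))
  have b5 : (L : ℝ) * d + 1 ≤ H := (le_max_left _ _).trans ((le_max_left _ _).trans ((le_max_right _ _).trans hH))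
  have b6 : K ≤ H := (le_max_right _ _).trans ((le_max_left _ _).trans ((le_max_right _ _).trans hH))
  have b7 : F₀ ≤ H := (le_max_right _ _).trans ((le_max_right _ _).trans hH)
  have hH1 : 1 ≤ H := hA1.trans b2
  have hH0 : 0 < H := by linarith
  have hμ := (hμT x hxa).trans b1
  unfold mu at hμ
  -- the parts of mu
  have p1 : 0 ≤ ‖hx u v x‖ := norm_nonneg _
  have p2 : ∀ e : Fin k × Fin s → Fin (d + 1), 0 ≤ ∏ i, ‖tht D p q x i‖⁻¹ ^ (e i : ℕ) := fun e =>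
    Finset.prod_nonneg fun i _ => by positivity
  have p2' : 0 ≤ ∑ e : Fin k × Fin s → Fin (d + 1), ∏ i, ‖tht D p q x i‖⁻¹ ^ (e i : ℕ) := Finset.sum_nonneg fun e _ => p2 e
  have p3 : 0 ≤ ∏ b : Fin k × Fin 2, ‖x b.1‖ ^ a1 := Finset.prod_nonneg fun i _ => by positivity
  have p4 : 0 ≤ ∑ j, ‖Complex.log (x j)‖ := Finset.sum_nonneg fun i _ => norm_nonneg _
  have q1 : ‖hx u v x‖ ≤ H := by linarith
  have q2 : ∀ e : Fin k × Fin s → Fin (d + 1), ∏ i, ‖tht D p q x i‖⁻¹ ^ (e i : ℕ) ≤ H := fun e => by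
    have := Finset.single_le_sum (f := fun e : Fin k × Fin s → Fin (d + 1) => ∏ i, ‖tht D p q x i‖⁻¹ ^ (e i : ℕ))
      (fun e _ => p2 e) (Finset.mem_univ e)
    linarith
  have q3 : ∏ b : Fin k × Fin 2, ‖x b.1‖ ^ a1 ≤ H := by linarith
  have q4 : ∀ j, ‖Complex.log (x j)‖ ≤ H := fun j => by
    have := Finset.single_le_sum (f := fun j => ‖Complex.log (x j)‖) (fun e _ => norm_nonneg _) (Finset.mem_univ j)
    linarith
  have hHe : H ≤ H ^ e := le_self_pow₀ hH1 (by omega)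
  have hx0 : ∀ j, x j ≠ 0 := fun j h0 => by
    have h3 := (ht j).1
    have h4 := re_x hD ht j
    rw [h0, Complex.zero_re] at h4
    linarith
  obtain ⟨g1, g2⟩ := gd1 hAI (by positivity) hx0 (fun j => (q4 j).trans hHe) hg
  have hbn : bn u v t = fun a => tht D p q x a * hx u v x a := by
    funext a
    exact bn_eq hD ht hINT huv hu0 a
  have hr0 : ∀ b, rr D x b ≠ 0 := fun b => (rr_norm hD ht b).1
  have hreq := rr_eq hD ht
  have hθ0 : ∀ a, tht D p q x a ≠ 0 := fun a => mul_ne_zero (pow_ne_zero _ (hr0 _)) (pow_ne_zero _ (hr0 _))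
  have hθ1 : ∀ a, ‖tht D p q x a‖ ≤ 1 := by
    intro a
    unfold tht
    rw [norm_mul, norm_pow, norm_pow]
    exact mul_le_one₀ (pow_le_one₀ (norm_nonneg _) (rr_norm hD ht _).2) (by positivity)
      (pow_le_one₀ (norm_nonneg _) (rr_norm hD ht _).2)
  have hχ : ∀ (l : Fin k × Fin 2 → Fin D) a, ‖chi (s := s) p q ω l a‖ = 1 := fun l a => chi_norm hD p q hω l a
  have hgrid : ∀ y : Fin k × Fin s → Fin (L * d + 1), max 1 ‖(fun i => ((y i : ℕ) : ℂ) : Fin k × Fin s → ℂ)‖ ≤ H := by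
    intro y
    refine max_le hH1 ((pi_norm_le_iff_of_nonneg hH0.le).2 fun i => ?_)
    rw [Complex.norm_natCast]
    have h3 : (y i : ℕ) ≤ L * d := by have := (y i).2; omega
    have h4 : ((y i : ℕ) : ℝ) ≤ (L : ℝ) * d := by exact_mod_cast h3
    linarith
  refine ⟨fun P hPd hPH hw => ?_, fun P hPd hPH w => ?_⟩
  · obtain ⟨N', hN1, hN2, hN3⟩ := h1 ω hω id P H hH1 hPd hPH
    have hN2' : ∀ e', |((N'.coeff e' : ℤ) : ℝ)| ≤ H ^ e := fun e' => (hN2 e').trans (by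
      calc A1 * H ^ e1 ≤ H * H ^ e1 := mul_le_mul_of_nonneg_right b2 (by positivity)
        _ = H ^ (e1 + 1) := by ring
        _ ≤ H ^ e := pow_le_pow_right₀ hH1 (by omega))
    obtain ⟨hz0, hN4⟩ := hN3 (rr D x) x hr0 hreq
    have hN5 : ∀ y : Fin k × Fin s → ℂ, MvPolynomial.aeval (Sum.elim y x) N' = (∏ b : Fin k × Fin 2, x b.1 ^ a1) *
        ∏ l : Fin k × Fin 2 → Fin D, pl (pc (d := d) P x) (fun a => chi p q ω l a * (tht D p q x a * y a)) := by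
      intro y
      rw [hN4 y]
      congr 1
      exact Finset.prod_congr rfl fun l _ => pc_eval hPd x _
    have hZ0 : 0 < ∏ b : Fin k × Fin 2, ‖x b.1‖ ^ a1 := Finset.prod_pos fun b _ => pow_pos (norm_pos_iff.2 (hx0 _)) _
    have hN6 : ∀ y : Fin k × Fin s → ℂ, ‖MvPolynomial.aeval (Sum.elim y x) N'‖ = (∏ b : Fin k × Fin 2, ‖x b.1‖ ^ a1) *
        ∏ l : Fin k × Fin 2 → Fin D, ‖pl (pc (d := d) P x) (fun a => chi p q ω l a * (tht D p q x a * y a))‖ := by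
      intro y
      rw [hN5 y, norm_mul, norm_prod, norm_prod]
      congr 1
      exact Finset.prod_congr rfl fun b _ => norm_pow _ _
    have hxT : ∀ j, ‖x j‖ ≤ T := fun j => aint_norm (hxa j)
    have hF := pc_norm (d := d) P hPH x hTR hxT
    rw [Fintype.card_fin] at hF
    have hF' : ‖pc (d := d) P x‖ ≤ H * H := by
      refine hF.trans ?_
      calc ((d : ℝ) + 1) ^ k * (H * (T : ℝ) ^ (d * k)) = F₀ * H := by rw [hF₀]; ring
        _ ≤ H * H := mul_le_mul_of_nonneg_right b7 hH0.le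
    have h3 := ineq2 hMIN (Fin k × Fin s) (Fin k × Fin 2 → Fin D) d (pc (d := d) P x) (chi p q ω) l₀ (tht D p q x) (hx u v x)
      (H ^ (e * B₀) * ∏ b : Fin k × Fin 2, ‖x b.1‖ ^ a1) H (H * H) hχ hχ0 hθ0 hθ1 (by positivity) hH1 q1
      (by
        obtain ⟨w, hw⟩ := hw
        rw [pc_eval hPd] at hw
        exact ⟨w, hw⟩) hF' (fun y hy => by
        have h4 := g1 N' (hN1.trans (le_max_left _ _)) hN2' ⟨fun i => ((y i : ℕ) : ℂ), by
          rw [← norm_ne_zero_iff, hN6]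
          exact mul_ne_zero hZ0.ne' hy⟩
        rw [hN6, ← pow_mul] at h4
        rw [mul_assoc]
        exact h4)
    rw [← hn, ← hL, ← hK] at h3
    rw [pc_eval hPd, hbn]
    refine h3.trans (mul_le_mul_of_nonneg_right ?_ (norm_nonneg _))
    calc H ^ (e * B₀) * (∏ b : Fin k × Fin 2, ‖x b.1‖ ^ a1) * (K * (H * H * H ^ (d * n))) ^ (L - 1)
        ≤ H ^ (e * B₀) * H * (H * (H * H * H ^ (d * n))) ^ (L - 1) := by
          refine mul_le_mul (mul_le_mul_of_nonneg_left q3 (by positivity)) ?_ (by positivity) (by positivity)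
          exact pow_le_pow_left₀ (by positivity) (mul_le_mul_of_nonneg_right b6 (by positivity)) _
      _ = H ^ (e * B₀ + 1 + (3 + d * n) * (L - 1)) := by
          have e3 : H * (H * H * H ^ (d * n)) = H ^ (3 + d * n) := by ring
          rw [e3, ← pow_mul, pow_add, pow_add, pow_one]
      _ ≤ _ := pow_le_pow_right₀ hH1 (by omega)
  · obtain ⟨N', hN1, hN2, hN3⟩ := h2 ω hω Sum.inr P H hH1 hPd hPH
    have hN2' : ∀ e', |((N'.coeff e' : ℤ) : ℝ)| ≤ H ^ e := fun e' => (hN2 e').trans (by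
      calc A2 * H ^ e2 ≤ H * H ^ e2 := mul_le_mul_of_nonneg_right b3 (by positivity)
        _ = H ^ (e2 + 1) := by ring
        _ ≤ H ^ e := pow_le_pow_right₀ hH1 (by omega))
    obtain ⟨hz0, hN4⟩ := hN3 (rr D x) (Sum.elim ζ x) hr0 hreq
    have hZ0 : 0 < ∏ b : Fin k × Fin 2, ‖x b.1‖ ^ a2 := Finset.prod_pos fun b _ => pow_pos (norm_pos_iff.2 (hx0 _)) _
    have hN6 : ∀ y : Fin k × Fin s → ℂ, ‖MvPolynomial.aeval (Sum.elim y (Sum.elim ζ x)) N'‖ =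
        (∏ b : Fin k × Fin 2, ‖x b.1‖ ^ a2) * ∏ l : Fin k × Fin 2 → Fin D,
          ‖pl (pc (d := d) P (Sum.elim ζ x)) (fun a => chi p q ω l a * (tht D p q x a * y a))‖ := by
      intro y
      rw [hN4 y, norm_mul, norm_prod, norm_prod]
      congr 1
      · exact Finset.prod_congr rfl fun b _ => norm_pow _ _
      · exact Finset.prod_congr rfl fun l _ => by rw [pc_eval hPd]; rfl
    have h3 := hI (pc (d := d) P (Sum.elim ζ x)) (chi p q ω) l₀ (tht D p q x) (hx u v x) ((H ^ e * H) ^ B₀) H hχ hχ0 hθ0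
      (by positivity) hH1 q2 q1 (fun y => by
        have h4 := g2 N' (hN1.trans (le_max_right _ _)) hN2' fun i => ((y i : ℕ) : ℂ)
        rw [hN6, hN6] at h4
        have h5 : (H ^ e * max 1 ‖(fun i => ((y i : ℕ) : ℂ) : Fin k × Fin s → ℂ)‖) ^ B₀ ≤ (H ^ e * H) ^ B₀ :=
          pow_le_pow_left₀ (by positivity) (mul_le_mul_of_nonneg_left (hgrid y) (by positivity)) _
        have h6 := h4.trans (mul_le_mul_of_nonneg_right h5 (by positivity))
        refine le_of_mul_le_mul_left ?_ hZ0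
        refine h6.trans (le_of_eq ?_)
        ring) w
    rw [pc_eval hPd, pc_eval hPd, hbn]
    refine h3.trans (mul_le_mul_of_nonneg_right ?_ (norm_nonneg _))
    have hX1 : 1 ≤ max 1 ‖w‖ := le_max_left _ _
    have hX0 : 0 ≤ max 1 ‖w‖ := by linarith
    calc A * (H ^ e * H) ^ B₀ * H ^ E * max 1 ‖w‖ ^ (d * n) ≤ H * (H ^ e * H) ^ B₀ * H ^ E * max 1 ‖w‖ ^ (d * n) := by
          refine mul_le_mul_of_nonneg_right ?_ (by positivity)
          refine mul_le_mul_of_nonneg_right ?_ (by positivity)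
          exact mul_le_mul_of_nonneg_right b4 (by positivity)
      _ = H ^ (1 + (e + 1) * B₀ + E) * max 1 ‖w‖ ^ (d * n) := by
          rw [← pow_succ H e, ← pow_mul]
          ring
      _ ≤ H ^ ((e * B₀ + 1 + (3 + d * n) * (L - 1)) + (1 + (e + 1) * B₀ + E + d * n)) *
          max 1 ‖w‖ ^ ((e * B₀ + 1 + (3 + d * n) * (L - 1)) + (1 + (e + 1) * B₀ + E + d * n)) :=
          mul_le_mul (pow_le_pow_right₀ hH1 (by omega)) (pow_le_pow_right₀ hX1 (by omega)) (by positivity) (by positivity)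
      _ = _ := (mul_pow _ _ _).symm

theorem tup (hODE : S_ODE) (hSD : S_SD) (hAI : S_AI) (hGCH : S_GCH) (hGCX : S_GCX) (hQU : S_QU) (hINT : S_INT)
    (hNRM : S_NRM) (hMIN : S_MIN) {u v : Fin s → ℚ} (hpos : ∀ j, 0 < u j ∧ 0 < v j) (hz : ∀ j (z : ℤ), u j ≠ z ∧ v j ≠ z)
    (hd : ∀ i j, i ≠ j → ¬ ((∃ z : ℤ, u i - u j = z) ∧ ∃ z : ℤ, v i - v j = z)) (k g d m : ℕ) (hm : 1 ≤ m) :
    ∃ (B : ℕ) (C c : ℝ), 0 < c ∧ ∀ T : ℕ, 1 ≤ T →
    (∃ H₀ : ℝ, ∀ H₁ : ℝ, H₀ ≤ H₁ → ∀ ζ : Fin g → ℂ,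
      (({x : Fin k → ℂ | (∀ j, SInt m T (x j)) ∧ ¬ ∀ H : ℝ, H₁ ≤ H → H ≤ H₁ ^ Real.exp ((T : ℝ) ^ c) →
        GT u v d B ζ x H}.ncard : ℕ) : ℝ) ≤ C * (T : ℝ) ^ (-c) * (({ξ : ℂ | SInt m T ξ}.ncard : ℕ) : ℝ) ^ k) ∧
    ∀ ζ : Fin g → ℂ, (({x : Fin k → ℂ | (∀ j, SInt m T (x j)) ∧ ¬ ∀ N₀ : ℕ, ∃ N, N₀ ≤ N ∧
      (({j : ℕ | j < N ∧ ¬ ∀ H : ℝ, 2 ^ (2 ^ j) ≤ H → H ≤ 2 ^ (2 ^ (j + 1)) → GT u v d B ζ x H}.ncard : ℕ) : ℝ) ≤
          (T : ℝ) ^ (-c) * N}.ncard : ℕ) : ℝ) ≤ C * (T : ℝ) ^ (-c) * (({ξ : ℂ | SInt m T ξ}.ncard : ℕ) : ℝ) ^ k := by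
  obtain ⟨D, p, q, hD, huv⟩ := exists_den u v
  have hD0 : (0 : ℚ) < D := by exact_mod_cast hD
  have hpp : ∀ j, 0 < p j := by
    intro j
    have h1 := (hpos j).1
    rw [(huv j).1] at h1
    have h3 : (0 : ℚ) < p j := by
      rcases lt_or_ge (0 : ℚ) (p j) with h | h
      · exact h
      · exact absurd h1 (not_lt.2 (div_nonpos_of_nonpos_of_nonneg h hD0.le))
    exact_mod_cast h3
  have hqq : ∀ j, 0 < q j := by
    intro j
    have h1 := (hpos j).2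
    rw [(huv j).2] at h1
    have h3 : (0 : ℚ) < q j := by
      rcases lt_or_ge (0 : ℚ) (q j) with h | h
      · exact h
      · exact absurd h1 (not_lt.2 (div_nonpos_of_nonpos_of_nonneg h hD0.le))
    exact_mod_cast h3
  have hu : u = fun j => (p j : ℚ) / D := funext fun j => (huv j).1
  have hv : v = fun j => (q j : ℚ) / D := funext fun j => (huv j).2
  have hai := hAI s u v hpos hz hd
  have hG := gfs_fam hODE hSD hGCH hGCX hQU hD p q hpp
  rw [← hu, ← hv] at hG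
  have hS := SDc_fam hSD u v fun j => (hpos j).1
  have huv' : ∀ c, u c = ((p c).toNat : ℚ) / D ∧ v c = ((q c).toNat : ℚ) / D := by
    intro c
    have e1 : (((p c).toNat : ℕ) : ℚ) = (p c : ℚ) := by
      have := Int.toNat_of_nonneg (hpp c).le
      exact_mod_cast congrArg (fun z : ℤ => (z : ℚ)) this
    have e2 : (((q c).toNat : ℕ) : ℚ) = (q c : ℚ) := by
      have := Int.toNat_of_nonneg (hqq c).le
      exact_mod_cast congrArg (fun z : ℤ => (z : ℚ)) this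
    rw [e1, e2]
    exact huv c
  obtain ⟨dt, e, he, hmain⟩ := hgd_fam hINT hNRM hMIN hai hD (p := fun c => (p c).toNat) (q := fun c => (q c).toNat) huv'
    (fun c => (hpos c).1) k g m d
  refine torD (r := fun _ : Fin k => s + 1) (h := fun _ => fam u v) (fun _ => Pool.Agent.Q246.AF.t_famN hG) (fun _ => hG.hsize)
    (fun _ => conn_fam hai hS) g m dt e 0 hm he (fun ζ : Fin g → ℂ => ζ) (fun B ζ x H => GT u v d B ζ x H) (fun B₀ => ?_)
    (fun B ζ x H H' h1 h2 h3 hg => hg.mono h1 h2 h3)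
  obtain ⟨B, hB⟩ := hmain B₀
  refine ⟨B, fun T hT => ?_⟩
  obtain ⟨H₀, hH₀⟩ := hB T hT
  exact ⟨H₀, fun ζ x H hH hxa _ hg => hH₀ ζ x H hH hxa hg⟩

end Pool.Agent.Q189.IB
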