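import Pool.Agent.Q189.IB.Tup2
import Pool.Agent.Q189.IB.All
import Pool.Agent.Q190.IB.Nrm
import Pool.Agent.Q68.IB.Min

/-!
# Near relations of the two pieces of beta integrals
-/

set_option autoImplicit false

open PowerSeries

namespace Pool.Agent.Q189.IB

open Pool.Agent.Y916.Sl Pool.Agent.Q189.MF Pool.Agent.Q246.NR Pool.Agent.Q246.NR2
open Pool.Agent.Q189.JM (deg_aeval)

variable {k s g : ℕ}

/-- the beta values -/
noncomputable def bc (u v : Fin s → ℚ) (c : Fin s) : ℂ := ((inc (u c) (v c) 1 : ℝ) : ℂ)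

/-- `∫_0^(1/t_j)` and `∫_(1/t_j)^1` -/
noncomputable def pcs (u v : Fin s → ℚ) (t : Fin k → ℝ) (a : Fin k × Fin s × Fin 2) : ℂ :=
  (![inc (u a.2.1) (v a.2.1) (1 / t a.1), inc (v a.2.1) (u a.2.1) (1 - 1 / t a.1)] a.2.2 : ℝ)

/-- `y` and `B - y` -/
noncomputable def two (u v : Fin s → ℚ) (y : Fin k × Fin s → ℂ) (a : Fin k × Fin s × Fin 2) : ℂ :=
  ![y (a.1, a.2.1), bc u v a.2.1 - y (a.1, a.2.1)] a.2.2

/-- the property of a tuple -/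
def GU (u v : Fin s → ℚ) (d B : ℕ) (ζ : Fin g → ℂ) (x : Fin k → ℂ) (H : ℝ) : Prop :=
  ∀ t : Fin k → ℝ, (∀ j, 1 < t j ∧ ((t j : ℝ) : ℂ) = x j) →
    (∀ P : MvPolynomial ((Fin k × Fin s) ⊕ Fin k) ℤ, P.totalDegree ≤ d → (∀ e, |((P.coeff e : ℤ) : ℝ)| ≤ H) →
      (∃ w : Fin k × Fin s → ℂ, MvPolynomial.aeval (Sum.elim w x) P ≠ 0) →
      1 ≤ H ^ B * ‖MvPolynomial.aeval (Sum.elim (bn u v t) x) P‖) ∧
    ∀ P : MvPolynomial ((Fin k × Fin s × Fin 2) ⊕ (Fin g ⊕ Fin k)) ℤ, P.totalDegree ≤ d →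
      (∀ e, |((P.coeff e : ℤ) : ℝ)| ≤ H) → ∀ y : Fin k × Fin s → ℂ,
        ‖MvPolynomial.aeval (Sum.elim (two u v y) (Sum.elim ζ x)) P‖ ≤
          (H * max 1 ‖y‖) ^ B * ‖MvPolynomial.aeval (Sum.elim (pcs u v t) (Sum.elim ζ x)) P‖

lemma GU.mono {u v : Fin s → ℚ} {d B : ℕ} {ζ : Fin g → ℂ} {x : Fin k → ℂ} {H H' : ℝ} (h1 : 1 ≤ H)
    (h2 : H ≤ H') (h3 : H' ≤ H ^ 2) (hg : GU u v d B ζ x H') : GU u v d (2 * B) ζ x H := by
  intro t ht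
  obtain ⟨g1, g2⟩ := hg t ht
  refine ⟨fun P hd hH hy => ?_, fun P hd hH w => ?_⟩
  · refine (g1 P hd (fun e => (hH e).trans h2) hy).trans ?_
    refine mul_le_mul_of_nonneg_right ?_ (norm_nonneg _)
    rw [pow_mul]
    exact pow_le_pow_left₀ (by linarith) h3 _
  · refine (g2 P hd (fun e => (hH e).trans h2) w).trans ?_
    refine mul_le_mul_of_nonneg_right ?_ (norm_nonneg _)
    rw [pow_mul]
    have h4 : 1 ≤ max 1 ‖w‖ := le_max_left _ _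
    refine pow_le_pow_left₀ (mul_nonneg (by linarith) (by positivity)) ?_ _
    calc H' * max 1 ‖w‖ ≤ H ^ 2 * max 1 ‖w‖ := mul_le_mul_of_nonneg_right h3 (by positivity)
      _ ≤ H ^ 2 * max 1 ‖w‖ ^ 2 := mul_le_mul_of_nonneg_left (le_self_pow₀ h4 (by norm_num)) (by positivity)
      _ = _ := by ring

/-- the substitution -/
noncomputable def Sb (k s g : ℕ) : (Fin k × Fin s × Fin 2) ⊕ (Fin g ⊕ Fin k) →
    MvPolynomial ((Fin k × Fin s) ⊕ (Fin (s + g) ⊕ Fin k)) ℤ :=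
  Sum.elim (fun a => ![MvPolynomial.X (Sum.inl (a.1, a.2.1)),
      MvPolynomial.X (Sum.inr (Sum.inl (Fin.castAdd g a.2.1))) - MvPolynomial.X (Sum.inl (a.1, a.2.1))] a.2.2)
    (Sum.elim (fun i => MvPolynomial.X (Sum.inr (Sum.inl (Fin.natAdd s i)))) fun j => MvPolynomial.X (Sum.inr (Sum.inr j)))

lemma Sb_deg (v : (Fin k × Fin s × Fin 2) ⊕ (Fin g ⊕ Fin k)) : (Sb k s g v).totalDegree ≤ 1 := by
  rcases v with ⟨j, c, i⟩ | i | i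
  · fin_cases i
    · exact Pool.Agent.Q189.JM.dX' _
    · exact (MvPolynomial.totalDegree_sub _ _).trans (max_le (Pool.Agent.Q189.JM.dX' _) (Pool.Agent.Q189.JM.dX' _))
  · exact Pool.Agent.Q189.JM.dX' _
  · exact Pool.Agent.Q189.JM.dX' _

lemma Sb_len (v : (Fin k × Fin s × Fin 2) ⊕ (Fin g ⊕ Fin k)) : len (Sb k s g v) ≤ 2 := by
  have h0 : ∀ w : (Fin k × Fin s) ⊕ (Fin (s + g) ⊕ Fin k), len (MvPolynomial.X w :
      MvPolynomial ((Fin k × Fin s) ⊕ (Fin (s + g) ⊕ Fin k)) ℤ) ≤ 2 := by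
    intro w
    rw [len_X]
    norm_num
  rcases v with ⟨j, c, i⟩ | i | i
  · fin_cases i
    · exact h0 _
    · refine (len_sub _ _).trans ?_
      rw [len_X, len_X]
      norm_num
  · exact h0 _
  · exact h0 _

lemma Sb_eval (u v : Fin s → ℚ) (ζ : Fin g → ℂ) (x : Fin k → ℂ) (y : Fin k × Fin s → ℂ)
    (P : MvPolynomial ((Fin k × Fin s × Fin 2) ⊕ (Fin g ⊕ Fin k)) ℤ) :
    MvPolynomial.aeval (Sum.elim y (Sum.elim (Fin.append (bc u v) ζ) x)) (MvPolynomial.aeval (Sb k s g) P) =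
      MvPolynomial.aeval (Sum.elim (two u v y) (Sum.elim ζ x)) P := by
  have h1 : (fun w => MvPolynomial.aeval (Sum.elim y (Sum.elim (Fin.append (bc u v) ζ) x)) (Sb k s g w)) =
      Sum.elim (two u v y) (Sum.elim ζ x) := by
    funext w
    rcases w with ⟨j, c, i⟩ | i | i
    · fin_cases i
      · show MvPolynomial.aeval (Sum.elim y (Sum.elim (Fin.append (bc u v) ζ) x)) (MvPolynomial.X (Sum.inl (j, c))) = _
        rw [MvPolynomial.aeval_X]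
        rfl
      · show MvPolynomial.aeval (Sum.elim y (Sum.elim (Fin.append (bc u v) ζ) x))
          (MvPolynomial.X (Sum.inr (Sum.inl (Fin.castAdd g c))) - MvPolynomial.X (Sum.inl (j, c))) = _
        rw [map_sub, MvPolynomial.aeval_X, MvPolynomial.aeval_X]
        show Fin.append (bc u v) ζ (Fin.castAdd g c) - y (j, c) = _
        rw [Fin.append_left]
        rfl
    · show MvPolynomial.aeval (Sum.elim y (Sum.elim (Fin.append (bc u v) ζ) x))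
        (MvPolynomial.X (Sum.inr (Sum.inl (Fin.natAdd s i)))) = _
      rw [MvPolynomial.aeval_X]
      show Fin.append (bc u v) ζ (Fin.natAdd s i) = _
      rw [Fin.append_right]
      rfl
    · show MvPolynomial.aeval (Sum.elim y (Sum.elim (Fin.append (bc u v) ζ) x)) (MvPolynomial.X (Sum.inr (Sum.inr i))) = _
      rw [MvPolynomial.aeval_X]
      rfl
  rw [← h1]
  exact MvPolynomial.comp_aeval_apply (Sb k s g) (MvPolynomial.aeval (Sum.elim y (Sum.elim (Fin.append (bc u v) ζ) x))) P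

lemma pcs_eq {u v : Fin s → ℚ} (hpos : ∀ c, 0 < u c ∧ 0 < v c) {t : Fin k → ℝ} (ht : ∀ j, 1 < t j) :
    two u v (bn u v t) = pcs u v t := by
  funext a
  obtain ⟨j, c, i⟩ := a
  fin_cases i
  · rfl
  · show bc u v c - bn u v t (j, c) = ((inc (v c) (u c) (1 - 1 / t j) : ℝ) : ℂ)
    have h1 := Pool.Agent.Q238.IB.gam.2.1 (u c) (v c) (1 / t j) (by exact_mod_cast (hpos c).1) (by exact_mod_cast (hpos c).2)
      (by have := ht j; positivity) ((div_lt_one (by have := ht j; linarith)).2 (ht j))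
    unfold bc bn
    rw [h1]
    push_cast
    ring

theorem gu_of {u v : Fin s → ℚ} (hpos : ∀ c, 0 < u c ∧ 0 < v c) (k g d B : ℕ) : ∃ (B' : ℕ) (H₀ : ℝ),
    ∀ (ζ : Fin g → ℂ) (x : Fin k → ℂ) (H : ℝ), H₀ ≤ H → GT u v d B (Fin.append (bc u v) ζ) x (H ^ 2) → GU u v d B' ζ x H := by
  classical
  set V : ℕ := Fintype.card ((Fin k × Fin s × Fin 2) ⊕ (Fin g ⊕ Fin k)) with hV
  set A : ℝ := ((d : ℝ) + 1) ^ V * ((2 : ℝ) ^ d) ^ V with hA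
  refine ⟨2 * B, max 1 A, fun ζ x H hH hgt t ht => ?_⟩
  have hH1 : 1 ≤ H := (le_max_left _ _).trans hH
  have hHA : A ≤ H := (le_max_right _ _).trans hH
  have hH0 : 0 < H := by linarith
  obtain ⟨g1, g2⟩ := hgt t ht
  have h2 : H ≤ H ^ 2 := le_self_pow₀ hH1 (by norm_num)
  refine ⟨fun P hPd hPH hw => ?_, fun P hPd hPH y => ?_⟩
  · have h3 := g1 P hPd (fun e => (hPH e).trans h2) hw
    rwa [← pow_mul] at h3
  · have h1 := g2 (MvPolynomial.aeval (Sb k s g) P) (deg_aeval (Sb k s g) Sb_deg P hPd) (fun e => by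
      refine (abs_coeff_le_len _ _).trans ((Pool.Agent.Q189.JM.len_aeval (Sb k s g) 2 (by norm_num) Sb_len P hPd H hPH).trans ?_)
      calc _ = A * H := by rw [hA, hV]; ring
        _ ≤ H * H := mul_le_mul_of_nonneg_right hHA hH0.le
        _ = _ := by ring) y
    rw [Sb_eval, Sb_eval, pcs_eq hpos fun j => (ht j).1] at h1
    refine h1.trans (mul_le_mul_of_nonneg_right ?_ (norm_nonneg _))
    rw [pow_mul]
    have h4 : 1 ≤ max 1 ‖y‖ := le_max_left _ _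
    refine pow_le_pow_left₀ (by positivity) ?_ _
    calc H ^ 2 * max 1 ‖y‖ ≤ H ^ 2 * max 1 ‖y‖ ^ 2 :=
          mul_le_mul_of_nonneg_left (le_self_pow₀ h4 (by norm_num)) (by positivity)
      _ = _ := by ring

theorem TUPG {u v : Fin s → ℚ} (hpos : ∀ j, 0 < u j ∧ 0 < v j) (hz : ∀ j (z : ℤ), u j ≠ z ∧ v j ≠ z)
    (hd : ∀ i j, i ≠ j → ¬ ((∃ z : ℤ, u i - u j = z) ∧ ∃ z : ℤ, v i - v j = z)) (k g d m : ℕ) (hm : 1 ≤ m)
    {Z : Type} (zf : Z → Fin g → ℂ) (Gd : ℕ → Z → (Fin k → ℂ) → ℝ → Prop)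
    (himp : ∀ B₀ : ℕ, ∃ (B : ℕ) (H₀ : ℝ), ∀ z x H, H₀ ≤ H → GU u v d B₀ (zf z) x (H ^ 2) → Gd B z x H)
    (hmono : ∀ B z x H H', 1 ≤ H → H ≤ H' → H' ≤ H ^ 2 → Gd B z x H' → Gd (2 * B) z x H) :
    ∃ (B : ℕ) (C c : ℝ), 0 < c ∧ ∀ T : ℕ, 1 ≤ T →
    (∃ H₀ : ℝ, ∀ H₁ : ℝ, H₀ ≤ H₁ → ∀ ζ : Z,
      (({x : Fin k → ℂ | (∀ j, SInt m T (x j)) ∧ ¬ ∀ H : ℝ, H₁ ≤ H → H ≤ H₁ ^ Real.exp ((T : ℝ) ^ c) →
        Gd B ζ x H}.ncard : ℕ) : ℝ) ≤ C * (T : ℝ) ^ (-c) * (({ξ : ℂ | SInt m T ξ}.ncard : ℕ) : ℝ) ^ k) ∧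
    ∀ ζ : Z, (({x : Fin k → ℂ | (∀ j, SInt m T (x j)) ∧ ¬ ∀ N₀ : ℕ, ∃ N, N₀ ≤ N ∧
      (({j : ℕ | j < N ∧ ¬ ∀ H : ℝ, 2 ^ (2 ^ j) ≤ H → H ≤ 2 ^ (2 ^ (j + 1)) → Gd B ζ x H}.ncard : ℕ) : ℝ) ≤
          (T : ℝ) ^ (-c) * N}.ncard : ℕ) : ℝ) ≤ C * (T : ℝ) ^ (-c) * (({ξ : ℂ | SInt m T ξ}.ncard : ℕ) : ℝ) ^ k := by
  obtain ⟨D, p, q, hD, huv⟩ := exists_den u v
  have hD0 : (0 : ℚ) < D := by exact_mod_cast hD
  have hpp : ∀ j, 0 < p j := by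
    intro j
    have h1 := (hpos j).1
    rw [(huv j).1] at h1
    have h3 : (0 : ℚ) < p j := by
      rcases lt_or_ge (0 : ℚ) (p j) with h | h
      · exact h
      · exact absurd h1 (not_lt.2 (div_nonpos_of_nonpos_of_nonneg h hD0.le))
    exact_mod_cast h3
  have hqq : ∀ j, 0 < q j := by
    intro j
    have h1 := (hpos j).2
    rw [(huv j).2] at h1
    have h3 : (0 : ℚ) < q j := by
      rcases lt_or_ge (0 : ℚ) (q j) with h | h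
      · exact h
      · exact absurd h1 (not_lt.2 (div_nonpos_of_nonpos_of_nonneg h hD0.le))
    exact_mod_cast h3
  have hu : u = fun j => (p j : ℚ) / D := funext fun j => (huv j).1
  have hv : v = fun j => (q j : ℚ) / D := funext fun j => (huv j).2
  have hai := AI s u v hpos hz hd
  have hG := gfs_fam Pool.Agent.Q13.IB.ode Pool.Agent.Q31.IB.sd Pool.Agent.Q224.IB.gch Pool.Agent.Q224.IB.gcx QU hD p q hpp
  rw [← hu, ← hv] at hG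
  have hS := SDc_fam Pool.Agent.Q31.IB.sd u v fun j => (hpos j).1
  have huv' : ∀ c, u c = ((p c).toNat : ℚ) / D ∧ v c = ((q c).toNat : ℚ) / D := by
    intro c
    have e1 : (((p c).toNat : ℕ) : ℚ) = (p c : ℚ) := by
      have := Int.toNat_of_nonneg (hpp c).le
      exact_mod_cast congrArg (fun z : ℤ => (z : ℚ)) this
    have e2 : (((q c).toNat : ℕ) : ℚ) = (q c : ℚ) := by
      have := Int.toNat_of_nonneg (hqq c).le
      exact_mod_cast congrArg (fun z : ℤ => (z : ℚ)) this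
    rw [e1, e2]
    exact huv c
  obtain ⟨dt, e, he, hmain⟩ := hgd_fam Pool.Agent.Q129.IBInt.int Pool.Agent.Q190.IB.nrm Pool.Agent.Q68.IB.min hai hD
    (p := fun c => (p c).toNat) (q := fun c => (q c).toNat) huv' (fun c => (hpos c).1) k (s + g) m d
  refine torD (r := fun _ : Fin k => s + 1) (h := fun _ => fam u v) (fun _ => Pool.Agent.Q246.AF.t_famN hG) (fun _ => hG.hsize)
    (fun _ => conn_fam hai hS) (s + g) m dt (2 * (2 * e)) 0 hm (by omega) (fun ζ : Z => Fin.append (bc u v) (zf ζ))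
    Gd (fun B₀ => ?_) hmono
  obtain ⟨B, hB⟩ := hmain B₀
  obtain ⟨B', H₂, hB'⟩ := gu_of hpos k g d B
  obtain ⟨B'', H₃, hB''⟩ := himp B'
  refine ⟨B'', fun T hT => ?_⟩
  obtain ⟨H₀, hH₀⟩ := hB T hT
  refine ⟨max (max H₀ H₂) (max 1 H₃), fun ζ x H hH hxa _ hg => ?_⟩
  have b1 : H₀ ≤ H := (le_max_left _ _).trans ((le_max_left _ _).trans hH)
  have b2 : H₂ ≤ H := (le_max_right _ _).trans ((le_max_left _ _).trans hH)
  have b3 : 1 ≤ H := (le_max_left _ _).trans ((le_max_right _ _).trans hH)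
  have b4 : H₃ ≤ H := (le_max_right _ _).trans ((le_max_right _ _).trans hH)
  have b5 : H ≤ H ^ 2 := le_self_pow₀ b3 (by norm_num)
  have b6 : H ^ 2 ≤ (H ^ 2) ^ 2 := le_self_pow₀ (b3.trans b5) (by norm_num)
  rw [pow_mul, pow_mul] at hg
  exact hB'' ζ x H b4 (hB' _ x (H ^ 2) (b2.trans b5) (hH₀ _ x ((H ^ 2) ^ 2) (b1.trans (b5.trans b6)) hxa hg))

theorem TUP {u v : Fin s → ℚ} (hpos : ∀ j, 0 < u j ∧ 0 < v j) (hz : ∀ j (z : ℤ), u j ≠ z ∧ v j ≠ z)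
    (hd : ∀ i j, i ≠ j → ¬ ((∃ z : ℤ, u i - u j = z) ∧ ∃ z : ℤ, v i - v j = z)) (k g d m : ℕ) (hm : 1 ≤ m) :
    ∃ (B : ℕ) (C c : ℝ), 0 < c ∧ ∀ T : ℕ, 1 ≤ T →
    (∃ H₀ : ℝ, ∀ H₁ : ℝ, H₀ ≤ H₁ → ∀ ζ : Fin g → ℂ,
      (({x : Fin k → ℂ | (∀ j, SInt m T (x j)) ∧ ¬ ∀ H : ℝ, H₁ ≤ H → H ≤ H₁ ^ Real.exp ((T : ℝ) ^ c) →
        GU u v d B ζ x H}.ncard : ℕ) : ℝ) ≤ C * (T : ℝ) ^ (-c) * (({ξ : ℂ | SInt m T ξ}.ncard : ℕ) : ℝ) ^ k) ∧
    ∀ ζ : Fin g → ℂ, (({x : Fin k → ℂ | (∀ j, SInt m T (x j)) ∧ ¬ ∀ N₀ : ℕ, ∃ N, N₀ ≤ N ∧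
      (({j : ℕ | j < N ∧ ¬ ∀ H : ℝ, 2 ^ (2 ^ j) ≤ H → H ≤ 2 ^ (2 ^ (j + 1)) → GU u v d B ζ x H}.ncard : ℕ) : ℝ) ≤
          (T : ℝ) ^ (-c) * N}.ncard : ℕ) : ℝ) ≤ C * (T : ℝ) ^ (-c) * (({ξ : ℂ | SInt m T ξ}.ncard : ℕ) : ℝ) ^ k :=
  TUPG hpos hz hd k g d m hm (fun ζ : Fin g → ℂ => ζ) (fun B ζ x H => GU u v d B ζ x H)
    (fun B₀ => ⟨2 * B₀, 1, fun ζ x H hH hg => hg.mono hH (le_self_pow₀ hH (by norm_num)) le_rfl⟩)
    (fun B ζ x H H' h1 h2 h3 hg => hg.mono h1 h2 h3)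

end Pool.Agent.Q189.IB
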