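import Pool.Agent.Q189.IB.Tup3

/-!
# Small linear forms in the products at one integer
-/

set_option autoImplicit false

open PowerSeries

namespace Pool.Agent.Q189.IB

variable {s : ℕ} {m : Fin s → ℕ}

/-- the exponents -/
def ex (i : ∀ c, Fin (m c + 1)) : (Fin 1 × Fin s × Fin 2) ⊕ (Fin 1 ⊕ Fin 1) → ℕ :=
  Sum.elim (fun a => ![(i a.2.1 : ℕ), m a.2.1 - i a.2.1] a.2.2) fun _ => 0

/-- the exponents -/
noncomputable def Ex (i : ∀ c, Fin (m c + 1)) : ((Fin 1 × Fin s × Fin 2) ⊕ (Fin 1 ⊕ Fin 1)) →₀ ℕ :=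
  Finsupp.equivFunOnFinite.symm (ex i)

/-- the linear form -/
noncomputable def LP (a₀ : ℤ) (al : (∀ c, Fin (m c + 1)) → ℤ) : MvPolynomial ((Fin 1 × Fin s × Fin 2) ⊕ (Fin 1 ⊕ Fin 1)) ℤ :=
  MvPolynomial.monomial (Finsupp.single (Sum.inr (Sum.inl 0)) 1) a₀ + ∑ i : ∀ c, Fin (m c + 1), MvPolynomial.monomial (Ex i) (al i)

lemma Ex_inj : Function.Injective (Ex (m := m)) := by
  intro i i' h
  funext c
  have h1 : Ex i (Sum.inl (0, c, 0)) = Ex i' (Sum.inl (0, c, 0)) := by rw [h]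
  exact Fin.ext h1

lemma Ex_ne (i : ∀ c, Fin (m c + 1)) : (Finsupp.single (Sum.inr (Sum.inl 0)) 1 :
    ((Fin 1 × Fin s × Fin 2) ⊕ (Fin 1 ⊕ Fin 1)) →₀ ℕ) ≠ Ex i := by
  intro h
  have h1 : (Finsupp.single (Sum.inr (Sum.inl 0)) 1 : ((Fin 1 × Fin s × Fin 2) ⊕ (Fin 1 ⊕ Fin 1)) →₀ ℕ) (Sum.inr (Sum.inl 0)) =
      Ex i (Sum.inr (Sum.inl 0)) := by rw [h]
  rw [Finsupp.single_eq_same] at h1
  exact one_ne_zero h1

lemma LP_coeff (a₀ : ℤ) (al : (∀ c, Fin (m c + 1)) → ℤ) {H : ℝ} (h0 : |(a₀ : ℝ)| ≤ H) (h1 : ∀ i, |(al i : ℝ)| ≤ H)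
    (e : ((Fin 1 × Fin s × Fin 2) ⊕ (Fin 1 ⊕ Fin 1)) →₀ ℕ) : |(((LP a₀ al).coeff e : ℤ) : ℝ)| ≤ H := by
  classical
  have hH : 0 ≤ H := (abs_nonneg _).trans h0
  unfold LP
  rw [MvPolynomial.coeff_add, MvPolynomial.coeff_sum, MvPolynomial.coeff_monomial]
  simp only [MvPolynomial.coeff_monomial]
  by_cases h : Finsupp.single (Sum.inr (Sum.inl 0)) 1 = e
  · rw [if_pos h, Finset.sum_eq_zero fun i _ => if_neg fun h2 => Ex_ne i (h.trans h2.symm), add_zero]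
    exact h0
  · rw [if_neg h, zero_add]
    by_cases h2 : ∃ i, Ex (m := m) i = e
    · obtain ⟨i, hi⟩ := h2
      rw [Finset.sum_eq_single i (fun j _ hj => if_neg fun h3 => hj (Ex_inj (h3.trans hi.symm)))
        (fun h => absurd (Finset.mem_univ _) h), if_pos hi]
      exact h1 i
    · rw [Finset.sum_eq_zero fun i _ => if_neg fun h3 => h2 ⟨i, h3⟩]
      simpa using hH

lemma Ex_deg (i : ∀ c, Fin (m c + 1)) : ((Ex i).sum fun _ e => e) = ∑ c, m c := by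
  rw [Finsupp.sum_fintype _ _ fun _ => rfl]
  show ∑ a, ex i a = _
  rw [Fintype.sum_sum_type, Fintype.sum_prod_type]
  simp only [Fintype.sum_prod_type, ex, Sum.elim_inl, Sum.elim_inr, Fin.sum_univ_two, Finset.sum_const_zero, add_zero,
    Matrix.cons_val_zero, Matrix.cons_val_one]
  rw [Fintype.sum_unique]
  refine Finset.sum_congr rfl fun c _ => ?_
  have := (i c).2
  omega

lemma LP_deg (a₀ : ℤ) (al : (∀ c, Fin (m c + 1)) → ℤ) : (LP a₀ al).totalDegree ≤ ∑ c, m c + 1 := by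
  unfold LP
  refine (MvPolynomial.totalDegree_add _ _).trans (max_le ?_ ?_)
  · refine (MvPolynomial.totalDegree_monomial_le _ _).trans ?_
    rw [Finsupp.sum_single_index (by rfl)]
    show 1 ≤ _
    omega
  · refine MvPolynomial.totalDegree_finsetSum_le fun i _ => (MvPolynomial.totalDegree_monomial_le _ _).trans ?_
    exact (le_of_eq (Ex_deg i)).trans (Nat.le_succ _)

lemma LP_eval (a₀ : ℤ) (al : (∀ c, Fin (m c + 1)) → ℤ) (f : Fin 1 × Fin s × Fin 2 → ℂ) (z x : Fin 1 → ℂ) :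
    MvPolynomial.aeval (Sum.elim f (Sum.elim z x)) (LP a₀ al) = a₀ * z 0 + ∑ i : ∀ c, Fin (m c + 1), (al i : ℂ) *
      ∏ c, f (0, c, 0) ^ (i c : ℕ) * f (0, c, 1) ^ (m c - i c) := by
  unfold LP
  rw [map_add, map_sum, MvPolynomial.aeval_monomial, Finsupp.prod_single_index (by simp)]
  congr 1
  · simp
  · refine Finset.sum_congr rfl fun i _ => ?_
    rw [MvPolynomial.aeval_monomial, Finsupp.prod_fintype _ _ fun _ => pow_zero _]
    congr 1
    show ∏ a, (Sum.elim f (Sum.elim z x) a) ^ ex i a = _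
    rw [Fintype.prod_sum_type, Fintype.prod_prod_type]
    simp only [Fintype.prod_prod_type, ex, Sum.elim_inl, Sum.elim_inr, Fin.prod_univ_two, pow_zero, Finset.prod_const_one,
      mul_one, Matrix.cons_val_zero, Matrix.cons_val_one]
    rw [Fintype.prod_unique]
    rfl

/-- extraction of the coefficients -/
theorem extract (hMIN : S_MIN) (m : Fin s → ℕ) : ∃ A : ℝ, 1 ≤ A ∧ ∀ γ : (∀ c, Fin (m c + 1)) → ℂ, ∃ t : Fin s → ℕ,
    (∀ c, t c ≤ ∑ c, m c) ∧ ∀ i, ‖γ i‖ ≤ A * ‖∑ i : ∀ c, Fin (m c + 1), γ i * ∏ c, (t c : ℂ) ^ (i c : ℕ)‖ := by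
  classical
  set M := ∑ c, m c with hM
  have hmM : ∀ c, m c ≤ M := fun c => Finset.single_le_sum (f := m) (fun _ _ => Nat.zero_le _) (Finset.mem_univ c)
  obtain ⟨c₀, hc₀, h⟩ := hMIN (Fin s) (Fin 1) M
  refine ⟨max 1 c₀⁻¹, le_max_left _ _, fun γ => ?_⟩
  set emb : (∀ c, Fin (m c + 1)) → (Fin s → Fin (M + 1)) := fun i c => ⟨i c, by have := (i c).2; have := hmM c; omega⟩ with hemb
  have hinj : Function.Injective emb := by
    intro i i' hii
    funext c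
    have h1 := congrFun hii c
    have h2 : ((emb i c : Fin (M + 1)) : ℕ) = emb i' c := by rw [h1]
    exact Fin.ext h2
  set γ' : (Fin s → Fin (M + 1)) → ℂ := fun e => if hex : ∃ i, emb i = e then γ hex.choose else 0 with hγ'
  have hγ1 : ∀ i, γ' (emb i) = γ i := by
    intro i
    have hex : ∃ i', emb i' = emb i := ⟨i, rfl⟩
    rw [hγ']
    simp only
    rw [dif_pos hex]
    exact congrArg γ (hinj hex.choose_spec)
  obtain ⟨y, hy⟩ := h fun _ => γ'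
  rw [Fin.prod_univ_one, Fin.prod_univ_one] at hy
  have hsum : ∑ e : Fin s → Fin (M + 1), γ' e * ∏ c, ((y c : ℕ) : ℂ) ^ (e c : ℕ) =
      ∑ i : ∀ c, Fin (m c + 1), γ i * ∏ c, ((y c : ℕ) : ℂ) ^ (i c : ℕ) := by
    rw [← Finset.sum_subset (Finset.subset_univ (Finset.univ.image emb)), Finset.sum_image fun a _ b _ hab => hinj hab]
    · refine Finset.sum_congr rfl fun i _ => ?_
      rw [hγ1]
    · intro e _ he
      have hne : ¬ ∃ i, emb i = e := by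
        rintro ⟨i, hi⟩
        exact he (Finset.mem_image.2 ⟨i, Finset.mem_univ _, hi⟩)
      rw [hγ']
      simp only
      rw [dif_neg hne, zero_mul]
  refine ⟨fun c => (y c : ℕ), fun c => ?_, fun i => ?_⟩
  · have h4 : Fintype.card (Fin 1) * M + 1 = M + 1 := by rw [Fintype.card_fin, one_mul]
    have h5 : ((y c : Fin _) : ℕ) < M + 1 := (y c).2.trans_eq h4
    exact Nat.lt_succ_iff.1 h5
  · rw [← hsum]
    have h1 : ‖γ i‖ ≤ ‖γ'‖ := by
      rw [← hγ1 i]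
      exact norm_le_pi_norm _ _
    have h2 : ‖γ'‖ ≤ c₀⁻¹ * ‖∑ e : Fin s → Fin (M + 1), γ' e * ∏ c, ((y c : ℕ) : ℂ) ^ (e c : ℕ)‖ := by
      rw [← div_eq_inv_mul, le_div_iff₀ hc₀, mul_comm]
      exact hy
    exact h1.trans (h2.trans (mul_le_mul_of_nonneg_right (le_max_right _ _) (norm_nonneg _)))

lemma binom_sum (m : Fin s → ℕ) (t : Fin s → ℂ) :
    ∑ i : ∀ c, Fin (m c + 1), ((∏ c, (m c).choose (i c) : ℕ) : ℂ) * ∏ c, t c ^ (i c : ℕ) = ∏ c, (1 + t c) ^ m c := by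
  classical
  have h4 : ∀ c, (1 + t c) ^ m c = ∑ i : Fin (m c + 1), ((m c).choose i : ℂ) * t c ^ (i : ℕ) := by
    intro c
    rw [add_comm, add_pow, ← Fin.sum_univ_eq_sum_range (fun i => t c ^ i * 1 ^ (m c - i) * ((m c).choose i : ℂ))]
    exact Finset.sum_congr rfl fun i _ => by rw [one_pow]; ring
  simp only [h4]
  rw [Finset.prod_univ_sum]
  simp only [Fintype.piFinset_univ]
  refine Finset.sum_congr rfl fun i _ => ?_
  rw [Finset.prod_mul_distrib]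
  push_cast
  rfl

theorem lin (hMIN : S_MIN) {u v : Fin s → ℚ} (hpos : ∀ j, 0 < u j ∧ 0 < v j) (m : Fin s → ℕ) : ∃ A : ℝ, 1 ≤ A ∧
    ∀ (w : ℂ) (B n : ℕ) (H : ℝ), 2 ≤ n → 1 ≤ H →
      GU u v (∑ c, m c + 1) B (fun _ : Fin 1 => w) (fun _ : Fin 1 => (n : ℂ)) H →
      ∀ (a₀ : ℤ) (al : (∀ c, Fin (m c + 1)) → ℤ), |(a₀ : ℝ)| ≤ H → (∀ i, |(al i : ℝ)| ≤ H) → ∀ i,
        ‖(al i : ℂ) * ∏ c, bc u v c ^ m c + a₀ * ((∏ c, (m c).choose (i c) : ℕ) : ℂ) * w‖ ≤ A * (A * H) ^ B *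
          ‖(a₀ : ℂ) * w + ∑ i : ∀ c, Fin (m c + 1), (al i : ℂ) * ((prd u v m n i : ℝ) : ℂ)‖ := by
  classical
  obtain ⟨A₁, hA₁, hext⟩ := extract hMIN m
  have hB0 : ∀ c, bc u v c ≠ 0 := by
    intro c
    unfold bc
    rw [Complex.ofReal_ne_zero]
    exact (Pool.Agent.Q238.IB.gam.2.2 (u c) (v c) (by exact_mod_cast (hpos c).1) (by exact_mod_cast (hpos c).2)).ne'
  set M := ∑ c, m c with hM
  set A₂ : ℝ := ∏ c, (1 + (1 + M) / ‖bc u v c‖) ^ m c with hA₂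
  set A₃ : ℝ := 1 + ∑ c, ‖bc u v c‖ with hA₃
  set PB : ℂ := ∏ c, bc u v c ^ m c with hPB
  have hPB0 : PB ≠ 0 := Finset.prod_ne_zero_iff.2 fun c _ => pow_ne_zero _ (hB0 c)
  have hA₂1 : 1 ≤ A₂ := by
    have f0 : ∏ _c : Fin s, (1 : ℝ) ≤ ∏ c, (1 + (1 + M) / ‖bc u v c‖) ^ m c := by
      refine Finset.prod_le_prod (fun _ _ => zero_le_one) fun c _ => one_le_pow₀ ?_
      have : 0 ≤ (1 + (M : ℝ)) / ‖bc u v c‖ := by positivity
      linarith
    rwa [Finset.prod_const_one] at f0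
  have hA₃1 : 1 ≤ A₃ := by
    have : 0 ≤ ∑ c, ‖bc u v c‖ := Finset.sum_nonneg fun _ _ => norm_nonneg _
    rw [hA₃]
    linarith
  have hA₁0 : 0 < A₁ := by linarith
  have hA₂0 : 0 < A₂ := by linarith
  have hA₃0 : 0 < A₃ := by linarith
  have hPBn : 0 ≤ ‖PB‖ := norm_nonneg _
  refine ⟨A₁ * A₂ * A₃ * (1 + ‖PB‖), ?_, fun w B n H hn hH hg a₀ al h0 h1 i => ?_⟩
  · have e1 : 1 ≤ A₁ * A₂ := one_le_mul_of_one_le_of_one_le hA₁ hA₂1
    have e2 : 1 ≤ A₁ * A₂ * A₃ := one_le_mul_of_one_le_of_one_le e1 hA₃1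
    exact one_le_mul_of_one_le_of_one_le e2 (by linarith)
  have hn1 : (1 : ℝ) < n := by
    have : 1 < n := by omega
    exact_mod_cast this
  obtain ⟨-, hg2⟩ := hg (fun _ => (n : ℝ)) (fun _ => ⟨hn1, by simp⟩)
  set γ : (∀ c, Fin (m c + 1)) → ℂ := fun i => al i + a₀ * w * ((∏ c, (m c).choose (i c) : ℕ) : ℂ) / PB with hγ
  obtain ⟨t, ht, hγt⟩ := hext γ
  set y : Fin 1 × Fin s → ℂ := fun a => bc u v a.2 * t a.2 / (1 + t a.2) with hy
  have h2 := hg2 (LP a₀ al) (LP_deg a₀ al) (LP_coeff a₀ al h0 h1) y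
  rw [LP_eval, LP_eval] at h2
  have ht1 : ∀ c, (1 + (t c : ℂ)) ≠ 0 := by
    intro c
    have : ((1 + t c : ℕ) : ℂ) ≠ 0 := by
      have : 1 + t c ≠ 0 := by omega
      exact_mod_cast this
    push_cast at this
    exact this
  -- the values
  have e1 : ∀ i : ∀ c, Fin (m c + 1), ∏ c, two u v y (0, c, 0) ^ (i c : ℕ) * two u v y (0, c, 1) ^ (m c - i c) =
      (∏ c, (bc u v c / (1 + t c)) ^ m c) * ∏ c, (t c : ℂ) ^ (i c : ℕ) := by
    intro i
    rw [← Finset.prod_mul_distrib]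
    refine Finset.prod_congr rfl fun c _ => ?_
    have hi : (i c : ℕ) ≤ m c := Nat.lt_succ_iff.1 (i c).2
    have f1 : two u v y (0, c, 0) = bc u v c / (1 + t c) * t c := by
      show bc u v c * t c / (1 + t c) = _
      ring
    have f2 : two u v y (0, c, 1) = bc u v c / (1 + t c) := by
      show bc u v c - bc u v c * t c / (1 + t c) = _
      have := ht1 c
      field_simp
      ring
    rw [f1, f2, mul_pow]
    calc (bc u v c / (1 + t c)) ^ (i c : ℕ) * (t c : ℂ) ^ (i c : ℕ) * (bc u v c / (1 + t c)) ^ (m c - i c)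
        = ((bc u v c / (1 + t c)) ^ (i c : ℕ) * (bc u v c / (1 + t c)) ^ (m c - i c)) * (t c : ℂ) ^ (i c : ℕ) := by ring
      _ = _ := by rw [← pow_add, Nat.add_sub_cancel' hi]
  have e2 : (a₀ : ℂ) * w + ∑ i : ∀ c, Fin (m c + 1), (al i : ℂ) * ∏ c, two u v y (0, c, 0) ^ (i c : ℕ) *
      two u v y (0, c, 1) ^ (m c - i c) = (∏ c, (bc u v c / (1 + t c)) ^ m c) *
        ∑ i : ∀ c, Fin (m c + 1), γ i * ∏ c, (t c : ℂ) ^ (i c : ℕ) := by
    have f3 : (∏ c, (bc u v c / (1 + t c)) ^ m c) * (∏ c, (1 + (t c : ℂ)) ^ m c) = PB := by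
      rw [← Finset.prod_mul_distrib, hPB]
      refine Finset.prod_congr rfl fun c _ => ?_
      rw [← mul_pow, div_mul_cancel₀ _ (ht1 c)]
    have f4 : ∑ i : ∀ c, Fin (m c + 1), γ i * ∏ c, (t c : ℂ) ^ (i c : ℕ) =
        (∑ i : ∀ c, Fin (m c + 1), (al i : ℂ) * ∏ c, (t c : ℂ) ^ (i c : ℕ)) + a₀ * w / PB * ∏ c, (1 + (t c : ℂ)) ^ m c := by
      rw [← binom_sum m fun c => (t c : ℂ), Finset.mul_sum, ← Finset.sum_add_distrib]
      refine Finset.sum_congr rfl fun i _ => ?_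
      rw [hγ]
      simp only
      ring
    rw [f4, mul_add, Finset.mul_sum, add_comm]
    congr 1
    · refine Finset.sum_congr rfl fun i _ => ?_
      rw [e1]
      ring
    · calc (a₀ : ℂ) * w = a₀ * w / PB * PB := by field_simp
        _ = a₀ * w / PB * ((∏ c, (bc u v c / (1 + t c)) ^ m c) * (∏ c, (1 + (t c : ℂ)) ^ m c)) := by rw [f3]
        _ = _ := by ring
  have e3 : ∀ i : ∀ c, Fin (m c + 1), ∏ c, pcs u v (fun _ : Fin 1 => (n : ℝ)) (0, c, 0) ^ (i c : ℕ) *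
      pcs u v (fun _ : Fin 1 => (n : ℝ)) (0, c, 1) ^ (m c - i c) = ((prd u v m n i : ℝ) : ℂ) := by
    intro i
    unfold prd
    rw [Complex.ofReal_prod]
    refine Finset.prod_congr rfl fun c _ => ?_
    rw [Complex.ofReal_mul, Complex.ofReal_pow, Complex.ofReal_pow]
    rfl
  rw [e2] at h2
  simp only [e3] at h2
  set Lf := ‖(a₀ : ℂ) * w + ∑ i : ∀ c, Fin (m c + 1), (al i : ℂ) * ((prd u v m n i : ℝ) : ℂ)‖ with hLf
  have hLf0 : 0 ≤ Lf := norm_nonneg _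
  have hy3 : max 1 ‖y‖ ≤ A₃ := by
    refine max_le hA₃1 ((pi_norm_le_iff_of_nonneg hA₃0.le).2 fun a => ?_)
    have f1 : ‖y a‖ ≤ ‖bc u v a.2‖ := by
      show ‖bc u v a.2 * t a.2 / (1 + t a.2)‖ ≤ _
      rw [mul_div_assoc, norm_mul]
      refine mul_le_of_le_one_right (norm_nonneg _) ?_
      have f5 : (t a.2 : ℂ) / (1 + t a.2) = (((t a.2 : ℝ) / (1 + t a.2) : ℝ) : ℂ) := by push_cast; rfl
      rw [f5, Complex.norm_real, Real.norm_eq_abs, abs_of_nonneg (by positivity), div_le_one (by positivity)]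
      linarith
    have f2 : ‖bc u v a.2‖ ≤ ∑ c, ‖bc u v c‖ := Finset.single_le_sum (f := fun c => ‖bc u v c‖) (fun _ _ => norm_nonneg _)
      (Finset.mem_univ a.2)
    rw [hA₃]
    linarith
  have hprod : ‖∑ i : ∀ c, Fin (m c + 1), γ i * ∏ c, (t c : ℂ) ^ (i c : ℕ)‖ ≤ A₂ * ((H * A₃) ^ B * Lf) := by
    have f6 : (∏ c, (bc u v c / (1 + t c)) ^ m c) ≠ 0 :=
      Finset.prod_ne_zero_iff.2 fun c _ => pow_ne_zero _ (div_ne_zero (hB0 c) (ht1 c))
    have f7 : ‖(∏ c, (bc u v c / (1 + t c)) ^ m c)‖⁻¹ ≤ A₂ := by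
      rw [norm_prod, ← Finset.prod_inv_distrib, hA₂]
      refine Finset.prod_le_prod (fun c _ => by positivity) fun c _ => ?_
      rw [norm_pow, ← inv_pow]
      refine pow_le_pow_left₀ (by positivity) ?_ _
      rw [norm_div, inv_div]
      have f8 : ‖(1 + (t c : ℂ))‖ ≤ 1 + M := by
        refine (norm_add_le _ _).trans ?_
        rw [norm_one, Complex.norm_natCast]
        have : (t c : ℝ) ≤ M := by exact_mod_cast ht c
        linarith
      have f9 : ‖(1 + (t c : ℂ))‖ / ‖bc u v c‖ ≤ (1 + M) / ‖bc u v c‖ := div_le_div_of_nonneg_right f8 (norm_nonneg _)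
      linarith
    rw [norm_mul] at h2
    have f10 : 0 < ‖(∏ c, (bc u v c / (1 + t c)) ^ m c)‖ := norm_pos_iff.2 f6
    have f11 : ‖∑ i : ∀ c, Fin (m c + 1), γ i * ∏ c, (t c : ℂ) ^ (i c : ℕ)‖ ≤
        ‖(∏ c, (bc u v c / (1 + t c)) ^ m c)‖⁻¹ * ((H * max 1 ‖y‖) ^ B * Lf) := by
      rw [← div_eq_inv_mul, le_div_iff₀ f10, mul_comm]
      exact h2
    refine f11.trans (mul_le_mul f7 ?_ (by positivity) hA₂0.le)
    refine mul_le_mul_of_nonneg_right ?_ hLf0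
    exact pow_le_pow_left₀ (by positivity) (mul_le_mul_of_nonneg_left hy3 (by linarith)) _
  have hfin : (al i : ℂ) * PB + a₀ * ((∏ c, (m c).choose (i c) : ℕ) : ℂ) * w = PB * γ i := by
    rw [hγ]
    simp only
    field_simp
  rw [hfin, norm_mul]
  calc ‖PB‖ * ‖γ i‖ ≤ (1 + ‖PB‖) * (A₁ * (A₂ * ((H * A₃) ^ B * Lf))) := by
        refine mul_le_mul (by linarith) ((hγt i).trans (mul_le_mul_of_nonneg_left hprod hA₁0.le)) (norm_nonneg _) (by positivity)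
    _ = A₁ * A₂ * (1 + ‖PB‖) * (H * A₃) ^ B * Lf := by ring
    _ ≤ (A₁ * A₂ * A₃ * (1 + ‖PB‖)) * ((A₁ * A₂ * A₃ * (1 + ‖PB‖)) * H) ^ B * Lf := by
        refine mul_le_mul_of_nonneg_right ?_ hLf0
        have q0 : 1 ≤ A₁ * A₂ := one_le_mul_of_one_le_of_one_le hA₁ hA₂1
        refine mul_le_mul ?_ ?_ (by positivity) (by positivity)
        · calc A₁ * A₂ * (1 + ‖PB‖) = A₁ * A₂ * 1 * (1 + ‖PB‖) := by ring
            _ ≤ A₁ * A₂ * A₃ * (1 + ‖PB‖) := by gcongr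
        · refine pow_le_pow_left₀ (by positivity) ?_ _
          calc H * A₃ = 1 * A₃ * 1 * H := by ring
            _ ≤ A₁ * A₂ * A₃ * (1 + ‖PB‖) * H := by
              gcongr
              linarith

end Pool.Agent.Q189.IB
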