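import Pool.Agent.Q189.IB.Tup4

/-!
# Near linear relations between the products of incomplete beta integrals at almost all integers
-/

set_option autoImplicit false

open PowerSeries

namespace Pool.Agent.Q189.IB

open Pool.Agent.Y916.Sl
open Pool.Agent.Q189.Z3 (sint_card sint_nat)

variable {k s : ℕ} {m : Fin s → ℕ}

lemma to_int {C c : ℝ} {T : ℕ} (hT : 1 ≤ T) {P : (Fin 1 → ℂ) → Prop} {Q : ℕ → Prop}
    (hPQ : ∀ n : ℕ, 2 ≤ n → Q n → P (fun _ => (n : ℂ)))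
    (h : (({x : Fin 1 → ℂ | (∀ j, SInt 1 T (x j)) ∧ P x}.ncard : ℕ) : ℝ) ≤
      C * (T : ℝ) ^ (-c) * (({ξ : ℂ | SInt 1 T ξ}.ncard : ℕ) : ℝ) ^ 1) :
    (({n : ℕ | 2 ≤ n ∧ n ≤ T ∧ Q n}.ncard : ℕ) : ℝ) ≤ 3 * max C 0 * (T : ℝ) ^ (1 - c) := by
  have hT0 : (0 : ℝ) < T := by exact_mod_cast hT
  set δ : ℝ := (T : ℝ) ^ (-c) with hδ
  have hδ0 : 0 < δ := Real.rpow_pos_of_pos hT0 _
  rw [pow_one] at h
  have h2 : (({ξ : ℂ | SInt 1 T ξ}.ncard : ℕ) : ℝ) ≤ 3 * T := by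
    have h3 := sint_card T
    calc (({ξ : ℂ | SInt 1 T ξ}.ncard : ℕ) : ℝ) ≤ ((2 * T + 1 : ℕ) : ℝ) := by exact_mod_cast h3
      _ ≤ 3 * T := by
        push_cast
        have : (1 : ℝ) ≤ T := by exact_mod_cast hT
        linarith
  refine (Nat.cast_le.2 ?_).trans (h.trans ?_)
  · exact Set.ncard_le_ncard_of_injOn (fun n : ℕ => fun _ : Fin 1 => (n : ℂ))
      (fun n hn => ⟨fun _ => sint_nat hn.2.1, hPQ n hn.1 hn.2.2⟩)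
      (fun a _ b _ hab => Nat.cast_injective (R := ℂ) (congrFun hab 0))
      ((Set.Finite.pi' fun _ : Fin 1 => sint_fin 1 T).subset fun x hx => hx.1)
  · calc C * δ * (({ξ : ℂ | SInt 1 T ξ}.ncard : ℕ) : ℝ) ≤ max C 0 * δ * (3 * T) :=
        mul_le_mul (mul_le_mul_of_nonneg_right (le_max_left _ _) hδ0.le) h2 (by positivity) (by positivity)
      _ = 3 * max C 0 * (δ * T) := by ring
      _ = 3 * max C 0 * (T : ℝ) ^ (1 - c) := by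
        congr 1
        rw [hδ, ← Real.rpow_add_one hT0.ne']
        congr 1
        ring

/-- near relations are near multiples of the obvious one -/
def LnP (u v : Fin s → ℚ) (m : Fin s → ℕ) (lam w : ℂ) (B n : ℕ) (H : ℝ) : Prop :=
  ∀ (a₀ : ℤ) (al : (∀ c, Fin (m c + 1)) → ℤ), |(a₀ : ℝ)| ≤ H → (∀ i, |(al i : ℝ)| ≤ H) → ∀ i,
    ‖(al i : ℂ) * (lam * ∏ c, bc u v c ^ m c) + a₀ * ((∏ c, (m c).choose (i c) : ℕ) : ℂ) * (lam * w)‖ ≤ H ^ B *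
      ‖(a₀ : ℂ) * w + ∑ i : ∀ c, Fin (m c + 1), (al i : ℂ) * ((prd u v m n i : ℝ) : ℂ)‖

theorem LIN {u v : Fin s → ℚ} (hpos : ∀ j, 0 < u j ∧ 0 < v j) (hz : ∀ j (z : ℤ), u j ≠ z ∧ v j ≠ z)
    (hd : ∀ i j, i ≠ j → ¬ ((∃ z : ℤ, u i - u j = z) ∧ ∃ z : ℤ, v i - v j = z)) (m : Fin s → ℕ) (lam w : ℂ) :
    ∃ (B : ℕ) (C c : ℝ), 0 < c ∧ ∀ T : ℕ, 1 ≤ T →
    (∃ H₀ : ℝ, ∀ H₁ : ℝ, H₀ ≤ H₁ →
      (({n : ℕ | 2 ≤ n ∧ n ≤ T ∧ ¬ ∀ H : ℝ, H₁ ≤ H → H ≤ H₁ ^ Real.exp ((T : ℝ) ^ c) →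
        LnP u v m lam w B n H}.ncard : ℕ) : ℝ) ≤ C * (T : ℝ) ^ (1 - c)) ∧
    (({n : ℕ | 2 ≤ n ∧ n ≤ T ∧ ¬ ∀ N₀ : ℕ, ∃ N, N₀ ≤ N ∧
      (({j : ℕ | j < N ∧ ¬ ∀ H : ℝ, 2 ^ (2 ^ j) ≤ H → H ≤ 2 ^ (2 ^ (j + 1)) → LnP u v m lam w B n H}.ncard : ℕ) : ℝ) ≤
          (T : ℝ) ^ (-c) * N}.ncard : ℕ) : ℝ) ≤ C * (T : ℝ) ^ (1 - c) := by
  obtain ⟨A, hA, hlin⟩ := lin Pool.Agent.Q68.IB.min hpos m
  have himp : ∀ B₀ : ℕ, ∃ (B : ℕ) (H₀ : ℝ), ∀ (_ : Unit) (x : Fin 1 → ℂ) H, H₀ ≤ H →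
      GU u v (∑ c, m c + 1) B₀ (fun _ : Fin 1 => w) x (H ^ 2) →
      ∀ n : ℕ, 2 ≤ n → (n : ℂ) = x 0 → LnP u v m lam w B n H := by
    intro B₀
    refine ⟨2 + 3 * B₀, max (max 1 A) ‖lam‖, fun _ x H hH hg n hn hnx a₀ al h0 h1 i => ?_⟩
    have b1 : 1 ≤ H := (le_max_left _ _).trans ((le_max_left _ _).trans hH)
    have b2 : A ≤ H := (le_max_right _ _).trans ((le_max_left _ _).trans hH)
    have b3 : ‖lam‖ ≤ H := (le_max_right _ _).trans hH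
    have b4 : H ≤ H ^ 2 := le_self_pow₀ b1 (by norm_num)
    have hx : x = fun _ => (n : ℂ) := by
      funext j
      rw [Fin.fin_one_eq_zero j, hnx]
    rw [hx] at hg
    have h3 := hlin w B₀ n (H ^ 2) hn (b1.trans b4) hg a₀ al (h0.trans b4) (fun i => (h1 i).trans b4) i
    have h4 : (al i : ℂ) * (lam * ∏ c, bc u v c ^ m c) + a₀ * ((∏ c, (m c).choose (i c) : ℕ) : ℂ) * (lam * w) =
        lam * ((al i : ℂ) * ∏ c, bc u v c ^ m c + a₀ * ((∏ c, (m c).choose (i c) : ℕ) : ℂ) * w) := by ring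
    rw [h4, norm_mul]
    set Lf := ‖(a₀ : ℂ) * w + ∑ i : ∀ c, Fin (m c + 1), (al i : ℂ) * ((prd u v m n i : ℝ) : ℂ)‖ with hLf
    have hLf0 : 0 ≤ Lf := norm_nonneg _
    have hA0 : 0 < A := by linarith
    calc _ ≤ H * (A * (A * H ^ 2) ^ B₀ * Lf) := mul_le_mul b3 h3 (norm_nonneg _) (by linarith)
      _ ≤ H * (H * (H * H ^ 2) ^ B₀ * Lf) := by
          refine mul_le_mul_of_nonneg_left ?_ (by linarith)
          refine mul_le_mul_of_nonneg_right ?_ hLf0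
          refine mul_le_mul b2 (pow_le_pow_left₀ (by positivity) (mul_le_mul_of_nonneg_right b2 (by positivity)) _)
            (by positivity) (by linarith)
      _ = H ^ (2 + 3 * B₀) * Lf := by
          have e1 : H * H ^ 2 = H ^ 3 := by ring
          rw [e1, ← pow_mul]
          ring
  obtain ⟨B, C, c, hc, hmain⟩ := TUPG hpos hz hd 1 1 (∑ c, m c + 1) 1 le_rfl (fun (_ : Unit) (_ : Fin 1) => w)
    (fun B _ x H => ∀ n : ℕ, 2 ≤ n → (n : ℂ) = x 0 → LnP u v m lam w B n H) himp (by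
      intro B z x H H' h1 h2 h3 hg n hn hnx a₀ al h0 h1' i
      refine (hg n hn hnx a₀ al (h0.trans h2) (fun i => (h1' i).trans h2) i).trans ?_
      refine mul_le_mul_of_nonneg_right ?_ (norm_nonneg _)
      rw [pow_mul]
      exact pow_le_pow_left₀ (by linarith) h3 _)
  refine ⟨B, 3 * max C 0, c, hc, fun T hT => ?_⟩
  obtain ⟨⟨H₀, h1⟩, h2⟩ := hmain T hT
  refine ⟨⟨H₀, fun H₁ hH₁ => ?_⟩, ?_⟩
  · refine to_int hT (fun n hn hq hcon => hq ?_) (h1 H₁ hH₁ ())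
    exact fun H ha hb => hcon H ha hb n hn rfl
  · refine to_int hT (fun n hn hq hcon => hq ?_) (h2 ())
    intro N₀
    obtain ⟨N, hN, hbad⟩ := hcon N₀
    refine ⟨N, hN, le_trans (Nat.cast_le.2 ?_) hbad⟩
    refine Set.ncard_le_ncard (fun j hj => ⟨hj.1, fun hall => hj.2 ?_⟩) ((Set.finite_lt_nat N).subset fun j hj => hj.1)
    exact fun H ha hb => hall H ha hb n hn rfl

/-- the product of the Gamma values -/
theorem gamma_prod {a : Fin (k + 1) → ℚ} (ha : ∀ j (n : ℕ), a j ≠ -(n : ℚ)) {u v : Fin s → ℚ}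
    {m : Fin s → ℕ} (hE : Enum (fun j => rp (a j)) u v m) : ∃ R : ℚ, R ≠ 0 ∧
    ∏ j, Real.Gamma (a j : ℝ) = (R : ℝ) * Real.Gamma ((∑ j, rp (a j) : ℚ) : ℝ) * ∏ c, inc (u c) (v c) 1 ^ m c := by
  choose q hq0 hq using fun j => SHIFT (a j) (ha j)
  obtain ⟨Q, hQ0, hQ⟩ := PROD k (fun j => rp (a j)) (fun j => rp_pos _) s u v m hE
  refine ⟨(∏ j, q j) * Q, mul_ne_zero (Finset.prod_ne_zero_iff.2 fun j _ => hq0 j) hQ0.ne', ?_⟩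
  have h1 : ∏ j, Real.Gamma (a j : ℝ) = (∏ j, (q j : ℝ)) * ∏ j, Real.Gamma ((rp (a j) : ℚ) : ℝ) := by
    rw [← Finset.prod_mul_distrib]
    exact Finset.prod_congr rfl fun j _ => hq j
  rw [h1, hQ]
  push_cast
  ring

/-- the inequality for the product of the Gamma values -/
def LnG {k : ℕ} (a : Fin (k + 1) → ℚ) (R : ℚ) (u v : Fin s → ℚ) (m : Fin s → ℕ) (B n : ℕ) (H : ℝ) : Prop :=
  ∀ (a₀ : ℤ) (al : (∀ c, Fin (m c + 1)) → ℤ), |(a₀ : ℝ)| ≤ H → (∀ i, |(al i : ℝ)| ≤ H) → ∀ i,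
    |(al i : ℝ) * ∏ j, Real.Gamma (a j : ℝ) + a₀ * R * ((∏ c, (m c).choose (i c) : ℕ) : ℝ) *
      Real.pi ^ (((k + 1 : ℕ) : ℝ) / 2)| ≤ H ^ B *
        |(a₀ : ℝ) * ww a + ∑ i : ∀ c, Fin (m c + 1), (al i : ℝ) * prd u v m n i|

theorem LING {a : Fin (k + 1) → ℚ} (ha : ∀ j (n : ℕ), a j ≠ -(n : ℚ)) {u v : Fin s → ℚ}
    {m : Fin s → ℕ} (hE : Enum (fun j => rp (a j)) u v m) : ∃ R : ℚ, R ≠ 0 ∧ ∃ (B : ℕ) (C c : ℝ), 0 < c ∧ ∀ T : ℕ, 1 ≤ T →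
    (∃ H₀ : ℝ, ∀ H₁ : ℝ, H₀ ≤ H₁ →
      (({n : ℕ | 2 ≤ n ∧ n ≤ T ∧ ¬ ∀ H : ℝ, H₁ ≤ H → H ≤ H₁ ^ Real.exp ((T : ℝ) ^ c) →
        LnG a R u v m B n H}.ncard : ℕ) : ℝ) ≤ C * (T : ℝ) ^ (1 - c)) ∧
    (({n : ℕ | 2 ≤ n ∧ n ≤ T ∧ ¬ ∀ N₀ : ℕ, ∃ N, N₀ ≤ N ∧
      (({j : ℕ | j < N ∧ ¬ ∀ H : ℝ, 2 ^ (2 ^ j) ≤ H → H ≤ 2 ^ (2 ^ (j + 1)) → LnG a R u v m B n H}.ncard : ℕ) : ℝ) ≤
          (T : ℝ) ^ (-c) * N}.ncard : ℕ) : ℝ) ≤ C * (T : ℝ) ^ (1 - c) := by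
  obtain ⟨R, hR, hprod⟩ := gamma_prod ha hE
  refine ⟨R, hR, ?_⟩
  have hΓ : Real.Gamma ((∑ j, rp (a j) : ℚ) : ℝ) ≠ 0 := by
    intro h0
    have := ww_pos a
    unfold ww at this
    rw [h0, div_zero] at this
    exact lt_irrefl _ this
  set lam : ℝ := (R : ℝ) * Real.Gamma ((∑ j, rp (a j) : ℚ) : ℝ) with hlam
  obtain ⟨B, C, c, hc, h⟩ := LIN (fun c => ⟨(hE.uI c).1.1, (hE.uI c).2.1⟩)
    (fun c z => ⟨not_int (hE.uI c).1.1 (hE.uI c).1.2 z, not_int (hE.uI c).2.1 (hE.uI c).2.2 z⟩)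
    (fun i j hij => fun ⟨⟨z, hz⟩, ⟨z', hz'⟩⟩ => hij (hE.inj i j (sub_int (hE.uI i).1 (hE.uI j).1 hz)
      (sub_int (hE.uI i).2 (hE.uI j).2 hz'))) m (lam : ℂ) ((ww a : ℝ) : ℂ)
  have key : ∀ B n H, LnP u v m (lam : ℂ) ((ww a : ℝ) : ℂ) B n H → LnG a R u v m B n H := by
    intro B n H hL a₀ al h0 h1 i
    have h2 := hL a₀ al h0 h1 i
    have e1 : (al i : ℂ) * ((lam : ℂ) * ∏ c, bc u v c ^ m c) + a₀ * ((∏ c, (m c).choose (i c) : ℕ) : ℂ) *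
        ((lam : ℂ) * ((ww a : ℝ) : ℂ)) = (((al i : ℝ) * ∏ j, Real.Gamma (a j : ℝ) + a₀ * R *
          ((∏ c, (m c).choose (i c) : ℕ) : ℝ) * Real.pi ^ (((k + 1 : ℕ) : ℝ) / 2) : ℝ) : ℂ) := by
      have e3 : lam * ww a = R * Real.pi ^ (((k + 1 : ℕ) : ℝ) / 2) := by
        rw [hlam]
        unfold ww
        push_cast
        push_cast at hΓ
        field_simp
      have e4 : (lam : ℂ) * ((ww a : ℝ) : ℂ) = ((R * Real.pi ^ (((k + 1 : ℕ) : ℝ) / 2) : ℝ) : ℂ) := by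
        rw [← e3]
        push_cast
        rfl
      have e5 : (lam : ℂ) * ∏ c, bc u v c ^ m c = ((∏ j, Real.Gamma (a j : ℝ) : ℝ) : ℂ) := by
        rw [hprod]
        unfold bc
        push_cast
        rfl
      rw [e4, e5]
      push_cast
      ring
    have e2 : ((a₀ : ℂ) * ((ww a : ℝ) : ℂ) + ∑ i : ∀ c, Fin (m c + 1), (al i : ℂ) * ((prd u v m n i : ℝ) : ℂ)) =
        (((a₀ : ℝ) * ww a + ∑ i : ∀ c, Fin (m c + 1), (al i : ℝ) * prd u v m n i : ℝ) : ℂ) := by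
      push_cast
      rfl
    rw [e1, e2, Complex.norm_real, Complex.norm_real, Real.norm_eq_abs, Real.norm_eq_abs] at h2
    exact h2
  refine ⟨B, C, c, hc, fun T hT => ?_⟩
  obtain ⟨⟨H₀, h1⟩, h2⟩ := h T hT
  refine ⟨⟨H₀, fun H₁ hH₁ => (Nat.cast_le.2 ?_).trans (h1 H₁ hH₁)⟩, (Nat.cast_le.2 ?_).trans h2⟩
  · refine Set.ncard_le_ncard (fun n hn => ⟨hn.1, hn.2.1, fun hall => hn.2.2 ?_⟩)
      ((Set.finite_Iic T).subset fun n hn => hn.2.1)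
    exact fun H ha hb => key _ _ _ (hall H ha hb)
  · refine Set.ncard_le_ncard (fun n hn => ⟨hn.1, hn.2.1, fun hall => hn.2.2 fun N₀ => ?_⟩)
      ((Set.finite_Iic T).subset fun n hn => hn.2.1)
    obtain ⟨N, hN, hbad⟩ := hall N₀
    refine ⟨N, hN, le_trans (Nat.cast_le.2 ?_) hbad⟩
    refine Set.ncard_le_ncard (fun j hj => ⟨hj.1, fun hall' => hj.2 ?_⟩) ((Set.finite_lt_nat N).subset fun j hj => hj.1)
    exact fun H ha hb => key _ _ _ (hall' H ha hb)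

end Pool.Agent.Q189.IB
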